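import Mathlib

namespace Pool.Agent.Lib.MP_c2c03e_al

variable {B W : Type*} [Group W] {M : CoxeterMatrix B}

/-- Reflection length: the least `k` such that `w` is a product of `k` reflections
(a reflection is a conjugate of a simple reflection). -/
noncomputable def rl (cs : CoxeterSystem M W) (w : W) : ℕ :=
  sInf {k : ℕ | ∃ l : List W, l.length = k ∧ (∀ r ∈ l, cs.IsReflection r) ∧ l.prod = w}

end Pool.Agent.Lib.MP_c2c03e_al
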