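import Mathlib

-- part Pool.Agent.Lib.MP_c2c03e_al.Geom
section

/-! The geometric representation of a Coxeter system. -/

set_option linter.unusedSectionVars false

namespace Pool.Agent.Lib.MP_c2c03e_al

open Real CoxeterSystem

variable {B W : Type*} [Group W] [Fintype B] [DecidableEq B] {M : CoxeterMatrix B}

/-- Gram matrix. -/
noncomputable def cm (M : CoxeterMatrix B) : Matrix B B ℝ := fun s t => - cos (π / M s t)

/-- The bilinear form. -/
noncomputable def bf (M : CoxeterMatrix B) : LinearMap.BilinForm ℝ (B → ℝ) :=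
  Matrix.toBilin' (cm M)

/-- Simple root. -/
def al (s : B) : B → ℝ := Pi.single s 1

theorem cm_symm (s t : B) : cm M s t = cm M t s := by
  simp only [cm, M.symmetric s t]

theorem cm_self (s : B) : cm M s s = 1 := by simp [cm]

theorem cm_nonpos {s t : B} (h : s ≠ t) : cm M s t ≤ 0 := by
  simp only [cm, neg_nonpos]
  rcases Nat.eq_zero_or_pos (M s t) with h0 | h0
  · simp [h0]
  · have h2 : 2 ≤ M s t := by have := M.off_diagonal s t h; omega
    have h2' : (2 : ℝ) ≤ M s t := by exact_mod_cast h2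
    apply cos_nonneg_of_neg_pi_div_two_le_of_le
    · have : 0 ≤ π / (M s t : ℝ) := by positivity
      linarith [pi_pos]
    · gcongr

theorem bf_apply (u v : B → ℝ) : bf M u v = ∑ s, ∑ t, u s * cm M s t * v t := by
  simp [bf, Matrix.toBilin'_apply]

theorem bf_symm (u v : B → ℝ) : bf M u v = bf M v u := by
  rw [bf_apply, bf_apply, Finset.sum_comm]
  refine Finset.sum_congr rfl fun s _ => Finset.sum_congr rfl fun t _ => ?_
  rw [cm_symm]; ring

theorem bf_al_al (s t : B) : bf M (al s) (al t) = cm M s t := by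
  simp [bf, al, Matrix.toBilin'_single]

theorem bf_al_self (s : B) : bf M (al s) (al s) = 1 := by rw [bf_al_al, cm_self]

theorem al_apply (s t : B) : al s t = if t = s then (1 : ℝ) else 0 := by
  simp [al, Pi.single_apply]

@[simp] theorem al_self (s : B) : al s s = (1 : ℝ) := by simp [al]

theorem al_ne {s t : B} (h : t ≠ s) : al s t = (0 : ℝ) := by simp [al_apply, h]

theorem al_nonneg (s : B) : (0 : B → ℝ) ≤ al s := by
  intro t; rw [al_apply]; split_ifs <;> simp

theorem sum_al (v : B → ℝ) : ∑ s, v s • al s = v := by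
  ext t; simp [al_apply, Finset.sum_apply]

theorem bf_right_sum (u v : B → ℝ) : bf M u v = ∑ t, v t * bf M u (al t) := by
  conv_lhs => rw [← sum_al v]
  simp [map_sum]

/-- Simple reflection on `B → ℝ`. -/
noncomputable def rf (M : CoxeterMatrix B) (s : B) : Module.End ℝ (B → ℝ) :=
  LinearMap.id - ((2 : ℝ) • bf M (al s)).smulRight (al s)

theorem rf_apply (s : B) (v : B → ℝ) : rf M s v = v - (2 * bf M (al s) v) • al s := by
  simp [rf]

/-- Chebyshev-type sequence. -/
def us (x : ℝ) : ℕ → ℝ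
  | 0 => 0
  | 1 => 1
  | n + 2 => x * us x (n + 1) - us x n

theorem us_two (n : ℕ) : us 2 n = n := by
  induction n using Nat.twoStepInduction with
  | zero => simp [us]
  | one => simp [us]
  | more n h1 h2 => rw [us, h1, h2]; push_cast; ring

theorem us_cos (θ : ℝ) (n : ℕ) : us (2 * cos θ) n * sin θ = sin (n * θ) := by
  induction n using Nat.twoStepInduction with
  | zero => simp [us]
  | one => simp [us]
  | more n h1 h2 =>
    rw [us, sub_mul, mul_assoc, h1, h2]
    have e1 : ((n + 2 : ℕ) : ℝ) * θ = ((n + 1 : ℕ) : ℝ) * θ + θ := by push_cast; ring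
    have e2 : (n : ℝ) * θ = ((n + 1 : ℕ) : ℝ) * θ - θ := by push_cast; ring
    rw [e1, e2, sin_add, sin_sub]; ring

theorem sin_pos_M {m : ℕ} (h : 2 ≤ m) : 0 < sin (π / m) := by
  have h2' : (2 : ℝ) ≤ m := by exact_mod_cast h
  apply sin_pos_of_pos_of_lt_pi
  · have := pi_pos; positivity
  · rw [div_lt_iff₀ (by linarith)]; nlinarith [pi_pos]

theorem us_nonneg {s t : B} (h : s ≠ t) {k : ℕ} (hk : M s t = 0 ∨ k ≤ M s t) :
    0 ≤ us (-2 * cm M s t) k := by
  rcases Nat.eq_zero_or_pos (M s t) with h0 | h0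
  · simp [cm, h0, us_two]
  · have h2 : 2 ≤ M s t := by have := M.off_diagonal s t h; omega
    have hk' : k ≤ M s t := by omega
    have hs := sin_pos_M h2
    have h3 := us_cos (π / M s t) k
    have e : -2 * cm M s t = 2 * cos (π / M s t) := by simp [cm]
    rw [e]
    have : 0 ≤ sin (k * (π / M s t)) := by
      apply sin_nonneg_of_nonneg_of_le_pi
      · have := pi_pos; positivity
      · have h4 : (k : ℝ) ≤ M s t := by exact_mod_cast hk'
        have h5 : (0 : ℝ) < M s t := by exact_mod_cast h0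
        rw [← mul_div_assoc, div_le_iff₀ h5]; nlinarith [pi_pos]
    rw [← h3] at this
    exact nonneg_of_mul_nonneg_left this hs

theorem rf_al (s t : B) : rf M s (al t) = al t + (-2 * cm M s t) • al s := by
  rw [rf_apply, bf_al_al]; module

theorem rf_al_self (s : B) : rf M s (al s) = - al s := by
  rw [rf_al, cm_self]; module

theorem rf_rf (s : B) (v : B → ℝ) : rf M s (rf M s v) = v := by
  rw [rf_apply s v, map_sub, map_smul, rf_al_self, rf_apply]; module

theorem rf_pow_al (s t : B) (k : ℕ) :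
    ((rf M s * rf M t) ^ k) (al s) =
      us (-2 * cm M s t) (2 * k + 1) • al s + us (-2 * cm M s t) (2 * k) • al t := by
  induction k with
  | zero => simp [us]
  | succ k ih =>
    rw [pow_succ', Module.End.mul_apply, ih, Module.End.mul_apply]
    simp only [map_add, map_smul, rf_al_self, rf_al, map_neg, cm_symm t s]
    have e1 : 2 * (k + 1) + 1 = (2 * k + 1) + 2 := by ring
    have e2 : 2 * (k + 1) = 2 * k + 2 := by ring
    rw [e1, e2, us, us]
    module

theorem liftable (M : CoxeterMatrix B) : M.IsLiftable (rf M) := by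
  intro s t
  by_cases hst : s = t
  · subst hst
    rw [M.diagonal, pow_one]
    exact LinearMap.ext fun v => by simp [rf_rf]
  rcases Nat.eq_zero_or_pos (M s t) with h0 | h0
  · simp [h0]
  have h2 : 2 ≤ M s t := by have := M.off_diagonal s t hst; omega
  have hs := sin_pos_M h2
  have hm : (M s t : ℝ) ≠ 0 := by positivity
  have e : -2 * cm M s t = 2 * cos (π / M s t) := by simp [cm]
  have u0 : us (-2 * cm M s t) (2 * M s t) = 0 := by
    have := us_cos (π / M s t) (2 * M s t)
    have e2 : ((2 * M s t : ℕ) : ℝ) * (π / M s t) = 2 * π := by push_cast; field_simp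
    rw [e2, sin_two_pi] at this
    rw [e]; exact (mul_eq_zero.1 this).resolve_right hs.ne'
  have u1 : us (-2 * cm M s t) (2 * M s t + 1) = 1 := by
    have := us_cos (π / M s t) (2 * M s t + 1)
    have e2 : ((2 * M s t + 1 : ℕ) : ℝ) * (π / M s t) = π / M s t + 2 * π := by
      push_cast; field_simp; ring
    rw [e2, sin_add_two_pi] at this
    rw [e]; exact mul_right_cancel₀ hs.ne' (by rw [this, one_mul])
  have a1 : ((rf M s * rf M t) ^ M s t) (al s) = al s := by
    rw [rf_pow_al, u0, u1]; simp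
  have a2' : ((rf M t * rf M s) ^ M s t) (al t) = al t := by
    rw [rf_pow_al, cm_symm t s, u0, u1]; simp
  have inv : ∀ k, (rf M s * rf M t) ^ k * (rf M t * rf M s) ^ k = 1 := by
    intro k
    induction k with
    | zero => simp
    | succ k ih =>
      rw [pow_succ, pow_succ']
      have : rf M s * rf M t * (rf M t * rf M s) = 1 := by
        exact LinearMap.ext fun v => by simp [rf_rf]
      calc _ = (rf M s * rf M t) ^ k * (rf M s * rf M t * (rf M t * rf M s)) *
            (rf M t * rf M s) ^ k := by simp only [mul_assoc]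
        _ = 1 := by rw [this, mul_one, ih]
  have a2 : ((rf M s * rf M t) ^ M s t) (al t) = al t := by
    conv_lhs => rw [← a2']
    rw [← Module.End.mul_apply, inv]; rfl
  refine LinearMap.ext fun v => ?_
  set c := cm M s t with hc
  have hc2 : 1 - c ^ 2 ≠ 0 := by
    have : 1 - c ^ 2 = sin (π / M s t) ^ 2 := by
      rw [hc, cm, neg_sq]; nlinarith [sin_sq_add_cos_sq (π / M s t)]
    rw [this]; positivity
  set p := bf M (al s) v
  set q := bf M (al t) v
  set v' := v - ((p - c * q) / (1 - c ^ 2)) • al s - ((q - c * p) / (1 - c ^ 2)) • al t with hv'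
  have b1 : bf M (al s) v' = 0 := by
    simp only [hv', map_sub, map_smul, bf_al_al, cm_self, smul_eq_mul]
    rw [← hc]; field_simp; ring
  have b2 : bf M (al t) v' = 0 := by
    simp only [hv', map_sub, map_smul, bf_al_al, cm_self, smul_eq_mul, cm_symm t s]
    rw [← hc]; field_simp; ring
  have b3 : ∀ k, ((rf M s * rf M t) ^ k) v' = v' := by
    intro k
    induction k with
    | zero => simp
    | succ k ih =>
      rw [pow_succ, Module.End.mul_apply, Module.End.mul_apply, rf_apply t, b2, mul_zero, zero_smul,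
        sub_zero, rf_apply s, b1, mul_zero, zero_smul, sub_zero, ih]
  have hv : v = v' + ((p - c * q) / (1 - c ^ 2)) • al s + ((q - c * p) / (1 - c ^ 2)) • al t := by
    rw [hv']; abel
  rw [Module.End.one_apply]
  conv_lhs => rw [hv]
  rw [map_add, map_add, map_smul, map_smul, a1, a2, b3, ← hv]

variable (cs : CoxeterSystem M W)

/-- The geometric representation. -/
noncomputable def rho : W →* Module.End ℝ (B → ℝ) := cs.lift ⟨rf M, liftable M⟩

theorem rho_simple (s : B) (v : B → ℝ) :
    rho cs (cs.simple s) v = v - (2 * bf M (al s) v) • al s := by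
  rw [rho, lift_apply_simple, rf_apply]

theorem rho_simple' (s : B) : rho cs (cs.simple s) = rf M s := by
  rw [rho, lift_apply_simple]

theorem rho_mul (a b : W) (v : B → ℝ) : rho cs (a * b) v = rho cs a (rho cs b v) := by
  rw [map_mul, Module.End.mul_apply]

@[simp] theorem rho_one (v : B → ℝ) : rho cs 1 v = v := by simp

@[simp] theorem rho_inv_self (a : W) (v : B → ℝ) : rho cs a⁻¹ (rho cs a v) = v := by
  rw [← rho_mul]; simp

@[simp] theorem rho_self_inv (a : W) (v : B → ℝ) : rho cs a (rho cs a⁻¹ v) = v := by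
  rw [← rho_mul]; simp

theorem rho_injective (a : W) : Function.Injective (rho cs a) := by
  intro u v h
  rw [← rho_inv_self cs a u, h, rho_inv_self]

theorem rho_simple_self (s : B) : rho cs (cs.simple s) (al s) = - al s := by
  rw [rho_simple', rf_al_self]

theorem bf_rho (w : W) (u v : B → ℝ) : bf M (rho cs w u) (rho cs w v) = bf M u v := by
  induction w using cs.simple_induction_left with
  | one => simp
  | mul_simple_left w i ih =>
    rw [rho_mul, rho_mul, ← ih, rho_simple, rho_simple]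
    simp only [map_sub, map_smul, LinearMap.sub_apply, LinearMap.smul_apply, smul_eq_mul,
      bf_al_self]
    rw [bf_symm (rho cs w u) (al i)]; ring

theorem bf_rho_left (w : W) (u v : B → ℝ) : bf M (rho cs w u) v = bf M u (rho cs w⁻¹ v) := by
  rw [← bf_rho cs w u, rho_self_inv]

theorem rho_alt (s t : B) (k : ℕ) :
    rho cs (cs.wordProd (alternatingWord s t k)) (al s) =
      us (-2 * cm M s t) (k + 1) • al (if Even k then s else t) +
        us (-2 * cm M s t) k • al (if Even k then t else s) := by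
  induction k with
  | zero => simp [alternatingWord, us]
  | succ k ih =>
    rw [alternatingWord_succ', wordProd_cons, rho_mul, ih, rho_simple']
    by_cases hk : Even k
    · have : ¬ Even (k + 1) := by simp [Nat.even_add_one, hk]
      simp only [hk, this, if_true, if_false, map_add, map_smul, rf_al_self, rf_al, cm_symm t s]
      rw [us]; module
    · have : Even (k + 1) := by simp [Nat.even_add_one, hk]
      simp only [hk, this, if_true, if_false, map_add, map_smul, rf_al_self, rf_al]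
      rw [us]; module

theorem alt_split (s t : B) (j m : ℕ) :
    ∃ ω : List B, ω.length = j ∧ alternatingWord s t (m + j) = ω ++ alternatingWord s t m := by
  induction j with
  | zero => exact ⟨[], rfl, by simp⟩
  | succ j ih =>
    obtain ⟨ω, h1, h2⟩ := ih
    refine ⟨(if Even (m + j) then t else s) :: ω, by simp [h1], ?_⟩
    rw [← add_assoc, alternatingWord_succ', h2]; simp

/-- The fundamental theorem: an ascent gives a positive root. -/
theorem rho_al_nonneg (w : W) (s : B) (h : cs.length w < cs.length (w * cs.simple s)) :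
    0 ≤ rho cs w (al s) := by
  induction hn : cs.length w using Nat.strong_induction_on generalizing w s with
  | _ n ih =>
  by_cases hw : w = 1
  · subst hw; simpa using al_nonneg s
  obtain ⟨t, ht⟩ := cs.exists_rightDescent_of_ne_one hw
  have hst : s ≠ t := by
    rintro rfl
    exact absurd ht (not_lt.2 h.le)
  let P : ℕ → Prop := fun k =>
    cs.length (w * (cs.wordProd (alternatingWord s t k))⁻¹) + k = cs.length w
  have hP1 : P 1 := by
    have := cs.isRightDescent_iff.1 ht
    simpa [P, alternatingWord] using this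
  have hbd : ∀ k, P k → k ≤ cs.length w := fun k hk => by simp only [P] at hk; omega
  set k := Nat.findGreatest P (cs.length w) with hk
  have hPk : P k := Nat.findGreatest_spec (hbd 1 hP1) hP1
  have hk1 : 1 ≤ k := Nat.le_findGreatest (hbd 1 hP1) hP1
  have hnot : ¬ P (k + 1) := fun hc =>
    Nat.findGreatest_is_greatest (Nat.lt_succ_self k) (hbd _ hc) hc
  set v := w * (cs.wordProd (alternatingWord s t k))⁻¹ with hv
  have hwv : w = v * cs.wordProd (alternatingWord s t k) := by simp [hv]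
  have hlv : cs.length v + k = cs.length w := hPk
  have hq : cs.length v < cs.length (v * cs.simple (if Even k then t else s)) := by
    rcases cs.length_mul_simple v (if Even k then t else s) with h1 | h1
    · omega
    · exfalso; apply hnot
      simp only [P]
      rw [alternatingWord_succ', wordProd_cons, mul_inv_rev, ← mul_assoc, inv_simple, ← hv]
      omega
  have hp : cs.length v < cs.length (v * cs.simple (if Even k then s else t)) := by
    obtain ⟨j, hj⟩ : ∃ j, k = j + 1 := ⟨k - 1, by omega⟩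
    have e : (if Even k then s else t) = (if Even j then t else s) := by
      rw [hj]; by_cases hj2 : Even j <;> simp [Nat.even_add_one, hj2]
    have e2 : w = (v * cs.simple (if Even j then t else s)) *
        cs.wordProd (alternatingWord s t j) := by
      rw [mul_assoc v, hwv, hj, alternatingWord_succ', wordProd_cons]
    have h3 := cs.length_mul_le (v * cs.simple (if Even j then t else s))
      (cs.wordProd (alternatingWord s t j))
    have h4 := cs.length_wordProd_le (alternatingWord s t j)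
    rw [length_alternatingWord] at h4
    rw [← e2] at h3
    rw [e]; omega
  have hkm : M s t = 0 ∨ k + 1 ≤ M s t := by
    by_contra hc
    push Not at hc
    obtain ⟨j, hj⟩ : ∃ j, k = M s t + j := ⟨k - M s t, by omega⟩
    obtain ⟨m, hm⟩ : ∃ m, M s t = m + 1 := ⟨M s t - 1, by omega⟩
    obtain ⟨ω, h1, h2⟩ := alt_split s t j (M s t)
    have h3 := cs.wordProd_braidWord_eq s t
    simp only [braidWord] at h3
    rw [M.symmetric t s] at h3
    have e : w * cs.simple s = v * cs.wordProd (ω ++ alternatingWord s t m) := by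
      rw [hwv, hj, h2, wordProd_append, wordProd_append, h3, hm, alternatingWord_succ,
        wordProd_concat]
      simp [mul_assoc]
    have h4 := cs.length_mul_le v (cs.wordProd (ω ++ alternatingWord s t m))
    have h5 := cs.length_wordProd_le (ω ++ alternatingWord s t m)
    rw [List.length_append, length_alternatingWord] at h5
    rw [← e] at h4
    omega
  have hvl : cs.length v < n := by omega
  rw [hwv, rho_mul, rho_alt, map_add, map_smul, map_smul]
  apply add_nonneg
  · exact smul_nonneg (us_nonneg hst hkm) (ih _ hvl v _ hp rfl)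
  · exact smul_nonneg (us_nonneg hst (by omega)) (ih _ hvl v _ hq rfl)

theorem rho_al_nonpos (w : W) (s : B) (h : cs.length (w * cs.simple s) < cs.length w) :
    rho cs w (al s) ≤ 0 := by
  have := rho_al_nonneg cs (w * cs.simple s) s (by simpa using h)
  rw [rho_mul, rho_simple_self, map_neg] at this
  exact neg_nonneg.1 this

end Pool.Agent.Lib.MP_c2c03e_al
end

-- part Pool.Agent.Lib.MP_c2c03e_al.Roots
section

/-! Roots, inversion sets, depth and nested roots. -/

set_option linter.unusedSectionVars false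

namespace Pool.Agent.Lib.MP_c2c03e_al

open Real CoxeterSystem

variable {B W : Type*} [Group W] [Fintype B] [DecidableEq B] {M : CoxeterMatrix B}
  (cs : CoxeterSystem M W)

/-- Roots. -/
def IsRoot (v : B → ℝ) : Prop := ∃ w s, v = rho cs w (al s)

theorem isRoot_al (s : B) : IsRoot cs (al s) := ⟨1, s, by simp⟩

variable {cs}

theorem IsRoot.rho {v : B → ℝ} (h : IsRoot cs v) (x : W) : IsRoot cs (rho cs x v) := by
  obtain ⟨w, s, rfl⟩ := h
  exact ⟨x * w, s, by rw [rho_mul]⟩

theorem IsRoot.neg {v : B → ℝ} (h : IsRoot cs v) : IsRoot cs (-v) := by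
  obtain ⟨w, s, rfl⟩ := h
  exact ⟨w * cs.simple s, s, by rw [rho_mul, rho_simple_self, map_neg]⟩

theorem IsRoot.norm {v : B → ℝ} (h : IsRoot cs v) : bf M v v = 1 := by
  obtain ⟨w, s, rfl⟩ := h
  rw [bf_rho, bf_al_self]

theorem IsRoot.sign {v : B → ℝ} (h : IsRoot cs v) : 0 ≤ v ∨ v ≤ 0 := by
  obtain ⟨w, s, rfl⟩ := h
  rcases lt_or_gt_of_ne (cs.length_mul_simple_ne w s) with h | h
  · exact Or.inr (rho_al_nonpos cs w s h)
  · exact Or.inl (rho_al_nonneg cs w s h)

theorem IsRoot.not_both {v : B → ℝ} (h : IsRoot cs v) (h1 : 0 ≤ v) (h2 : v ≤ 0) : False := by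
  have := h.norm
  rw [le_antisymm h2 h1] at this
  simp at this

theorem IsRoot.nonpos_iff {v : B → ℝ} (h : IsRoot cs v) : v ≤ 0 ↔ ¬ 0 ≤ v :=
  ⟨fun h1 h2 => h.not_both h2 h1, fun h1 => h.sign.resolve_left h1⟩

theorem IsRoot.nonneg_of_coord {v : B → ℝ} (h : IsRoot cs v) {t : B} (ht : 0 < v t) : 0 ≤ v :=
  h.sign.resolve_right fun h1 => absurd (h1 t) (not_le.2 ht)

theorem IsRoot.nonpos_of_coord {v : B → ℝ} (h : IsRoot cs v) {t : B} (ht : v t < 0) : v ≤ 0 :=
  h.sign.resolve_left fun h1 => absurd (h1 t) (not_le.2 ht)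

theorem IsRoot.eq_al {v : B → ℝ} (h : IsRoot cs v) (h0 : 0 ≤ v) {s : B}
    (hs : ∀ t, t ≠ s → v t = 0) : v = al s := by
  have e : v = v s • al s := by
    ext t
    by_cases ht : t = s
    · subst ht; simp
    · simp [al_ne ht, hs t ht]
  have h1 := h.norm
  rw [e] at h1
  simp only [map_smul, LinearMap.smul_apply, bf_al_self, smul_eq_mul, mul_one] at h1
  have h2 : 0 ≤ v s := h0 s
  have h3 : v s = 1 := by nlinarith
  rw [e, h3, one_smul]

theorem IsRoot.exists_pos {v : B → ℝ} (h : IsRoot cs v) (h0 : 0 ≤ v) {s : B} (hs : v ≠ al s) :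
    ∃ t, t ≠ s ∧ 0 < v t := by
  by_contra hc
  push Not at hc
  exact hs (h.eq_al h0 fun t ht => le_antisymm (hc t ht) (h0 t))

theorem rho_simple_coord (s : B) (v : B → ℝ) {t : B} (ht : t ≠ s) :
    rho cs (cs.simple s) v t = v t := by
  simp [rho_simple, al_ne ht]

theorem IsRoot.simple_nonneg {v : B → ℝ} (h : IsRoot cs v) (h0 : 0 ≤ v) {s : B} (hs : v ≠ al s) :
    0 ≤ Pool.Agent.Lib.MP_c2c03e_al.rho cs (cs.simple s) v := by
  obtain ⟨t, ht, ht2⟩ := h.exists_pos h0 hs
  exact (h.rho _).nonneg_of_coord (t := t) (by rwa [rho_simple_coord s v ht])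

theorem IsRoot.exists_refl {v : B → ℝ} (h : IsRoot cs v) :
    ∃ r : W, ∀ u, Pool.Agent.Lib.MP_c2c03e_al.rho cs r u = u - (2 * bf M v u) • v := by
  obtain ⟨w, s, rfl⟩ := h
  refine ⟨w * cs.simple s * w⁻¹, fun u => ?_⟩
  rw [rho_mul, rho_mul, rho_simple, map_sub, map_smul, rho_self_inv, bf_rho_left]

variable (cs)

theorem exists_descent {w : W} (hw : w ≠ 1) :
    ∃ s, cs.length (w * cs.simple s) + 1 = cs.length w ∧ rho cs w (al s) ≤ 0 := by
  obtain ⟨s, hs⟩ := cs.exists_rightDescent_of_ne_one hw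
  exact ⟨s, cs.isRightDescent_iff.1 hs, rho_al_nonpos cs w s hs⟩

theorem eq_one_of_nonneg {w : W} (h : ∀ s, 0 ≤ rho cs w (al s)) : w = 1 := by
  by_contra hw
  obtain ⟨s, -, hs⟩ := exists_descent cs hw
  exact ((isRoot_al cs s).rho w).not_both (h s) hs

theorem faithful {a b : W} (h : ∀ v, rho cs a v = rho cs b v) : a = b := by
  have : b⁻¹ * a = 1 := eq_one_of_nonneg cs fun s => by
    rw [rho_mul, h, rho_inv_self]; exact al_nonneg s
  exact (inv_mul_eq_one.1 this).symm

theorem commute_of_fix {x : W} {s : B} (h : rho cs x (al s) = al s) :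
    Commute x (cs.simple s) := by
  apply faithful cs
  intro v
  rw [rho_mul, rho_mul, rho_simple, rho_simple, map_sub, map_smul, h, ← bf_rho cs x, h]

theorem length_lt_of_nonpos {w : W} {s : B} (h : rho cs w (al s) ≤ 0) :
    cs.length (w * cs.simple s) < cs.length w := by
  rcases lt_or_gt_of_ne (cs.length_mul_simple_ne w s) with h1 | h1
  · exact h1
  · exact (((isRoot_al cs s).rho w).not_both (rho_al_nonneg cs w s h1) h).elim

theorem inversion {w : W} {v : B → ℝ} (h : IsRoot cs v) (h0 : 0 ≤ v) (h1 : rho cs w v ≤ 0) :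
    ∃ u s, cs.length u < cs.length w ∧ v = rho cs u (al s) := by
  induction hn : cs.length w using Nat.strong_induction_on generalizing w v with
  | _ n ih =>
  by_cases hw : w = 1
  · subst hw; exact (h.not_both h0 (by simpa using h1)).elim
  obtain ⟨s, hs, -⟩ := exists_descent cs hw
  by_cases hv : v = al s
  · exact ⟨1, s, by simp; omega, by simp [hv]⟩
  obtain ⟨u, t, hu, hu2⟩ := ih (cs.length (w * cs.simple s)) (by omega) (w := w * cs.simple s)
    (h.rho (cs.simple s)) (h.simple_nonneg h0 hv) (by rwa [← rho_mul, simple_mul_simple_cancel_right])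
    rfl
  refine ⟨cs.simple s * u, t, ?_, ?_⟩
  · have := cs.length_mul_le (cs.simple s) u
    rw [length_simple] at this; omega
  · rw [rho_mul, ← hu2, ← rho_mul]; simp

theorem finite_length_le (n : ℕ) : {w : W | cs.length w ≤ n}.Finite := by
  refine ((List.finite_length_le B n).image cs.wordProd).subset ?_
  intro w hw
  obtain ⟨ω, h1, rfl⟩ := cs.exists_isReduced w
  exact ⟨ω, by rw [Set.mem_ofPred_eq, ← h1.eq]; exact hw, rfl⟩

theorem finite_rho_al (n : ℕ) :
    {v : B → ℝ | ∃ u s, cs.length u ≤ n ∧ v = rho cs u (al s)}.Finite := by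
  refine (((finite_length_le cs n).prod (Set.finite_univ (α := B))).image
    (fun p => rho cs p.1 (al p.2))).subset ?_
  rintro v ⟨u, s, h1, rfl⟩
  exact ⟨(u, s), ⟨h1, trivial⟩, rfl⟩

/-- Depth. -/
noncomputable def dp (v : B → ℝ) : ℕ := sInf {n | ∃ u s, cs.length u = n ∧ v = rho cs u (al s)}

theorem dp_le {v : B → ℝ} {u : W} {s : B} (h : v = rho cs u (al s)) : dp cs v ≤ cs.length u :=
  Nat.sInf_le ⟨u, s, rfl, h⟩

theorem dp_spec {v : B → ℝ} (h : IsRoot cs v) :
    ∃ u s, cs.length u = dp cs v ∧ v = rho cs u (al s) := by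
  obtain ⟨u, s, hu⟩ := h
  have : {n | ∃ u s, cs.length u = n ∧ v = rho cs u (al s)}.Nonempty := ⟨_, u, s, rfl, hu⟩
  exact Nat.sInf_mem this

theorem dp_simple_le {v : B → ℝ} (h : IsRoot cs v) (s : B) :
    dp cs (rho cs (cs.simple s) v) ≤ dp cs v + 1 := by
  obtain ⟨u, t, h1, h2⟩ := dp_spec cs h
  have h3 := dp_le cs (v := rho cs (cs.simple s) v) (u := cs.simple s * u) (s := t)
    (by rw [rho_mul, ← h2])
  have := cs.length_mul_le (cs.simple s) u
  rw [length_simple] at this; omega

theorem dp_simple_lt {v : B → ℝ} (h : IsRoot cs v) (h0 : 0 ≤ v) {s : B} (hs : v ≠ al s)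
    (hb : 0 < bf M (al s) v) : dp cs (rho cs (cs.simple s) v) < dp cs v := by
  obtain ⟨u, t, h1, h2⟩ := dp_spec cs h
  rcases ((isRoot_al cs s).rho u⁻¹).sign with h3 | h3
  · have h4 : rho cs u⁻¹ (al s) ≠ al t := by
      intro hc
      apply hs
      rw [h2, ← hc, rho_self_inv]
    obtain ⟨r, hr, hr2⟩ := ((isRoot_al cs s).rho u⁻¹).exists_pos h3 h4
    have h5 : rho cs u⁻¹ (rho cs (cs.simple s) v) ≤ 0 := by
      apply ((h.rho _).rho _).nonpos_of_coord (t := r)
      rw [rho_simple, map_sub, map_smul]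
      nth_rw 1 [h2]
      rw [rho_inv_self]
      simp only [Pi.sub_apply, Pi.smul_apply, al_ne hr, smul_eq_mul]
      nlinarith
    obtain ⟨u', t', h6, h7⟩ := inversion cs (h.rho _) (h.simple_nonneg h0 hs) h5
    have := dp_le cs h7
    rw [length_inv] at h6
    omega
  · have h4 := length_lt_of_nonpos cs h3
    have h5 : cs.length (u⁻¹ * cs.simple s) = cs.length (cs.simple s * u) := by
      rw [← length_inv]; simp
    have h6 := dp_le cs (v := rho cs (cs.simple s) v) (u := cs.simple s * u) (s := t)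
      (by rw [rho_mul, ← h2])
    rw [length_inv] at h4
    omega

/-- Anti-dominant vectors. -/
def Dom (M : CoxeterMatrix B) (z : B → ℝ) : Prop := ∀ s, bf M z (al s) ≤ 0

theorem Dom.bf_nonpos {z v : B → ℝ} (h : Dom M z) (hv : 0 ≤ v) : bf M z v ≤ 0 := by
  rw [bf_right_sum]
  exact Finset.sum_nonpos fun s _ => mul_nonpos_of_nonneg_of_nonpos (hv s) (h s)

theorem Dom.bf_nonneg {z v : B → ℝ} (h : Dom M z) (hv : v ≤ 0) : 0 ≤ bf M z v := by
  have := h.bf_nonpos (neg_nonneg.2 hv)
  rw [map_neg] at this; linarith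

theorem Dom.le_rho {z : B → ℝ} (h : Dom M z) (w : W) : z ≤ rho cs w z := by
  induction hn : cs.length w using Nat.strong_induction_on generalizing w with
  | _ n ih =>
  by_cases hw : w = 1
  · subst hw; simp
  obtain ⟨s, hs, hs2⟩ := exists_descent cs hw
  have h1 := ih _ (by omega) (w * cs.simple s) rfl
  refine h1.trans ?_
  rw [rho_mul, rho_simple, map_sub, map_smul, sub_le_self_iff]
  apply smul_nonneg_of_nonpos_of_nonpos _ hs2
  rw [bf_symm]; linarith [h s]

/-- Vectors whose orbit meets the anti-dominant part of the positive cone. -/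
def Good (v : B → ℝ) : Prop := ∃ w, 0 ≤ rho cs w v ∧ Dom M (rho cs w v)

variable {cs}

theorem Good.rho {v : B → ℝ} (h : Good cs v) (x : W) : Good cs (rho cs x v) := by
  obtain ⟨w, h1, h2⟩ := h
  refine ⟨w * x⁻¹, ?_⟩
  rw [rho_mul, rho_inv_self]
  exact ⟨h1, h2⟩

theorem Good.nonneg {v : B → ℝ} (h : Good cs v) (x : W) :
    0 ≤ Pool.Agent.Lib.MP_c2c03e_al.rho cs x v := by
  obtain ⟨w, h1, h2⟩ := h
  have := h2.le_rho cs (x * w⁻¹)
  rw [rho_mul, rho_inv_self] at this
  exact h1.trans this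

theorem good_add {a b : B → ℝ} (ha : IsRoot cs a) (hb : IsRoot cs b) (ha0 : 0 ≤ a) (hb0 : 0 ≤ b)
    (hab : bf M a b ≤ -1) : Good cs (a + b) := by
  set S : Set ((B → ℝ) × (B → ℝ)) := {p | (∃ w, p = (rho cs w a, rho cs w b)) ∧ 0 ≤ p.1 ∧
    0 ≤ p.2 ∧ dp cs p.1 + dp cs p.2 ≤ dp cs a + dp cs b} with hS
  have hfin : S.Finite := by
    refine ((finite_rho_al cs (dp cs a + dp cs b)).prod
      (finite_rho_al cs (dp cs a + dp cs b))).subset ?_
    rintro p ⟨⟨w, rfl⟩, -, -, h3⟩
    obtain ⟨u, s, h4, h5⟩ := dp_spec cs (ha.rho w)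
    obtain ⟨u', s', h4', h5'⟩ := dp_spec cs (hb.rho w)
    simp only at h3
    exact ⟨⟨u, s, by omega, h5⟩, ⟨u', s', by omega, h5'⟩⟩
  have hne : S.Nonempty := ⟨(a, b), ⟨1, by simp⟩, ha0, hb0, le_rfl⟩
  obtain ⟨p, ⟨⟨w, rfl⟩, h1, h2, h3⟩, hmin⟩ :=
    Set.exists_min_image S (fun p => ∑ t, (p.1 + p.2) t) hfin hne
  simp only at h1 h2 h3
  refine ⟨w, by rw [map_add]; exact add_nonneg h1 h2, fun s => ?_⟩
  by_contra hc
  push Not at hc
  have hab' : bf M (rho cs w a) (rho cs w b) ≤ -1 := by rwa [bf_rho]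
  rw [map_add, map_add, LinearMap.add_apply] at hc
  set a' := rho cs w a with ha'
  set b' := rho cs w b with hb'
  have hra : IsRoot cs a' := ha.rho w
  have hrb : IsRoot cs b' := hb.rho w
  have n1 : a' ≠ al s := by
    intro h; rw [h, bf_al_self, bf_symm] at hc; rw [h] at hab'; linarith
  have n2 : b' ≠ al s := by
    intro h; rw [h, bf_al_self] at hc; rw [h] at hab'; linarith
  have hd : dp cs (rho cs (cs.simple s) a') + dp cs (rho cs (cs.simple s) b') ≤
      dp cs a' + dp cs b' := by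
    have d1 := dp_simple_le cs hra s
    have d2 := dp_simple_le cs hrb s
    by_cases h : 0 < bf M a' (al s)
    · have := dp_simple_lt cs hra h1 n1 (by rwa [bf_symm]); omega
    · have := dp_simple_lt cs hrb h2 n2 (by rw [bf_symm]; linarith); omega
  have := hmin (rho cs (cs.simple s) a', rho cs (cs.simple s) b')
    ⟨⟨cs.simple s * w, by rw [rho_mul, rho_mul]⟩, hra.simple_nonneg h1 n1,
      hrb.simple_nonneg h2 n2, hd.trans h3⟩
  simp only [rho_simple, Pi.add_apply, Pi.sub_apply, Pi.smul_apply, smul_eq_mul, al_apply,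
    Finset.sum_add_distrib, Finset.sum_sub_distrib, mul_ite, mul_one, mul_zero,
    Finset.sum_ite_eq', Finset.mem_univ, if_true] at this
  rw [bf_symm (al s), bf_symm (al s)] at this
  linarith

theorem good_sub {a b : B → ℝ} (ha : IsRoot cs a) (hb : IsRoot cs b) (hab : 1 ≤ bf M a b) :
    Good cs (a - b) ∨ Good cs (b - a) := by
  obtain ⟨w, s, rfl⟩ := ha
  set b' := rho cs w⁻¹ b with hb'
  have hrb : IsRoot cs b' := hb.rho _
  have hbb : b = rho cs w b' := by simp [hb']
  rw [bf_rho_left, ← hb'] at hab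
  by_cases h : b' = al s
  · left
    rw [hbb, h, sub_self]
    exact ⟨1, by simp, fun s => by simp⟩
  rcases hrb.sign with h1 | h1
  · right
    have := good_add (hrb.rho (cs.simple s)) (isRoot_al cs s) (hrb.simple_nonneg h1 h)
      (al_nonneg s) (by
        rw [bf_rho_left, inv_simple, rho_simple_self, map_neg, bf_symm]; linarith)
    have := this.rho (w * cs.simple s)
    rwa [map_add, ← rho_mul, simple_mul_simple_cancel_right, rho_mul, rho_simple_self, map_neg,
      ← hbb, ← sub_eq_add_neg] at this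
  · left
    have := good_add (isRoot_al cs s) hrb.neg (al_nonneg s) (neg_nonneg.2 h1)
      (by rw [map_neg]; linarith)
    have := this.rho w
    rwa [map_add, map_neg, ← hbb, ← sub_eq_add_neg] at this

end Pool.Agent.Lib.MP_c2c03e_al
end

-- part Pool.Agent.Lib.MP_c2c03e_al.Par
section

/-! Parabolic subgroups as stabilisers. -/

set_option linter.unusedSectionVars false

namespace Pool.Agent.Lib.MP_c2c03e_al

open Real CoxeterSystem

variable {B W : Type*} [Group W] [Fintype B] [DecidableEq B] {M : CoxeterMatrix B}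
  (cs : CoxeterSystem M W)

/-- Stabiliser of a vector. -/
def Stab (z : B → ℝ) : Subgroup W where
  carrier := {w | rho cs w z = z}
  mul_mem' := by
    intro a b ha hb
    simp only [Set.mem_ofPred_eq] at *
    rw [rho_mul, hb, ha]
  one_mem' := by simp
  inv_mem' := by
    intro a ha
    simp only [Set.mem_ofPred_eq] at *
    conv_lhs => rw [← ha]
    rw [rho_inv_self]

theorem mem_Stab {z : B → ℝ} {w : W} : w ∈ Stab cs z ↔ rho cs w z = z := Iff.rfl

theorem conj_mem_Stab {z : B → ℝ} {f : W} (w : W) :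
    f ∈ Stab cs (rho cs w z) ↔ w⁻¹ * f * w ∈ Stab cs z := by
  rw [mem_Stab, mem_Stab, rho_mul, rho_mul]
  constructor
  · intro h; rw [h, rho_inv_self]
  · intro h
    apply rho_injective cs w⁻¹
    rw [h, rho_inv_self]

theorem simple_mem_Stab {z : B → ℝ} {s : B} : cs.simple s ∈ Stab cs z ↔ bf M z (al s) = 0 := by
  rw [mem_Stab, rho_simple, sub_eq_self, bf_symm, smul_eq_zero]
  constructor
  · rintro (h | h)
    · linarith
    · have := congrFun h s; simp at this
  · intro h; left; rw [h, mul_zero]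

/-- Standard parabolic subgroup. -/
def WJ (J : Set B) : Subgroup W := Subgroup.closure (cs.simple '' J)

theorem simple_mem_WJ {J : Set B} {s : B} (h : s ∈ J) : cs.simple s ∈ WJ cs J :=
  Subgroup.subset_closure ⟨s, h, rfl⟩

theorem WJ_le {J : Set B} {G : Subgroup W} (h : ∀ s ∈ J, cs.simple s ∈ G) : WJ cs J ≤ G := by
  rw [WJ, Subgroup.closure_le]
  rintro _ ⟨s, hs, rfl⟩
  exact h s hs

theorem WJ_le_Stab {J : Set B} {z : B → ℝ} (h : ∀ s ∈ J, bf M z (al s) = 0) :
    WJ cs J ≤ Stab cs z :=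
  WJ_le cs fun s hs => (simple_mem_Stab cs).2 (h s hs)

theorem WJ_coord {J : Set B} {w : W} (hw : w ∈ WJ cs J) (v : B → ℝ) {t : B} (ht : t ∉ J) :
    rho cs w v t = v t := by
  induction hw using Subgroup.closure_induction generalizing v with
  | mem x hx =>
    obtain ⟨s, hs, rfl⟩ := hx
    exact rho_simple_coord s v (fun h => ht (h ▸ hs))
  | one => simp
  | mul x y _ _ hx hy => rw [rho_mul, hx, hy]
  | inv x _ hx => rw [← hx (rho cs x⁻¹ v), rho_self_inv]

theorem WJ_eq_one {J : Set B} {w : W} (hw : w ∈ WJ cs J) (h : ∀ s ∈ J, 0 ≤ rho cs w (al s)) :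
    w = 1 := by
  apply eq_one_of_nonneg cs
  intro s
  by_cases hs : s ∈ J
  · exact h s hs
  · apply ((isRoot_al cs s).rho w).nonneg_of_coord (t := s)
    rw [WJ_coord cs hw _ hs]; simp

theorem commute_WJ {J : Set B} {x : W} (h : ∀ s ∈ J, rho cs x (al s) = al s) {w : W}
    (hw : w ∈ WJ cs J) : Commute x w := by
  have : WJ cs J ≤ Subgroup.centralizer {x} := WJ_le cs fun s hs => by
    rw [Subgroup.mem_centralizer_singleton_iff]
    exact (commute_of_fix cs (h s hs)).symm
  have := this hw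
  rw [Subgroup.mem_centralizer_singleton_iff] at this
  exact this.symm

theorem fix_of_supp {J : Set B} {x : W} (h : ∀ s ∈ J, rho cs x (al s) = al s) {v : B → ℝ}
    (hv : ∀ t, t ∉ J → v t = 0) : rho cs x v = v := by
  conv_lhs => rw [← sum_al v]
  conv_rhs => rw [← sum_al v]
  rw [map_sum]
  refine Finset.sum_congr rfl fun s _ => ?_
  by_cases hs : s ∈ J
  · rw [map_smul, h s hs]
  · simp [hv s hs]

theorem mem_WJ_of_dom {z : B → ℝ} (hz : Dom M z) {w : W} (hw : Dom M (rho cs w z)) :
    w ∈ WJ cs {s | bf M z (al s) = 0} := by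
  induction hn : cs.length w using Nat.strong_induction_on generalizing w with
  | _ n ih =>
  by_cases h1 : w = 1
  · subst h1; exact one_mem _
  obtain ⟨s, hs, hs2⟩ := exists_descent cs h1
  have h2 : bf M z (al s) = 0 := by
    apply le_antisymm (hz s)
    rw [← bf_rho cs w]
    exact hw.bf_nonneg hs2
  have h3 : rho cs (w * cs.simple s) z = rho cs w z := by
    rw [rho_mul, (mem_Stab cs).1 ((simple_mem_Stab cs).2 h2)]
  have h4 := ih _ (by omega) (w := w * cs.simple s) (by rwa [h3]) rfl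
  have h5 := mul_mem h4 (simple_mem_WJ cs (J := {s | bf M z (al s) = 0}) h2)
  simpa using h5

theorem exists_min_length (w : W) (G : Subgroup W) :
    ∃ g ∈ G, ∀ s, cs.simple s ∈ G → 0 ≤ rho cs (w * g) (al s) := by
  obtain ⟨g, hg⟩ := Function.argminOn_mem (fun g : W => cs.length (w * g)) (G : Set W)
    ⟨1, one_mem G⟩ |> fun h => (⟨_, h, fun b hb => Function.argminOn_le
      (fun g : W => cs.length (w * g)) (G : Set W) hb⟩ :
      ∃ g, g ∈ (G : Set W) ∧ ∀ b ∈ (G : Set W), cs.length (w * g) ≤ cs.length (w * b))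
  refine ⟨g, hg.1, fun s hs => rho_al_nonneg cs _ s ?_⟩
  have h1 := hg.2 (g * cs.simple s) (mul_mem hg.1 hs)
  rw [← mul_assoc] at h1
  exact lt_of_le_of_ne h1 (cs.length_mul_simple_ne _ s).symm

theorem exists_dom_rel {v : B → ℝ} {w : W} (hw : Dom M (rho cs w v)) (G : Subgroup W) :
    ∃ g ∈ G, ∀ s, cs.simple s ∈ G → bf M (rho cs g v) (al s) ≤ 0 := by
  obtain ⟨g, hg, h⟩ := exists_min_length cs w G
  refine ⟨g⁻¹, inv_mem hg, fun s hs => ?_⟩
  rw [← bf_rho cs (w * g), ← rho_mul, mul_inv_cancel_right]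
  exact hw.bf_nonpos (h s hs)

variable {cs}

theorem good_generic {z₁ z₂ : B → ℝ} (h₁ : Good cs z₁) (h₂ : Good cs z₂) :
    ∃ t : ℝ, 0 < t ∧ Good cs (z₁ + t • z₂) ∧
      ∀ f ∈ Stab cs (z₁ + t • z₂), f ∈ Stab cs z₁ ∧ f ∈ Stab cs z₂ := by
  obtain ⟨w, -, hw⟩ := id h₁
  obtain ⟨w₂, -, hw₂⟩ := h₂.rho w
  obtain ⟨g, hg, hg2⟩ := exists_dom_rel cs hw₂ (Stab cs (rho cs w z₁))
  set y₁ := rho cs w z₁ with hy₁
  set y₂ := rho cs g (rho cs w z₂) with hy₂
  have ev : ∀ᶠ t : ℝ in nhdsWithin 0 (Set.Ioi 0), ∀ s, bf M y₁ (al s) < 0 →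
      bf M y₁ (al s) + t * bf M y₂ (al s) < 0 := by
    rw [Filter.eventually_all]
    intro s
    by_cases hs : bf M y₁ (al s) < 0
    · have hc : ContinuousAt (fun t : ℝ => bf M y₁ (al s) + t * bf M y₂ (al s)) 0 := by fun_prop
      have := hc.eventually_lt (g := fun _ => 0) continuousAt_const (by simpa using hs)
      exact (this.filter_mono nhdsWithin_le_nhds).mono fun t ht _ => ht
    · exact Filter.Eventually.of_forall fun t h => absurd h hs
  obtain ⟨t, ht, ht0⟩ := (ev.and self_mem_nhdsWithin).exists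
  have ht0 : 0 < t := ht0
  have e : rho cs (g * w) (z₁ + t • z₂) = y₁ + t • y₂ := by
    rw [map_add, map_smul, rho_mul, rho_mul, ← hy₁, (mem_Stab cs).1 hg]
  have key : ∀ s, bf M (y₁ + t • y₂) (al s) ≤ 0 ∧
      (bf M (y₁ + t • y₂) (al s) = 0 → bf M y₁ (al s) = 0 ∧ bf M y₂ (al s) = 0) := by
    intro s
    simp only [map_add, map_smul, LinearMap.add_apply, LinearMap.smul_apply, smul_eq_mul]
    rcases (hw s).lt_or_eq with h | h
    · have := ht s h
      exact ⟨this.le, fun h' => absurd h' this.ne⟩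
    · have := hg2 s ((simple_mem_Stab cs).2 h)
      rw [h, zero_add]
      exact ⟨by nlinarith, fun h' => ⟨rfl, (mul_eq_zero.1 h').resolve_left ht0.ne'⟩⟩
  refine ⟨t, ht0, ⟨g * w, ?_, ?_⟩, ?_⟩
  · rw [map_add, map_smul]
    exact add_nonneg (h₁.nonneg _) (smul_nonneg ht0.le (h₂.nonneg _))
  · rw [e]; exact fun s => (key s).1
  · intro f hf
    have hf' : (g * w) * f * (g * w)⁻¹ ∈ Stab cs (y₁ + t • y₂) := by
      rw [← e, conj_mem_Stab]; simpa [mul_assoc] using hf
    have h3 := mem_WJ_of_dom cs (fun s => (key s).1) (w := (g * w) * f * (g * w)⁻¹)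
      (by rw [(mem_Stab cs).1 hf']; exact fun s => (key s).1)
    have h4 := WJ_le_Stab cs (z := y₁) (fun s hs => ((key s).2 hs).1) h3
    have h5 := WJ_le_Stab cs (z := y₂) (fun s hs => ((key s).2 hs).2) h3
    have e1 : y₁ = rho cs (g * w) z₁ := by rw [rho_mul, ← hy₁, (mem_Stab cs).1 hg]
    have e2 : y₂ = rho cs (g * w) z₂ := by rw [rho_mul]
    rw [e1, conj_mem_Stab] at h4
    rw [e2, conj_mem_Stab] at h5
    simp only [mul_assoc, mul_inv_rev, inv_mul_cancel_left, inv_mul_cancel, mul_one] at h4 h5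
    exact ⟨h4, h5⟩

theorem good_finset (T : Finset (B → ℝ)) (hT : ∀ v ∈ T, Good cs v) :
    ∃ z, Good cs z ∧ z ∈ Submodule.span ℝ (T : Set (B → ℝ)) ∧
      (∀ f ∈ Stab cs z, ∀ v ∈ T, f ∈ Stab cs v) ∧
      ∀ v ∈ T, ∀ w t, rho cs w z t = 0 → rho cs w v t = 0 := by
  classical
  induction T using Finset.induction_on with
  | empty => exact ⟨0, ⟨1, by simp, fun s => by simp⟩, by simp, by simp, by simp⟩
  | insert a T ha ih =>
    obtain ⟨z, h1, h2, h3, h4⟩ := ih fun v hv => hT v (Finset.mem_insert_of_mem hv)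
    have hga := hT a (Finset.mem_insert_self a T)
    obtain ⟨t, ht, h5, h6⟩ := good_generic h1 hga
    refine ⟨z + t • a, h5, ?_, ?_, ?_⟩
    · apply add_mem (Submodule.span_mono (by simp) h2)
      exact Submodule.smul_mem _ _ (Submodule.subset_span (by simp))
    · intro f hf v hv
      rcases Finset.mem_insert.1 hv with rfl | hv
      · exact (h6 f hf).2
      · exact h3 f (h6 f hf).1 v hv
    · intro v hv w r hr
      have p1 := h1.nonneg w r
      have p2 := hga.nonneg w r
      simp only [map_add, map_smul, Pi.add_apply, Pi.smul_apply, smul_eq_mul, Pi.zero_apply]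
        at hr p1 p2
      rcases Finset.mem_insert.1 hv with rfl | hv
      · nlinarith
      · exact h4 v hv w r (by nlinarith)

theorem good_set (T : Set (B → ℝ)) (hT : ∀ v ∈ T, Good cs v) :
    ∃ z, Good cs z ∧ z ∈ Submodule.span ℝ T ∧
      (∀ f, f ∈ Stab cs z ↔ ∀ v ∈ T, f ∈ Stab cs v) ∧
      ∀ v ∈ T, ∀ w t, rho cs w z t = 0 → rho cs w v t = 0 := by
  obtain ⟨b, hb, hsp, hli⟩ := exists_linearIndependent ℝ T
  have hfin : b.Finite := hli.setFinite
  obtain ⟨z, h1, h2, h3, h4⟩ := good_finset (cs := cs) hfin.toFinset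
    (fun v hv => hT v (hb (by simpa using hv)))
  rw [hfin.coe_toFinset] at h2
  simp only [Set.Finite.mem_toFinset] at h3 h4
  refine ⟨z, h1, hsp ▸ h2, fun f => ⟨fun hf v hv => ?_, fun hf => ?_⟩, ?_⟩
  · have hv' : v ∈ Submodule.span ℝ b := hsp ▸ Submodule.subset_span hv
    exact LinearMap.eqOn_span (f := rho cs f) (g := LinearMap.id) (fun x hx => h3 f hf x hx) hv'
  · exact LinearMap.eqOn_span (f := rho cs f) (g := LinearMap.id) (fun x hx => hf x (hb hx)) h2
  · intro v hv w t ht
    have hv' : v ∈ Submodule.span ℝ b := hsp ▸ Submodule.subset_span hv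
    exact LinearMap.eqOn_span (f := (LinearMap.proj t).comp (rho cs w)) (g := 0)
      (fun x hx => h4 x hx w t ht) hv'

theorem eq_one_of_fix_perp {z : B → ℝ} (hz : Good cs z) {f : W} (hf : f ∈ Stab cs z)
    (h : ∀ v, IsRoot cs v → bf M z v = 0 → rho cs f v = v) : f = 1 := by
  obtain ⟨w, -, hw⟩ := hz
  have hf' : w * f * w⁻¹ ∈ Stab cs (rho cs w z) := by
    rw [conj_mem_Stab]; simpa [mul_assoc] using hf
  have : w * f * w⁻¹ = 1 := by
    by_contra hc
    obtain ⟨s, -, hs⟩ := exists_descent cs hc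
    have h2 : bf M (rho cs w z) (al s) = 0 := by
      apply le_antisymm (hw s)
      rw [← bf_rho cs (w * f * w⁻¹), (mem_Stab cs).1 hf']
      exact hw.bf_nonneg hs
    rw [bf_rho_left] at h2
    have h3 := h _ ((isRoot_al cs s).rho w⁻¹) h2
    rw [rho_mul, rho_mul, h3, rho_self_inv] at hs
    exact (isRoot_al cs s).not_both (al_nonneg s) hs
  have h2 : f = w⁻¹ * (w * f * w⁻¹) * w := by group
  rw [h2, this]; simp

theorem perp_of_normalizes {z : B → ℝ} {g : W} (hg : ∀ h ∈ Stab cs z, g * h * g⁻¹ ∈ Stab cs z)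
    {v : B → ℝ} (hv : IsRoot cs v) (h0 : bf M z v = 0) : bf M z (rho cs g v) = 0 := by
  obtain ⟨r, hr⟩ := hv.exists_refl
  have h1 : r ∈ Stab cs z := by rw [mem_Stab, hr, bf_symm, h0]; simp
  have h2 := (mem_Stab cs).1 (hg r h1)
  rw [rho_mul, rho_mul, hr, map_sub, map_smul, rho_self_inv, sub_eq_self, smul_eq_zero] at h2
  rcases h2 with h2 | h2
  · rw [← bf_rho_left, bf_symm] at h2; linarith
  · have := (hv.rho g).norm
    rw [h2] at this; simp at this

theorem Dom.coord_eq_zero {z v : B → ℝ} (hz : Dom M z) (hv : 0 ≤ v) (h : bf M z v = 0) {t : B}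
    (ht : bf M z (al t) ≠ 0) : v t = 0 := by
  rw [bf_right_sum, Finset.sum_eq_zero_iff_of_nonpos
    (fun s _ => mul_nonpos_of_nonneg_of_nonpos (hv s) (hz s))] at h
  exact (mul_eq_zero.1 (h t (Finset.mem_univ t))).resolve_right ht

theorem Dom.root_coord_eq_zero {z v : B → ℝ} (hz : Dom M z) (hv : IsRoot cs v) (h : bf M z v = 0)
    {t : B} (ht : bf M z (al t) ≠ 0) : v t = 0 := by
  rcases hv.sign with h1 | h1
  · exact hz.coord_eq_zero h1 h ht
  · have := hz.coord_eq_zero (neg_nonneg.2 h1) (by rw [map_neg, h, neg_zero]) ht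
    simpa using this

theorem split_dom {z : B → ℝ} (hz : Dom M z) {g : W}
    (hg : ∀ h ∈ Stab cs z, g * h * g⁻¹ ∈ Stab cs z)
    (hg' : ∀ h ∈ Stab cs z, g⁻¹ * h * g ∈ Stab cs z) :
    ∃ h ∈ Stab cs z, ∃ x, g ^ Fintype.card (Equiv.Perm B) = h * x ∧
      ∀ v, IsRoot cs v → bf M z v = 0 → rho cs x v = v := by
  obtain ⟨h₀, hh₀, hpos⟩ := exists_min_length cs g (Stab cs z)
  set y := g * h₀ with hy
  have n1 : ∀ h ∈ Stab cs z, y * h * y⁻¹ ∈ Stab cs z := by
    intro h hh
    have := hg _ (mul_mem (mul_mem hh₀ hh) (inv_mem hh₀))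
    simpa [hy, mul_assoc] using this
  have n2 : ∀ h ∈ Stab cs z, y⁻¹ * h * y⁻¹⁻¹ ∈ Stab cs z := by
    intro h hh
    have := mul_mem (mul_mem (inv_mem hh₀) (hg' h hh)) hh₀
    simpa [hy, mul_assoc] using this
  have p1 : ∀ s, bf M z (al s) = 0 → 0 ≤ rho cs y (al s) := fun s hs =>
    hpos s ((simple_mem_Stab cs).2 hs)
  have p2 : ∀ s, bf M z (al s) = 0 → 0 ≤ rho cs y⁻¹ (al s) := by
    intro s hs
    have hr := (isRoot_al cs s).rho y⁻¹
    by_contra hc
    have hneg := hr.nonpos_iff.2 hc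
    have hp := perp_of_normalizes n2 (isRoot_al cs s) hs
    apply (isRoot_al cs s).not_both (al_nonneg s)
    rw [← rho_self_inv cs y (al s), ← sum_al (rho cs y⁻¹ (al s)), map_sum]
    refine Finset.sum_nonpos fun t _ => ?_
    rw [map_smul]
    by_cases ht : bf M z (al t) = 0
    · exact smul_nonpos_of_nonpos_of_nonneg (hneg t) (p1 t ht)
    · rw [hz.root_coord_eq_zero hr hp ht, zero_smul]
  have p3 : ∀ s, bf M z (al s) = 0 → ∃ t, bf M z (al t) = 0 ∧ rho cs y (al s) = al t := by
    intro s hs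
    have hr := (isRoot_al cs s).rho y
    have hp := perp_of_normalizes n1 (isRoot_al cs s) hs
    obtain ⟨t, ht⟩ : ∃ t, 0 < rho cs y (al s) t := by
      by_contra hc
      push Not at hc
      exact hr.not_both (p1 s hs) hc
    have ht2 : bf M z (al t) = 0 := by
      by_contra hc
      exact ht.ne' (hz.root_coord_eq_zero hr hp hc)
    refine ⟨t, ht2, ?_⟩
    have e : rho cs y⁻¹ (al t) = al s := by
      apply ((isRoot_al cs t).rho y⁻¹).eq_al (p2 t ht2)
      intro r hr'
      have e1 : al s = ∑ u, rho cs y (al s) u • rho cs y⁻¹ (al u) := by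
        conv_lhs => rw [← rho_inv_self cs y (al s), ← sum_al (rho cs y (al s)), map_sum]
        simp
      have e2 := congrFun e1 r
      rw [al_ne hr', Finset.sum_apply, eq_comm, Finset.sum_eq_zero_iff_of_nonneg] at e2
      · have := e2 t (Finset.mem_univ t)
        simp only [Pi.smul_apply, smul_eq_mul] at this
        exact (mul_eq_zero.1 this).resolve_left ht.ne'
      · intro u _
        by_cases hu : bf M z (al u) = 0
        · exact mul_nonneg (p1 s hs u) (p2 u hu r)
        · simp [hz.root_coord_eq_zero hr hp hu]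
    rw [← e, rho_self_inv]
  choose! σ hσ1 hσ2 using p3
  let τ : B → B := fun s => if bf M z (al s) = 0 then σ s else s
  have hτ : Function.Injective τ := by
    intro a b hab
    simp only [τ] at hab
    split_ifs at hab with ha hb hb
    · have h1 := hσ2 a ha
      rw [hab, ← hσ2 b hb] at h1
      have h2 := congrFun (rho_injective cs y h1) a
      by_contra hc
      rw [al_self, al_ne hc] at h2
      exact one_ne_zero h2
    · exact absurd (hab ▸ hσ1 a ha) hb
    · exact absurd (hab ▸ hσ1 b hb) ha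
    · exact hab
  let p : Equiv.Perm B := Equiv.ofBijective τ (Finite.injective_iff_bijective.1 hτ)
  have p4 : ∀ n : ℕ, ∀ s, bf M z (al s) = 0 →
      bf M z (al ((p ^ n) s)) = 0 ∧ rho cs (y ^ n) (al s) = al ((p ^ n) s) := by
    intro n s hs
    induction n with
    | zero => simpa using hs
    | succ n ih =>
      have e : (p ^ (n + 1)) s = σ ((p ^ n) s) := by
        rw [pow_succ', Equiv.Perm.mul_apply]
        simp only [p, Equiv.ofBijective_apply, τ]
        exact if_pos ih.1
      rw [e, pow_succ', rho_mul, ih.2]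
      exact ⟨hσ1 _ ih.1, hσ2 _ ih.1⟩
  have p5 : ∀ n : ℕ, g ^ n * (y ^ n)⁻¹ ∈ Stab cs z := by
    intro n
    induction n with
    | zero => simp
    | succ n ih =>
      have e : g ^ (n + 1) * (y ^ (n + 1))⁻¹ =
          g * (g ^ n * (y ^ n)⁻¹) * g⁻¹ * (g * h₀⁻¹ * g⁻¹) := by
        rw [pow_succ' g, pow_succ' y]
        nth_rw 1 [hy]
        group
      rw [e]
      exact mul_mem (hg _ ih) (hg _ (inv_mem hh₀))
  refine ⟨_, p5 (Fintype.card (Equiv.Perm B)), y ^ Fintype.card (Equiv.Perm B), by simp, ?_⟩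
  intro v hv h0
  apply fix_of_supp cs (J := {s | bf M z (al s) = 0})
  · intro s hs
    rw [(p4 _ s hs).2, pow_card_eq_one]; rfl
  · exact fun t ht => hz.root_coord_eq_zero hv h0 ht

theorem split_good {z : B → ℝ} (hz : Good cs z) {g : W}
    (hg : ∀ h ∈ Stab cs z, g * h * g⁻¹ ∈ Stab cs z)
    (hg' : ∀ h ∈ Stab cs z, g⁻¹ * h * g ∈ Stab cs z) :
    ∃ h ∈ Stab cs z, ∃ x, g ^ Fintype.card (Equiv.Perm B) = h * x ∧
      (∀ v, IsRoot cs v → bf M z v = 0 → rho cs x v = v) ∧ ∀ f ∈ Stab cs z, Commute x f := by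
  obtain ⟨w, -, hw⟩ := id hz
  obtain ⟨h, hh, x, e, hx⟩ := split_dom (cs := cs) hw (g := w * g * w⁻¹) (by
    intro h hh
    rw [conj_mem_Stab] at hh ⊢
    simpa [mul_assoc] using hg _ hh) (by
    intro h hh
    rw [conj_mem_Stab] at hh ⊢
    simpa [mul_assoc] using hg' _ hh)
  rw [conj_mem_Stab] at hh
  have e' : g ^ Fintype.card (Equiv.Perm B) = w⁻¹ * h * w * (w⁻¹ * x * w) := by
    rw [conj_pow] at e
    calc _ = w⁻¹ * (w * g ^ Fintype.card (Equiv.Perm B) * w⁻¹) * w := by group
      _ = _ := by rw [e]; group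
  have hx' : ∀ v, IsRoot cs v → bf M z v = 0 → rho cs (w⁻¹ * x * w) v = v := by
    intro v hv h0
    rw [rho_mul, rho_mul, hx _ (hv.rho w) (by rwa [bf_rho]), rho_inv_self]
  refine ⟨_, hh, _, e', hx', fun f hf => ?_⟩
  have pw : ∀ n : ℕ, ∀ h ∈ Stab cs z, g ^ n * h * (g ^ n)⁻¹ ∈ Stab cs z := by
    intro n
    induction n with
    | zero => simp
    | succ n ih =>
      intro h hh
      simpa [pow_succ', mul_assoc] using hg _ (ih h hh)
  set x' := w⁻¹ * x * w
  set h' := w⁻¹ * h * w
  have hc : x' * f * x'⁻¹ * f⁻¹ = 1 := by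
    apply eq_one_of_fix_perp hz
    · refine mul_mem ?_ (inv_mem hf)
      have : x' = h'⁻¹ * g ^ Fintype.card (Equiv.Perm B) := by rw [e']; group
      rw [this]
      simpa [mul_assoc] using mul_mem (mul_mem (inv_mem hh) (pw _ f hf)) hh
    · intro v hv h0
      have h1 : bf M z (rho cs f⁻¹ v) = 0 := by
        rw [← bf_rho_left, (mem_Stab cs).1 hf, h0]
      have h2 : rho cs x'⁻¹ (rho cs f⁻¹ v) = rho cs f⁻¹ v := by
        conv_lhs => rw [← hx' _ (hv.rho f⁻¹) h1]
        rw [rho_inv_self]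
      rw [rho_mul, rho_mul, rho_mul, h2, rho_self_inv, hx' v hv h0]
  exact commutatorElement_eq_one_iff_commute.1 hc

theorem mem_Stab_of_span {z : B → ℝ} (hz : Good cs z) {u : W}
    (hu : rho cs u z ∈ Submodule.span ℝ {v | IsRoot cs v ∧ bf M z v = 0}) : u ∈ Stab cs z := by
  obtain ⟨w, -, hw⟩ := id hz
  set z₀ := rho cs w z with hz₀
  set y := rho cs w (rho cs u z) with hy
  have hsupp : ∀ t, bf M z₀ (al t) ≠ 0 → y t = 0 := by
    intro t ht
    exact LinearMap.eqOn_span (f := (LinearMap.proj t).comp (rho cs w)) (g := 0)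
      (fun x hx => hw.root_coord_eq_zero (hx.1.rho w) ((bf_rho cs w z x).trans hx.2) ht) hu
  obtain ⟨g, hg, hg2⟩ := exists_dom_rel cs (v := y) (w := w * u⁻¹ * w⁻¹)
    (by rw [hy, ← rho_mul, ← rho_mul]; simpa [mul_assoc] using hw)
    (WJ cs {s | bf M z₀ (al s) = 0})
  have hd : Dom M (rho cs g y) := by
    intro s
    by_cases hs : bf M z₀ (al s) = 0
    · exact hg2 s (simple_mem_WJ cs hs)
    · rw [bf_symm, bf_right_sum]
      refine Finset.sum_nonpos fun t _ => ?_
      by_cases ht : t = s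
      · subst ht
        rw [WJ_coord cs hg _ hs, hsupp t hs, zero_mul]
      · apply mul_nonpos_of_nonneg_of_nonpos
        · rw [hy, ← rho_mul, ← rho_mul]; exact hz.nonneg _ t
        · rw [bf_al_al]; exact cm_nonpos (Ne.symm ht)
  have h3 := mem_WJ_of_dom cs hw (w := g * (w * u * w⁻¹))
    (by rw [rho_mul, rho_mul, rho_mul, rho_inv_self]; exact hd)
  have h4 := WJ_le_Stab cs (z := z₀) (fun s hs => hs) (mul_mem (inv_mem hg) h3)
  rw [hz₀, conj_mem_Stab] at h4
  simpa [mul_assoc] using h4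

end Pool.Agent.Lib.MP_c2c03e_al
end
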