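import Pool.Agent.Lib.MP_c2c03e_al.Defs

namespace Pool.Agent.Lib.MP_c2c03e_al

open Filter Topology

variable {B W : Type*} [Group W] {M : CoxeterMatrix B} (cs : CoxeterSystem M W)

theorem rl_le_of_list {w : W} (l : List W) (h : ∀ r ∈ l, cs.IsReflection r) (hw : l.prod = w) :
    rl cs w ≤ l.length :=
  Nat.sInf_le ⟨l, rfl, h, hw⟩

theorem exists_list_length (w : W) :
    ∃ l : List W, l.length = cs.length w ∧ (∀ r ∈ l, cs.IsReflection r) ∧ l.prod = w := by
  obtain ⟨ω, hω, rfl⟩ := cs.exists_isReduced w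
  refine ⟨ω.map cs.simple, by rw [hω.eq]; simp, ?_, rfl⟩
  intro r hr
  obtain ⟨i, -, rfl⟩ := List.mem_map.1 hr
  exact cs.isReflection_simple i

theorem exists_list_rl (w : W) :
    ∃ l : List W, l.length = rl cs w ∧ (∀ r ∈ l, cs.IsReflection r) ∧ l.prod = w := by
  have hne : {k : ℕ | ∃ l : List W, l.length = k ∧ (∀ r ∈ l, cs.IsReflection r) ∧
      l.prod = w}.Nonempty := ⟨_, exists_list_length cs w⟩
  exact Nat.sInf_mem hne

theorem rl_le_length (w : W) : rl cs w ≤ cs.length w := by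
  obtain ⟨l, h1, h2, h3⟩ := exists_list_length cs w
  exact h1 ▸ rl_le_of_list cs l h2 h3

theorem rl_mul_le (a b : W) : rl cs (a * b) ≤ rl cs a + rl cs b := by
  obtain ⟨l, h1, h2, h3⟩ := exists_list_rl cs a
  obtain ⟨l', h1', h2', h3'⟩ := exists_list_rl cs b
  have := rl_le_of_list cs (w := a * b) (l ++ l') (by
    intro r hr
    rcases List.mem_append.1 hr with h | h
    · exact h2 r h
    · exact h2' r h) (by simp [h3, h3'])
  simpa [h1, h1'] using this

theorem rl_one : rl cs 1 = 0 := by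
  have := rl_le_length cs 1
  simpa using this

theorem rl_conj_le (u w : W) : rl cs (u * w * u⁻¹) ≤ rl cs w := by
  obtain ⟨l, h1, h2, h3⟩ := exists_list_rl cs w
  have := rl_le_of_list cs (w := u * w * u⁻¹) (l.map (MulAut.conj u)) (by
    intro r hr
    obtain ⟨i, hi, rfl⟩ := List.mem_map.1 hr
    exact (h2 i hi).conj u) (by rw [← map_list_prod, h3]; rfl)
  simpa [h1] using this

theorem rl_conj (u w : W) : rl cs (u * w * u⁻¹) = rl cs w := by
  apply le_antisymm (rl_conj_le cs u w)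
  have := rl_conj_le cs u⁻¹ (u * w * u⁻¹)
  simpa [mul_assoc] using this

theorem rl_inv_le (w : W) : rl cs w⁻¹ ≤ rl cs w := by
  obtain ⟨l, h1, h2, h3⟩ := exists_list_rl cs w
  have := rl_le_of_list cs (w := w⁻¹) (l.map (fun x => x⁻¹)).reverse (by
    intro r hr
    obtain ⟨i, hi, rfl⟩ := List.mem_map.1 (List.mem_reverse.1 hr)
    exact (h2 i hi).isReflection_inv) (by rw [← List.prod_inv_reverse, h3])
  simpa [h1] using this

theorem rl_inv (w : W) : rl cs w⁻¹ = rl cs w := by
  apply le_antisymm (rl_inv_le cs w)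
  simpa using rl_inv_le cs w⁻¹

theorem subadd (w : W) : Subadditive (fun n : ℕ => (rl cs (w ^ n) : ℝ)) := by
  intro m n
  simp only [pow_add]
  exact_mod_cast rl_mul_le cs _ _

/-- Stable reflection length. -/
noncomputable def srl (w : W) : ℝ := (subadd cs w).lim

theorem tendsto_srl (w : W) :
    Tendsto (fun n : ℕ => (rl cs (w ^ n) : ℝ) / n) atTop (𝓝 (srl cs w)) := by
  apply (subadd cs w).tendsto_lim
  refine ⟨0, ?_⟩
  rintro _ ⟨n, rfl⟩
  positivity

theorem srl_nonneg (w : W) : 0 ≤ srl cs w :=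
  ge_of_tendsto' (tendsto_srl cs w) (fun n => by positivity)

theorem srl_conj (u w : W) : srl cs (u * w * u⁻¹) = srl cs w := by
  have h := tendsto_srl cs (u * w * u⁻¹)
  simp only [conj_pow, rl_conj] at h
  exact tendsto_nhds_unique h (tendsto_srl cs w)

theorem srl_inv (w : W) : srl cs w⁻¹ = srl cs w := by
  have h := tendsto_srl cs w⁻¹
  simp only [inv_pow, rl_inv] at h
  exact tendsto_nhds_unique h (tendsto_srl cs w)

theorem srl_mul_le {a b : W} (h : Commute a b) : srl cs (a * b) ≤ srl cs a + srl cs b := by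
  refine le_of_tendsto_of_tendsto' (tendsto_srl cs (a * b))
    ((tendsto_srl cs a).add (tendsto_srl cs b)) (fun n => ?_)
  rw [h.mul_pow, ← add_div]
  gcongr
  exact_mod_cast rl_mul_le cs _ _

theorem srl_pow (w : W) {k : ℕ} (hk : 0 < k) : srl cs (w ^ k) = k * srl cs w := by
  have h1 : Tendsto (fun n : ℕ => k * n) atTop atTop :=
    tendsto_id.const_mul_atTop' hk
  have h2 := ((tendsto_srl cs w).comp h1).const_mul (k : ℝ)
  refine tendsto_nhds_unique (tendsto_srl cs (w ^ k)) (h2.congr (fun n => ?_))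
  have : (k : ℝ) ≠ 0 := by positivity
  simp only [Function.comp, ← pow_mul]
  push_cast
  by_cases hn : (n : ℝ) = 0
  · simp [hn]
  · field_simp

theorem srl_eq_zero_of_bdd {w : W} {C : ℕ} (h : ∀ n, rl cs (w ^ n) ≤ C) : srl cs w = 0 := by
  apply le_antisymm _ (srl_nonneg cs w)
  refine le_of_tendsto_of_tendsto' (tendsto_srl cs w)
    (tendsto_const_div_atTop_nhds_zero_nat (C : ℝ)) (fun n => ?_)
  gcongr
  exact_mod_cast h n

theorem srl_one : srl cs 1 = 0 :=
  srl_eq_zero_of_bdd cs (C := 0) (fun n => by simp [rl_one])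

theorem le_srl_of_lin {w : W} {c C : ℝ} (h : ∀ n : ℕ, c * n - C ≤ rl cs (w ^ n)) :
    c ≤ srl cs w := by
  have h1 : Tendsto (fun n : ℕ => c - C / n) atTop (𝓝 (c - 0)) :=
    tendsto_const_nhds.sub (tendsto_const_div_atTop_nhds_zero_nat C)
  rw [sub_zero] at h1
  refine le_of_tendsto_of_tendsto h1 (tendsto_srl cs w) ?_
  filter_upwards [eventually_gt_atTop 0] with n hn
  have : (0 : ℝ) < n := by exact_mod_cast hn
  rw [le_div_iff₀ this]
  have h2 := h n
  have : (c - C / n) * n = c * n - C := by field_simp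
  linarith

/-- If `t` commutes with `g` and has zero stable length then it can be dropped. -/
theorem srl_mul_of_zero {t g : W} (h : Commute t g) (ht : srl cs t = 0) :
    srl cs (t * g) = srl cs g := by
  apply le_antisymm
  · simpa [ht] using srl_mul_le cs h
  · have h2 : Commute t⁻¹ (t * g) := ((Commute.refl t).mul_right h).inv_left
    have := srl_mul_le cs h2
    simpa [srl_inv, ht] using this

theorem srl_comm_conj {a f : W} (h : Commute a (f * a * f⁻¹)) :
    srl cs (a * (f * a * f⁻¹)⁻¹) = 0 := by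
  apply srl_eq_zero_of_bdd cs (C := rl cs f + rl cs f)
  intro n
  rw [h.inv_right.mul_pow, inv_pow, conj_pow]
  have : a ^ n * (f * a ^ n * f⁻¹)⁻¹ = (a ^ n * f * (a ^ n)⁻¹) * f⁻¹ := by group
  rw [this]
  refine (rl_mul_le cs _ _).trans ?_
  rw [rl_conj, rl_inv]

end Pool.Agent.Lib.MP_c2c03e_al
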