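import Pool.Agent.Lib.MP_c2c03e_al.Par
import Pool.Agent.Lib.MP_c2c03e_al.Srl

-- part Pool.Agent.Lib.MP_c2c03e_al.Cong
section

/-! A finite index normal subgroup whose elements never make walls cross. -/

set_option linter.unusedSectionVars false

namespace Pool.Agent.Lib.MP_c2c03e_al

open Real CoxeterSystem

variable {B W : Type*} [Group W] [Fintype B] [DecidableEq B] {M : CoxeterMatrix B}
  {cs : CoxeterSystem M W}

/-- The dihedral sequence of roots. -/
def sq (x : ℝ) (a b : B → ℝ) : ℕ → B → ℝ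
  | 0 => a
  | 1 => b
  | n + 2 => x • sq x a b (n + 1) - sq x a b n

theorem sq_root {a b : B → ℝ} (ha : IsRoot cs a) (hb : IsRoot cs b) (n : ℕ) :
    IsRoot cs (sq (2 * bf M a b) a b n) ∧ IsRoot cs (sq (2 * bf M a b) a b (n + 1)) ∧
      bf M (sq (2 * bf M a b) a b n) (sq (2 * bf M a b) a b (n + 1)) = bf M a b := by
  induction n with
  | zero => exact ⟨ha, hb, rfl⟩
  | succ n ih =>
    obtain ⟨h1, h2, h3⟩ := ih
    refine ⟨h2, ?_, ?_⟩
    · obtain ⟨r, hr⟩ := h2.exists_refl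
      have := (h1.rho r).neg
      rw [hr, bf_symm (sq _ a b (n + 1)), h3] at this
      rw [sq]; simpa using this
    · rw [sq, map_sub, map_smul, h2.norm, bf_symm (sq _ a b (n + 1)), h3]; simp; ring

theorem sq_mem {x : ℝ} {a b : B → ℝ} {P : Submodule ℝ (B → ℝ)} (ha : a ∈ P) (hb : b ∈ P) (n : ℕ) :
    sq x a b n ∈ P := by
  induction n using Nat.twoStepInduction with
  | zero => exact ha
  | one => exact hb
  | more n h1 h2 => exact sub_mem (P.smul_mem _ h2) h1

theorem one_le_ht {v : B → ℝ} (h : IsRoot cs v) (h0 : 0 ≤ v) : 1 ≤ ∑ t, v t := by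
  have h1 := h.norm
  rw [bf_apply] at h1
  have h2 : ∑ s, ∑ t, v s * cm M s t * v t ≤ (∑ t, v t) * ∑ t, v t := by
    rw [Finset.sum_mul_sum]
    refine Finset.sum_le_sum fun s _ => Finset.sum_le_sum fun t _ => ?_
    have : cm M s t ≤ 1 := by rw [cm]; linarith [neg_one_le_cos (π / M s t)]
    have h3 := mul_nonneg (h0 s) (h0 t)
    nlinarith
  have h3 : 0 ≤ ∑ t, v t := Finset.sum_nonneg fun t _ => h0 t
  nlinarith

theorem not_concave {h : ℕ → ℝ} {x : ℝ} (hx : x < 2) (h1 : ∀ n, 1 ≤ h n)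
    (hr : ∀ n, h (n + 2) = x * h (n + 1) - h n) : False := by
  have d1 : ∀ n : ℕ, h (n + 1) - h n ≤ h 1 - h 0 - n * (2 - x) := by
    intro n
    induction n with
    | zero => simp
    | succ n ih => rw [hr]; push_cast; nlinarith [h1 (n + 1)]
  obtain ⟨N, hN⟩ := exists_nat_ge ((h 1 - h 0 + 1) / (2 - x))
  rw [div_le_iff₀ (by linarith)] at hN
  have d2 : ∀ m : ℕ, h (N + m) ≤ h N - m := by
    intro m
    induction m with
    | zero => simp
    | succ m ih =>
      have := d1 (N + m)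
      rw [← add_assoc]; push_cast at this ⊢
      have : (0 : ℝ) ≤ m * (2 - x) := mul_nonneg (Nat.cast_nonneg m) (by linarith)
      nlinarith
  obtain ⟨m, hm⟩ := exists_nat_ge (h N)
  linarith [d2 m, h1 (N + m)]

theorem exists_sign_change {a b : B → ℝ} (ha : IsRoot cs a) (hb : IsRoot cs b)
    (hab : bf M a b < 1) : ∃ n, 2 ≤ |∑ t, (sq (2 * bf M a b) a b n - sq (2 * bf M a b) a b (n + 1)) t| := by
  by_contra hc
  push Not at hc
  set v := sq (2 * bf M a b) a b with hv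
  have hrt : ∀ n, IsRoot cs (v n) := fun n => (sq_root ha hb n).1
  have step : ∀ n, (0 ≤ v n ↔ 0 ≤ v (n + 1)) := by
    intro n
    have := abs_lt.1 (hc n)
    simp only [Pi.sub_apply, Finset.sum_sub_distrib] at this
    constructor
    · intro h
      by_contra h'
      have e1 := one_le_ht (hrt n) h
      have e2 := one_le_ht (hrt (n + 1)).neg (neg_nonneg.2 ((hrt _).nonpos_iff.2 h'))
      simp only [Pi.neg_apply, Finset.sum_neg_distrib] at e2
      linarith
    · intro h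
      by_contra h'
      have e1 := one_le_ht (hrt (n + 1)) h
      have e2 := one_le_ht (hrt n).neg (neg_nonneg.2 ((hrt _).nonpos_iff.2 h'))
      simp only [Pi.neg_apply, Finset.sum_neg_distrib] at e2
      linarith
  have all : ∀ n, (0 ≤ v 0 ↔ 0 ≤ v n) := by
    intro n
    induction n with
    | zero => rfl
    | succ n ih => exact ih.trans (step n)
  have rec1 : ∀ n, ∑ t, v (n + 2) t = 2 * bf M a b * ∑ t, v (n + 1) t - ∑ t, v n t := by
    intro n
    rw [hv, sq]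
    simp [Finset.sum_sub_distrib, Finset.mul_sum]
  by_cases h0 : 0 ≤ v 0
  · exact not_concave (h := fun n => ∑ t, v n t) (x := 2 * bf M a b) (by linarith)
      (fun n => one_le_ht (hrt n) ((all n).1 h0)) rec1
  · refine not_concave (h := fun n => ∑ t, (- v n) t) (x := 2 * bf M a b) (by linarith)
      (fun n => one_le_ht (hrt n).neg
        (neg_nonneg.2 ((hrt _).nonpos_iff.2 fun h => h0 ((all n).2 h)))) fun n => ?_
    simp only [Pi.neg_apply, Finset.sum_neg_distrib]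
    rw [rec1]; ring

theorem bf_le_norm (u : B → ℝ) : bf M u u ≤ (Fintype.card B : ℝ) ^ 2 * ‖u‖ ^ 2 := by
  rw [bf_apply]
  calc ∑ s, ∑ t, u s * cm M s t * u t ≤ ∑ _s : B, ∑ _t : B, ‖u‖ ^ 2 := by
        refine Finset.sum_le_sum fun s _ => Finset.sum_le_sum fun t _ => ?_
        refine (le_abs_self _).trans ?_
        rw [abs_mul, abs_mul]
        have h1 : |u s| ≤ ‖u‖ := norm_le_pi_norm u s
        have h2 : |u t| ≤ ‖u‖ := norm_le_pi_norm u t
        have h3 : |cm M s t| ≤ 1 := by rw [cm, abs_neg]; exact abs_cos_le_one _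
        calc |u s| * |cm M s t| * |u t| ≤ ‖u‖ * 1 * ‖u‖ := by gcongr
          _ = _ := by ring
    _ = _ := by simp; ring

theorem abs_ht_le (u : B → ℝ) : |∑ t, u t| ≤ Fintype.card B * ‖u‖ := by
  refine (Finset.abs_sum_le_sum_abs _ _).trans ?_
  calc ∑ t, |u t| ≤ ∑ _t : B, ‖u‖ := Finset.sum_le_sum fun t _ => norm_le_pi_norm u t
    _ = _ := by simp

theorem finite_plane {a b : B → ℝ} (ha : IsRoot cs a) (hb : IsRoot cs b)
    (hab : |bf M a b| < 1) :
    {v | IsRoot cs v ∧ v ∈ Submodule.span ℝ ({a, b} : Set (B → ℝ))}.Finite := by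
  obtain ⟨K, hK0, hK⟩ : ∃ K : ℝ, 0 < K ∧ ∀ u ∈ Submodule.span ℝ ({a, b} : Set (B → ℝ)),
      ‖u‖ ^ 2 ≤ K * bf M u u := by
    refine ⟨(‖a‖ ^ 2 + ‖b‖ ^ 2 + 1) / (1 - |bf M a b|), div_pos (by positivity) (by linarith), ?_⟩
    intro u hu
    obtain ⟨p, q, rfl⟩ := Submodule.mem_span_pair.1 hu
    have e : bf M (p • a + q • b) (p • a + q • b) = p ^ 2 + q ^ 2 + 2 * p * q * bf M a b := by
      simp only [map_add, map_smul, LinearMap.add_apply, LinearMap.smul_apply, smul_eq_mul,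
        ha.norm, hb.norm, bf_symm b a]
      ring
    have h1 : (1 - |bf M a b|) * (p ^ 2 + q ^ 2) ≤ bf M (p • a + q • b) (p • a + q • b) := by
      rw [e]
      rcases abs_cases (bf M a b) with ⟨h, h'⟩ | ⟨h, h'⟩ <;> rw [h]
      · nlinarith [sq_nonneg (p + q)]
      · nlinarith [sq_nonneg (p - q)]
    have h2 : ‖p • a + q • b‖ ≤ |p| * ‖a‖ + |q| * ‖b‖ := by
      refine (norm_add_le _ _).trans ?_
      rw [norm_smul, norm_smul]; rfl
    have h3 : ‖p • a + q • b‖ ^ 2 ≤ (p ^ 2 + q ^ 2) * (‖a‖ ^ 2 + ‖b‖ ^ 2 + 1) := by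
      calc _ ≤ (|p| * ‖a‖ + |q| * ‖b‖) ^ 2 := by gcongr
        _ ≤ _ := by
          rw [← sq_abs p, ← sq_abs q]
          nlinarith [sq_nonneg (|p| * ‖b‖ - |q| * ‖a‖), sq_nonneg |p|, sq_nonneg |q|]
    rw [div_mul_eq_mul_div, le_div_iff₀ (by linarith)]
    have h4 : 0 ≤ ‖a‖ ^ 2 + ‖b‖ ^ 2 + 1 := by positivity
    calc _ ≤ (p ^ 2 + q ^ 2) * (‖a‖ ^ 2 + ‖b‖ ^ 2 + 1) * (1 - |bf M a b|) := by
          gcongr
      _ = (‖a‖ ^ 2 + ‖b‖ ^ 2 + 1) * ((1 - |bf M a b|) * (p ^ 2 + q ^ 2)) := by ring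
      _ ≤ _ := by gcongr
  set S := {v | IsRoot cs v ∧ v ∈ Submodule.span ℝ ({a, b} : Set (B → ℝ))} with hS
  set d : ℝ := (Fintype.card B : ℝ) with hd
  have sep : ∀ u ∈ S, ∀ v ∈ S, u ≠ v → 4 ≤ d ^ 4 * K * ‖u - v‖ ^ 2 := by
    intro u hu v hv huv
    have e : ∀ {x y : B → ℝ}, IsRoot cs x → IsRoot cs y →
        bf M (x - y) (x - y) = 2 - 2 * bf M x y := by
      intro x y hx hy
      simp only [map_sub, LinearMap.sub_apply, hx.norm, hy.norm, bf_symm y x]; ring
    have h1 := hK _ (sub_mem hu.2 hv.2)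
    have h2 : 0 < ‖u - v‖ := norm_pos_iff.2 (sub_ne_zero.2 huv)
    have h3 : bf M u v < 1 := by
      rw [e hu.1 hv.1] at h1
      have : 0 < K * (2 - 2 * bf M u v) := lt_of_lt_of_le (by positivity) h1
      have := (mul_pos_iff_of_pos_left hK0).1 this
      linarith
    obtain ⟨n, hn⟩ := exists_sign_change hu.1 hv.1 h3
    obtain ⟨r1, r2, r3⟩ := sq_root hu.1 hv.1 n
    have h4 := hK _ (sub_mem (sq_mem (x := 2 * bf M u v) hu.2 hv.2 n)
      (sq_mem (x := 2 * bf M u v) hu.2 hv.2 (n + 1)))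
    rw [e r1 r2, r3, ← e hu.1 hv.1] at h4
    have h5 := hn.trans (abs_ht_le _)
    have h6 := bf_le_norm (M := M) (u - v)
    rw [← hd] at h5 h6
    set y := ‖sq (2 * bf M u v) u v n - sq (2 * bf M u v) u v (n + 1)‖
    calc (4 : ℝ) = 2 ^ 2 := by norm_num
      _ ≤ (d * y) ^ 2 := by gcongr
      _ = d ^ 2 * y ^ 2 := by ring
      _ ≤ d ^ 2 * (K * (d ^ 2 * ‖u - v‖ ^ 2)) := by
        gcongr
        exact h4.trans (by gcongr)
      _ = _ := by ring
  have hb : Bornology.IsBounded S := by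
    rw [isBounded_iff_forall_norm_le]
    refine ⟨K + 1, fun u hu => ?_⟩
    have := hK u hu.2
    rw [hu.1.norm] at this
    nlinarith [norm_nonneg u]
  obtain ⟨t, ht, hcov⟩ := Metric.totallyBounded_iff.1 hb.isCompact_closure.totallyBounded
    (1 / (d ^ 4 * K + 1)) (by positivity)
  refine (ht.biUnion (t := fun y => S ∩ Metric.ball y (1 / (d ^ 4 * K + 1))) ?_).subset ?_
  · intro y _
    apply Set.Subsingleton.finite
    intro u hu v hv
    by_contra huv
    have h1 := sep u hu.1 v hv.1 huv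
    have h2 : ‖u - v‖ < 2 * (1 / (d ^ 4 * K + 1)) := by
      have := dist_triangle_right u v y
      have h3 := Metric.mem_ball.1 hu.2
      have h4 := Metric.mem_ball.1 hv.2
      rw [← dist_eq_norm]; linarith
    have h5 : 0 ≤ d ^ 4 * K := by positivity
    set A := d ^ 4 * K
    rw [mul_one_div, lt_div_iff₀ (by positivity)] at h2
    have h6 : (‖u - v‖ * (A + 1)) ^ 2 < 2 ^ 2 := by gcongr
    nlinarith [sq_nonneg ‖u - v‖, mul_nonneg (mul_nonneg h5 h5) (sq_nonneg ‖u - v‖),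
      mul_nonneg h5 (sq_nonneg ‖u - v‖)]
  · intro u hu
    have := hcov (subset_closure hu)
    simp only [Set.mem_iUnion] at this ⊢
    obtain ⟨y, hy, hy2⟩ := this
    exact ⟨y, hy, hu, hy2⟩

theorem minkowski {A : Type*} [CommRing A] [Module.Finite ℤ A] [Module.Free ℤ A] {μ : A}
    {y : ℕ → A} (hfin : (Set.range y).Finite)
    (hr : ∀ j, y (j + 2) = (2 + 5 * μ) * y (j + 1) - y j) :
    ∀ᶠ k in Filter.atTop, μ ^ k * y k = 0 := by
  let b := Module.Free.chooseBasis ℤ A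
  have key : ∀ i, ∀ᶠ k in Filter.atTop, b.repr (μ ^ k * y k) i = 0 := by
    intro i
    obtain ⟨C, hC⟩ := (hfin.image fun a => |b.repr a i|).bddAbove
    have hC' : ∀ j, |b.repr (y j) i| ≤ C := fun j => hC ⟨_, ⟨j, rfl⟩, rfl⟩
    have h1 : ∀ k j, |5 ^ k * b.repr (μ ^ k * y (j + k)) i| ≤ 4 ^ k * C := by
      intro k
      induction k with
      | zero => simpa using hC'
      | succ k ih =>
        intro j
        have e : (5 : ℤ) • (μ ^ (k + 1) * y (j + (k + 1))) =
            μ ^ k * y (j + 2 + k) + μ ^ k * y (j + k) - (2 : ℤ) • (μ ^ k * y (j + 1 + k)) := by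
          rw [show j + 2 + k = (j + k) + 2 by ring, hr, show j + 1 + k = j + k + 1 by ring,
            show j + (k + 1) = j + k + 1 by ring]
          simp only [zsmul_eq_mul]; push_cast; ring
        have e2 := congrArg (fun a => b.repr a i) e
        simp only [map_smul, map_add, map_sub, Finsupp.coe_smul, Finsupp.coe_add, Finsupp.coe_sub,
          Pi.smul_apply, Pi.add_apply, Pi.sub_apply, smul_eq_mul] at e2
        have i1 := abs_le.1 (ih (j + 2))
        have i2 := abs_le.1 (ih j)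
        have i3 := abs_le.1 (ih (j + 1))
        rw [pow_succ, mul_assoc, e2, pow_succ, abs_le]
        constructor <;> nlinarith
    have h2 : Filter.Tendsto (fun k : ℕ => (4 / 5 : ℝ) ^ k * C) Filter.atTop (nhds (0 * C)) :=
      (tendsto_pow_atTop_nhds_zero_of_lt_one (by norm_num) (by norm_num)).mul_const _
    rw [zero_mul] at h2
    filter_upwards [h2.eventually (gt_mem_nhds one_pos)] with k hk
    have h3 := h1 k 0
    rw [zero_add, abs_mul, abs_of_pos (by positivity)] at h3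
    by_contra hne
    have h4 : 1 ≤ |b.repr (μ ^ k * y k) i| := Int.one_le_abs hne
    have h5 : (5 : ℤ) ^ k ≤ 4 ^ k * C := by
      have : (0 : ℤ) < 5 ^ k := by positivity
      nlinarith
    have h6 : (5 : ℝ) ^ k ≤ 4 ^ k * C := by exact_mod_cast h5
    rw [div_pow, div_mul_eq_mul_div, div_lt_one (by positivity)] at hk
    linarith
  filter_upwards [Filter.eventually_all.2 key] with k hk
  exact b.ext_elem fun i => by simpa using hk i

/-- The coefficient ring. -/
noncomputable def Rg (M : CoxeterMatrix B) : Subalgebra ℤ ℝ :=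
  Algebra.adjoin ℤ (Set.range fun p : B × B => 2 * cm M p.1 p.2)

theorem cm_mem (s t : B) : 2 * cm M s t ∈ Rg M := Algebra.subset_adjoin ⟨(s, t), rfl⟩

instance finite_Rg : Module.Finite ℤ (Rg M) := by
  apply Algebra.finite_adjoin_of_finite_of_isIntegral (Set.finite_range _)
  rintro _ ⟨p, rfl⟩
  have := (Real.isIntegral_two_mul_cos_rat_mul_pi (1 / (M p.1 p.2 : ℚ))).neg
  simpa [cm, div_eq_inv_mul] using this

theorem bf_mem {u v : B → ℝ} (hu : ∀ t, u t ∈ Rg M) (hv : ∀ t, v t ∈ Rg M) :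
    2 * bf M u v ∈ Rg M := by
  rw [bf_apply, Finset.mul_sum]
  refine sum_mem fun s _ => ?_
  rw [Finset.mul_sum]
  refine sum_mem fun t _ => ?_
  have : 2 * (u s * cm M s t * v t) = u s * (2 * cm M s t) * v t := by ring
  rw [this]
  exact mul_mem (mul_mem (hu s) (cm_mem s t)) (hv t)

theorem al_mem (s t : B) : al s t ∈ Rg M := by
  rw [al_apply]; split_ifs
  · exact one_mem _
  · exact zero_mem _

theorem rho_mem (w : W) {v : B → ℝ} (hv : ∀ t, v t ∈ Rg M) : ∀ t, rho cs w v t ∈ Rg M := by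
  induction w using cs.simple_induction_left with
  | one => simpa using hv
  | mul_simple_left w i ih =>
    intro t
    rw [rho_mul, rho_simple]
    exact sub_mem (ih t) (mul_mem (bf_mem (al_mem i) ih) (al_mem i t))

theorem IsRoot.mem {v : B → ℝ} (h : IsRoot cs v) : ∀ t, v t ∈ Rg M := by
  obtain ⟨w, s, rfl⟩ := h
  exact rho_mem w (al_mem s)

variable (cs) in
/-- The congruence subgroup of level five. -/
def W5 : Subgroup W where
  carrier := {w | ∀ v : B → ℝ, (∀ t, v t ∈ Rg M) →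
    ∃ l : B → ℝ, (∀ t, l t ∈ Rg M) ∧ rho cs w v = v + (5 : ℝ) • l}
  mul_mem' := by
    intro a b ha hb v hv
    obtain ⟨l, hl, e⟩ := hb v hv
    obtain ⟨l', hl', e'⟩ := ha _ (rho_mem (cs := cs) b hv)
    refine ⟨l + l', fun t => add_mem (hl t) (hl' t), ?_⟩
    rw [rho_mul, e', e]; module
  one_mem' := fun v _ => ⟨0, fun _ => zero_mem _, by simp⟩
  inv_mem' := by
    intro a ha v hv
    obtain ⟨l, hl, e⟩ := ha _ (rho_mem (cs := cs) a⁻¹ hv)
    refine ⟨-l, fun t => neg_mem (hl t), ?_⟩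
    rw [rho_self_inv] at e
    conv_rhs => rw [e]
    module

theorem W5_normal : (W5 cs).Normal := by
  constructor
  intro h hh g v hv
  obtain ⟨l, hl, e⟩ := hh _ (rho_mem (cs := cs) g⁻¹ hv)
  refine ⟨rho cs g l, rho_mem g hl, ?_⟩
  rw [rho_mul, rho_mul, e, map_add, map_smul, rho_self_inv]

theorem W5_finiteIndex : (W5 cs).FiniteIndex := by
  let Q := Rg M ⧸ Ideal.span {(5 : Rg M)}
  have : Finite Q := by
    apply Module.finite_of_fg_torsion
    intro x
    refine ⟨⟨5, by simp⟩, ?_⟩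
    obtain ⟨y, rfl⟩ := Ideal.Quotient.mk_surjective x
    change (5 : ℤ) • Ideal.Quotient.mk _ y = 0
    rw [← map_zsmul, Ideal.Quotient.eq_zero_iff_mem, Ideal.mem_span_singleton]
    exact ⟨y, by simp⟩
  let f : W → B → B → Q := fun w s t =>
    Ideal.Quotient.mk _ ⟨rho cs w (al s) t, rho_mem w (al_mem s) t⟩
  have hf : ∀ a b, f a = f b → a⁻¹ * b ∈ W5 cs := by
    intro a b hab v hv
    have h1 : ∀ s t, ∃ m ∈ Rg M, rho cs b (al s) t = rho cs a (al s) t + 5 * m := by
      intro s t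
      have := congrFun (congrFun hab s) t
      simp only [f] at this
      rw [eq_comm, Ideal.Quotient.eq, Ideal.mem_span_singleton] at this
      obtain ⟨m, hm⟩ := this
      refine ⟨m, m.2, ?_⟩
      have := congrArg Subtype.val hm
      simp only [AddSubgroupClass.coe_sub, MulMemClass.coe_mul] at this
      have e5 : ((5 : Rg M) : ℝ) = 5 := rfl
      rw [e5] at this
      linarith
    choose m hm1 hm2 using h1
    refine ⟨rho cs a⁻¹ (∑ s, v s • m s), rho_mem _ fun t => ?_, ?_⟩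
    · rw [Finset.sum_apply]
      exact sum_mem fun s _ => mul_mem (hv s) (hm1 s t)
    · have e : rho cs b v = rho cs a v + (5 : ℝ) • ∑ s, v s • m s := by
        have e0 : ∀ c : W, rho cs c v = ∑ s, v s • rho cs c (al s) := by
          intro c
          conv_lhs => rw [← sum_al v, map_sum]
          simp
        rw [e0 a, e0 b]
        ext t
        simp only [ Finset.sum_apply, Pi.smul_apply, smul_eq_mul, Pi.add_apply,
          hm2, Finset.mul_sum, ← Finset.sum_add_distrib]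
        exact Finset.sum_congr rfl fun s _ => by ring
      rw [rho_mul, e, map_add, map_smul, rho_inv_self]
  have : Finite (W ⧸ W5 cs) := by
    apply Finite.of_injective (fun q : W ⧸ W5 cs => f q.out)
    intro p q hpq
    rw [← p.out_eq, ← q.out_eq]
    exact Quotient.sound (QuotientGroup.leftRel_apply.2 (hf _ _ hpq))
  exact Subgroup.finiteIndex_of_finite_quotient

theorem W5_spec {h : W} (hh : h ∈ W5 cs) {v : B → ℝ} (hv : IsRoot cs v) :
    1 ≤ bf M v (rho cs h v) ∨ bf M v (rho cs h v) < -1 := by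
  by_contra hc
  push Not at hc
  obtain ⟨l, hl, e⟩ := hh v hv.mem
  let μ : Rg M := ⟨2 * bf M v l, bf_mem hv.mem hl⟩
  have hx : 2 * bf M v (rho cs h v) = 2 + 5 * (μ : ℝ) := by
    rw [e, map_add, map_smul, hv.norm]; simp only [μ, smul_eq_mul]; ring
  have hμ : μ ≠ 0 := by
    intro h0
    rw [h0] at hx
    simp at hx; linarith
  have e5 : ((5 : Rg M) : ℝ) = 5 := rfl
  have e2 : ((2 : Rg M) : ℝ) = 2 := rfl
  rcases hc.2.lt_or_eq with h1 | h1
  · have hfin := finite_plane hv (hv.rho h) (abs_lt.2 ⟨h1, hc.1⟩)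
    set y := sq (2 * bf M v (rho cs h v)) v (rho cs h v) with hy
    have hrt : ∀ n, IsRoot cs (y n) := fun n => (sq_root hv (hv.rho h) n).1
    have hfin2 : (Set.range y).Finite := hfin.subset (by
      rintro _ ⟨n, rfl⟩
      exact ⟨hrt n, sq_mem (Submodule.subset_span (by simp)) (Submodule.subset_span (by simp)) n⟩)
    have key : ∀ t, ∀ᶠ k in Filter.atTop, μ ^ k * (⟨y k t, (hrt k).mem t⟩ : Rg M) = 0 := by
      intro t
      apply minkowski (y := fun k => (⟨y k t, (hrt k).mem t⟩ : Rg M))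
      · apply Set.Finite.of_finite_image (f := Subtype.val) _ Subtype.val_injective.injOn
        refine (hfin2.image fun u => u t).subset ?_
        rintro _ ⟨_, ⟨n, rfl⟩, rfl⟩
        exact ⟨_, ⟨n, rfl⟩, rfl⟩
      · intro j
        apply Subtype.ext
        simp only [AddSubgroupClass.coe_sub, MulMemClass.coe_mul, AddMemClass.coe_add, e5, e2]
        rw [← hx, hy, sq]; simp
    obtain ⟨k, hk⟩ := (Filter.eventually_all.2 key).exists
    have : y k = 0 := by
      ext t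
      have := (mul_eq_zero.1 (hk t)).resolve_left (pow_ne_zero _ hμ)
      exact congrArg Subtype.val this
    have h2 := (hrt k).norm
    rw [this] at h2; simp at h2
  · have h2 : (2 + 5 * μ : Rg M) = -2 := by
      apply Subtype.ext
      simp only [MulMemClass.coe_mul, AddMemClass.coe_add, e5, e2, NegMemClass.coe_neg]
      linarith
    have := minkowski (μ := μ) (y := fun k => (-1 : Rg M) ^ k) (by
      refine (Set.toFinite ({1, -1} : Set (Rg M))).subset ?_
      rintro _ ⟨n, rfl⟩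
      exact neg_one_pow_eq_or _ n) (fun j => by rw [h2]; ring)
    obtain ⟨k, hk⟩ := this.exists
    exact mul_ne_zero (pow_ne_zero _ hμ) (pow_ne_zero _ (by simp)) hk

end Pool.Agent.Lib.MP_c2c03e_al
end

-- part Pool.Agent.Lib.MP_c2c03e_al.Ess
section

/-! Roots as half-spaces; classes; essential roots. -/

set_option linter.unusedSectionVars false

namespace Pool.Agent.Lib.MP_c2c03e_al

open CoxeterSystem Filter

variable {B W : Type*} [Group W] [Fintype B] [DecidableEq B] {M : CoxeterMatrix B}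

/-- The set of roots. -/
def Rt (cs : CoxeterSystem M W) : Type _ := {v : B → ℝ // IsRoot cs v}

variable {cs : CoxeterSystem M W}

noncomputable instance : MulAction W (Rt cs) where
  smul w γ := ⟨rho cs w γ.1, γ.2.rho w⟩
  one_smul γ := Subtype.ext (rho_one cs γ.1)
  mul_smul a b γ := Subtype.ext (rho_mul cs a b γ.1)

instance : InvolutiveNeg (Rt cs) where
  neg γ := ⟨-γ.1, γ.2.neg⟩
  neg_neg γ := Subtype.ext (neg_neg γ.1)

theorem smul_val (w : W) (γ : Rt cs) : (w • γ).1 = rho cs w γ.1 := rfl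

theorem neg_val (γ : Rt cs) : (-γ).1 = -γ.1 := rfl

theorem Rt.ext {γ δ : Rt cs} (h : γ.1 = δ.1) : γ = δ := Subtype.ext h

theorem smul_neg' (w : W) (γ : Rt cs) : w • (-γ) = -(w • γ) := Rt.ext (map_neg _ _)

/-- Positive roots. -/
def Pos (γ : Rt cs) : Prop := 0 ≤ γ.1

theorem pos_neg {γ : Rt cs} : Pos (-γ) ↔ ¬ Pos γ := by
  rw [Pos, Pos, neg_val, neg_nonneg, γ.2.nonpos_iff]

theorem not_pos {γ : Rt cs} : ¬ Pos γ ↔ γ.1 ≤ 0 := γ.2.nonpos_iff.symm

variable (cs) in
/-- Simple root. -/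
def alR (s : B) : Rt cs := ⟨al s, isRoot_al cs s⟩

theorem exists_alR (γ : Rt cs) : ∃ (w : W) (s : B), γ = w • alR cs s := by
  obtain ⟨w, s, h⟩ := γ.2
  exact ⟨w, s, Rt.ext h⟩

theorem pos_alR (s : B) : Pos (alR cs s) := al_nonneg s

theorem simple_alR (s : B) : cs.simple s • alR cs s = - alR cs s :=
  Rt.ext (rho_simple_self cs s)

theorem pos_simple {γ : Rt cs} (h : Pos γ) {s : B} (hs : γ ≠ alR cs s) :
    Pos (cs.simple s • γ) := γ.2.simple_nonneg h fun e => hs (Rt.ext e)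

instance : PartialOrder (Rt cs) where
  le β α := ∀ x : W, Pos (x • β) → Pos (x • α)
  le_refl _ _ h := h
  le_trans _ _ _ h1 h2 x h := h2 x (h1 x h)
  le_antisymm β α h1 h2 := by
    obtain ⟨w, s, rfl⟩ := exists_alR α
    have e1 : Pos (w⁻¹ • β) := h2 w⁻¹ (by simpa using pos_alR s)
    by_contra hc
    have e2 : w⁻¹ • β ≠ alR cs s := fun e => hc (by rw [← e]; simp)
    have e3 := h1 (cs.simple s * w⁻¹) (by rw [mul_smul]; exact pos_simple e1 e2)
    rw [mul_smul, inv_smul_smul, simple_alR, pos_neg] at e3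
    exact e3 (pos_alR s)

theorem le_def {β α : Rt cs} : β ≤ α ↔ ∀ x : W, Pos (x • β) → Pos (x • α) := Iff.rfl

theorem smul_le_iff (w : W) {β α : Rt cs} : w • β ≤ w • α ↔ β ≤ α := by
  constructor
  · intro h x hx
    have := h (x * w⁻¹)
    simp only [mul_smul, inv_smul_smul] at this
    exact this hx
  · intro h x hx
    rw [← mul_smul] at hx ⊢
    exact h _ hx

theorem smul_lt_iff (w : W) {β α : Rt cs} : w • β < w • α ↔ β < α := by
  simp only [lt_iff_le_not_ge, smul_le_iff]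

theorem neg_le_iff {β α : Rt cs} : -β ≤ -α ↔ α ≤ β := by
  simp only [le_def, smul_neg', pos_neg]
  exact forall_congr' fun x => not_imp_not

theorem neg_lt_iff {β α : Rt cs} : -β < -α ↔ α < β := by
  simp only [lt_iff_le_not_ge, neg_le_iff]

theorem exists_pos (γ : Rt cs) : ∃ x : W, Pos (x • γ) := by
  obtain ⟨w, s, rfl⟩ := exists_alR γ
  exact ⟨w⁻¹, by simpa using pos_alR s⟩

theorem exists_not_pos (γ : Rt cs) : ∃ x : W, ¬ Pos (x • γ) := by
  obtain ⟨x, hx⟩ := exists_pos (-γ)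
  exact ⟨x, by rwa [smul_neg', pos_neg] at hx⟩

variable (cs) in
/-- Roots separating two chambers. -/
def Sep (x y : W) : Set (Rt cs) := {γ | Pos (x • γ) ∧ ¬ Pos (y • γ)}

theorem finite_Sep (x y : W) : (Sep cs x y).Finite := by
  apply Set.Finite.of_finite_image (f := fun γ => (x • γ).1)
  · refine (finite_rho_al cs (cs.length (y * x⁻¹))).subset ?_
    rintro _ ⟨γ, hγ, rfl⟩
    obtain ⟨u, s, h1, h2⟩ := inversion cs (w := y * x⁻¹) (x • γ).2 hγ.1 (by
      have := not_pos.1 hγ.2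
      rwa [smul_val, rho_mul, rho_inv_self])
    exact ⟨u, s, h1.le, h2⟩
  · intro a _ b _ h
    exact MulAction.injective x (Rt.ext h)

theorem length_le_Sep (w : W) : cs.length w ≤ (Sep cs 1 w).ncard := by
  induction hn : cs.length w using Nat.strong_induction_on generalizing w with
  | _ n ih =>
  by_cases hw : w = 1
  · subst hw; simp at hn; omega
  obtain ⟨s, hs, hs2⟩ := exists_descent cs hw
  have h1 := ih _ (by omega) (w * cs.simple s) rfl
  have h2 : insert (alR cs s) ((fun γ => cs.simple s • γ) '' Sep cs 1 (w * cs.simple s)) ⊆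
      Sep cs 1 w := by
    rintro γ (rfl | ⟨δ, hδ, rfl⟩)
    · exact ⟨by simpa using pos_alR s, not_pos.2 hs2⟩
    · refine ⟨?_, by rw [← mul_smul]; exact hδ.2⟩
      rw [one_smul]
      apply pos_simple (by simpa using hδ.1)
      rintro rfl
      apply hδ.2
      rw [mul_smul, simple_alR, smul_neg', pos_neg]
      exact not_pos.2 hs2
  have h3 := Set.ncard_le_ncard h2 (finite_Sep _ _)
  rw [Set.ncard_insert_of_notMem _ ((finite_Sep _ _).image _),
    Set.ncard_image_of_injective _ (MulAction.injective _)] at h3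
  · omega
  · rintro ⟨δ, hδ, e⟩
    have : δ = - alR cs s := by
      rw [← simple_alR, ← e, ← mul_smul]; simp
    have h4 := hδ.1
    rw [this, one_smul, pos_neg] at h4
    exact h4 (pos_alR s)

theorem finite_Icc (δ γ : Rt cs) : {ε | δ ≤ ε ∧ ε ≤ γ}.Finite := by
  obtain ⟨x, hx⟩ := exists_pos δ
  obtain ⟨y, hy⟩ := exists_not_pos γ
  exact (finite_Sep x y).subset fun ε hε => ⟨hε.1 x hx, fun h => hy (hε.2 y h)⟩

/-- Same class. -/
def Sim (γ δ : Rt cs) : Prop := ∃ h ∈ W5 cs, δ = h • γ ∨ δ = -(h • γ)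

theorem Sim.refl (γ : Rt cs) : Sim γ γ := ⟨1, one_mem _, Or.inl (one_smul _ _).symm⟩

theorem Sim.symm {γ δ : Rt cs} (h : Sim γ δ) : Sim δ γ := by
  obtain ⟨h, hh, rfl | rfl⟩ := h
  · exact ⟨h⁻¹, inv_mem hh, Or.inl (by simp)⟩
  · exact ⟨h⁻¹, inv_mem hh, Or.inr (by simp [smul_neg'])⟩

theorem Sim.trans {γ δ ε : Rt cs} (h : Sim γ δ) (h' : Sim δ ε) : Sim γ ε := by
  obtain ⟨a, ha, rfl | rfl⟩ := h <;> obtain ⟨b, hb, rfl | rfl⟩ := h' <;>
    refine ⟨b * a, mul_mem hb ha, ?_⟩ <;> simp [mul_smul, smul_neg']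

theorem Sim.neg_right {γ δ : Rt cs} (h : Sim γ δ) : Sim γ (-δ) :=
  h.trans ⟨1, one_mem _, Or.inr (by simp)⟩

theorem Sim.neg_left {γ δ : Rt cs} (h : Sim γ δ) : Sim (-γ) δ := h.symm.neg_right.symm

theorem sim_smul {h : W} (hh : h ∈ W5 cs) (γ : Rt cs) : Sim γ (h • γ) := ⟨h, hh, Or.inl rfl⟩

theorem Sim.smul {γ δ : Rt cs} (h : Sim γ δ) (w : W) : Sim (w • γ) (w • δ) := by
  obtain ⟨h, hh, e⟩ := h
  refine ⟨w * h * w⁻¹, W5_normal.conj_mem h hh w, ?_⟩
  rcases e with rfl | rfl <;> simp [mul_smul, smul_neg']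

theorem sim_smul_iff {γ δ : Rt cs} (w : W) : Sim (w • γ) (w • δ) ↔ Sim γ δ :=
  ⟨fun h => by simpa using h.smul w⁻¹, fun h => h.smul w⟩

variable (cs) in
/-- The class setoid. -/
def simS : Setoid (Rt cs) := ⟨Sim, Sim.refl, Sim.symm, Sim.trans⟩

instance : Finite (Quotient (simS cs)) := by
  have := W5_finiteIndex (cs := cs)
  apply Finite.of_surjective
    (fun p : (W ⧸ W5 cs) × B => Quotient.mk (simS cs) (p.1.out • alR cs p.2))
  intro c
  obtain ⟨γ, rfl⟩ := Quotient.exists_rep c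
  obtain ⟨w, s, rfl⟩ := exists_alR γ
  refine ⟨((w : W ⧸ W5 cs), s), Quotient.sound ?_⟩
  obtain ⟨h, hh⟩ := QuotientGroup.mk_out_eq_mul (W5 cs) w
  simp only [hh, mul_smul]
  exact ((sim_smul h.2 _).smul w).symm

theorem le_of_good {a b : Rt cs} (h : Good cs (a.1 - b.1)) : b ≤ a := by
  intro x hx
  have := h.nonneg x
  rw [map_sub, sub_nonneg] at this
  exact le_trans hx this

theorem le_or_le_of_bf {a b : Rt cs} (h : 1 ≤ bf M a.1 b.1) : a ≤ b ∨ b ≤ a :=
  (good_sub a.2 b.2 h).symm.imp le_of_good le_of_good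

theorem Sim.bf {γ δ : Rt cs} (h : Sim γ δ) : 1 ≤ bf M γ.1 δ.1 ∨ 1 ≤ bf M γ.1 (-δ).1 := by
  obtain ⟨h, hh, rfl | rfl⟩ := h <;> rcases W5_spec hh γ.2 with h1 | h1 <;>
    simp only [neg_val, smul_val, map_neg, neg_neg]
  · exact Or.inl h1
  · right; linarith
  · exact Or.inr h1
  · left; linarith

theorem Sim.bf_ge {γ δ : Rt cs} (h : Sim γ δ) {x y : W} (h1 : Pos (x • γ)) (h2 : Pos (x • δ))
    (h3 : ¬ Pos (y • γ)) (h4 : ¬ Pos (y • δ)) : 1 ≤ Pool.Agent.Lib.MP_c2c03e_al.bf M γ.1 δ.1 := by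
  refine h.bf.resolve_right fun hc => ?_
  rcases le_or_le_of_bf hc with h5 | h5
  · have := h5 x h1
    rw [smul_neg', pos_neg] at this
    exact this h2
  · exact h3 (h5 y (by rwa [smul_neg', pos_neg]))

theorem Sim.total {γ δ : Rt cs} (h : Sim γ δ) {x y : W} (h1 : Pos (x • γ)) (h2 : Pos (x • δ))
    (h3 : ¬ Pos (y • γ)) (h4 : ¬ Pos (y • δ)) : γ ≤ δ ∨ δ ≤ γ :=
  le_or_le_of_bf (h.bf_ge h1 h2 h3 h4)

theorem Sim.total' {γ δ a b : Rt cs} (h : Sim γ δ) (h1 : a ≤ γ) (h2 : a ≤ δ)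
    (h3 : γ ≤ b) (h4 : δ ≤ b) : γ ≤ δ ∨ δ ≤ γ := by
  obtain ⟨x, hx⟩ := exists_pos a
  obtain ⟨y, hy⟩ := exists_not_pos b
  exact h.total (h1 x hx) (h2 x hx) (fun h => hy (h3 y h)) (fun h => hy (h4 y h))

theorem Sim.good {γ δ : Rt cs} (h : Sim γ δ) (hle : δ ≤ γ) : Good cs (γ.1 - δ.1) := by
  obtain ⟨x, hx⟩ := exists_pos δ
  obtain ⟨y, hy⟩ := exists_not_pos γ
  rcases good_sub γ.2 δ.2 (h.bf_ge (hle x hx) hx hy fun h => hy (hle y h)) with h1 | h1
  · exact h1
  · have e := le_antisymm hle (le_of_good h1)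
    subst e; exact h1

/-- Essential roots. -/
def Ess (g : W) (γ : Rt cs) : Prop := g • γ < γ

theorem Ess.pow_succ_lt {g : W} {γ : Rt cs} (h : Ess g γ) (n : ℕ) : g ^ (n + 1) • γ < g ^ n • γ := by
  rw [pow_succ, mul_smul, smul_lt_iff]; exact h

theorem Ess.anti {g : W} {γ : Rt cs} (h : Ess g γ) : StrictAnti fun n : ℕ => g ^ n • γ :=
  strictAnti_nat_of_succ_lt h.pow_succ_lt

theorem Ess.pow {g : W} {γ : Rt cs} (h : Ess g γ) {n : ℕ} (hn : 0 < n) : Ess (g ^ n) γ := by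
  simpa [Ess] using h.anti hn

theorem Ess.pow_le {g : W} {γ : Rt cs} (h : Ess g γ) (n : ℕ) : g ^ n • γ ≤ γ := by
  simpa using h.anti.antitone (Nat.zero_le n)

theorem ess_inv_neg {g : W} {γ : Rt cs} : Ess g⁻¹ (-γ) ↔ Ess g γ := by
  rw [Ess, Ess, smul_neg', neg_lt_iff, ← smul_lt_iff g, smul_inv_smul]

theorem ess_inv {g : W} {γ : Rt cs} : Ess g⁻¹ γ ↔ γ < g • γ := by
  rw [Ess, ← smul_lt_iff g, smul_inv_smul]

theorem ess_conj {g : W} {γ : Rt cs} (w : W) : Ess (w * g * w⁻¹) (w • γ) ↔ Ess g γ := by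
  rw [Ess, Ess, mul_smul, mul_smul, inv_smul_smul, smul_lt_iff]

theorem Ess.comm {a b : W} {γ : Rt cs} (h : Ess a γ) (hab : Commute a b) : Ess a (b • γ) := by
  rw [Ess, ← mul_smul, hab.eq, mul_smul, smul_lt_iff]; exact h

theorem Ess.ev_neg {g : W} {γ : Rt cs} (h : Ess g γ) (x : W) :
    ∀ᶠ n : ℕ in atTop, ¬ Pos (x • g ^ n • γ) := by
  obtain ⟨y, hy⟩ := exists_not_pos γ
  have hf := (finite_Sep (cs := cs) x y).preimage (f := fun n : ℕ => g ^ n • γ)
    h.anti.injective.injOn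
  have := hf.eventually_cofinite_notMem
  rw [Nat.cofinite_eq_atTop] at this
  exact this.mono fun n hn hp => hn ⟨hp, fun h2 => hy (h.pow_le n y h2)⟩

theorem Ess.ev_pos {g : W} {γ : Rt cs} (h : Ess g γ) (x : W) :
    ∀ᶠ n : ℕ in atTop, Pos (x • g⁻¹ ^ n • γ) := by
  have := (ess_inv_neg.2 h).ev_neg x
  simpa only [smul_neg', pos_neg, not_not] using this

theorem Ess.total {g : W} {γ δ : Rt cs} (h1 : Ess g γ) (h2 : Ess g δ) (h : Sim γ δ) :
    γ ≤ δ ∨ δ ≤ γ := by
  obtain ⟨n, hn1, hn2⟩ := ((h1.ev_neg 1).and (h2.ev_neg 1)).exists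
  obtain ⟨m, hm1, hm2⟩ := ((h1.ev_pos 1).and (h2.ev_pos 1)).exists
  rw [one_smul] at *
  exact h.total hm1 hm2 hn1 hn2

theorem le_pow_of_le {g : W} {γ : Rt cs} (h : γ ≤ g • γ) (n : ℕ) : γ ≤ g ^ n • γ := by
  induction n with
  | zero => simp
  | succ n ih => rw [pow_succ', mul_smul]; exact h.trans ((smul_le_iff g).2 ih)

theorem Ess.of_pow {g : W} (hg : g ∈ W5 cs) {γ : Rt cs} {n : ℕ} (h : Ess (g ^ n) γ) : Ess g γ := by
  have h2 := h.comm (Commute.self_pow g n).symm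
  have h3 : ¬ γ ≤ g • γ := fun hc => absurd (le_pow_of_le hc n) (not_le_of_gt h)
  exact lt_of_le_not_ge ((h.total h2 (sim_smul hg γ)).resolve_left h3) h3

theorem Ess.convex {g : W} (hg : g ∈ W5 cs) {γ δ ε : Rt cs} (h1 : Ess g γ) (h2 : Ess g δ)
    (h3 : δ ≤ ε) (h4 : ε ≤ γ) : Ess g ε := by
  have h5 : ¬ ε ≤ g • ε := by
    intro hc
    obtain ⟨x, hx⟩ := exists_pos ε
    obtain ⟨n, hn⟩ := (h1.ev_neg x).exists
    exact hn (((le_pow_of_le hc n).trans ((smul_le_iff _).2 h4)) x hx)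
  refine lt_of_le_not_ge (((sim_smul hg ε).total' (a := g • δ) (b := γ) (h2.le.trans h3)
    ((smul_le_iff g).2 h3) h4 (((smul_le_iff g).2 h4).trans h1.le)).resolve_left h5) h5

theorem Ess.perp {z : B → ℝ} (hz : Good cs z) {h : W} (hh : h ∈ Stab cs z) {γ : Rt cs}
    (hγ : Ess h γ) : bf M z γ.1 = 0 := by
  obtain ⟨w, -, hw⟩ := hz
  obtain ⟨n, hn⟩ := (hγ.ev_neg w).exists
  obtain ⟨m, hm⟩ := (hγ.ev_pos w).exists
  have e : ∀ f ∈ Stab cs z, bf M (rho cs w z) (w • f • γ).1 = bf M z γ.1 := by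
    intro f hf
    rw [smul_val, smul_val, bf_rho]
    conv_lhs => rw [← (mem_Stab cs).1 hf]
    rw [bf_rho]
  apply le_antisymm
  · rw [← e _ (pow_mem (inv_mem hh) m)]; exact hw.bf_nonpos hm
  · rw [← e _ (pow_mem hh n)]; exact hw.bf_nonneg (not_pos.1 hn)

theorem Ess.supp {J : Set B} {h : W} (hh : h ∈ WJ cs J) {γ : Rt cs} (hγ : Ess h γ) {t : B}
    (ht : t ∉ J) : γ.1 t = 0 := by
  obtain ⟨n, hn⟩ := (hγ.ev_neg 1).exists
  obtain ⟨m, hm⟩ := (hγ.ev_pos 1).exists
  rw [one_smul] at hn hm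
  apply le_antisymm
  · rw [← WJ_coord cs (pow_mem hh n) γ.1 ht]; exact not_pos.1 hn t
  · rw [← WJ_coord cs (pow_mem (inv_mem hh) m) γ.1 ht]; exact hm t

theorem ncard_noness_le {g : W} (hg : g ∈ W5 cs) (n : ℕ) :
    {γ ∈ Sep cs 1 (g ^ n) | ¬ Ess g γ}.ncard ≤ (Sep cs 1 g).ncard := by
  have ex : ∀ γ ∈ Sep cs 1 (g ^ n), ∃ i : ℕ, g ^ i • γ ∈ Sep cs 1 g := by
    intro γ hγ
    by_contra hc
    push Not at hc
    have : ∀ i : ℕ, Pos (g ^ i • γ) := by
      intro i
      induction i with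
      | zero => simpa using hγ.1
      | succ i ih =>
        by_contra h
        exact hc i ⟨by simpa using ih, by rwa [← mul_smul, ← pow_succ']⟩
    exact hγ.2 (this n)
  choose! i hi using ex
  apply Set.ncard_le_ncard_of_injOn (fun γ => g ^ i γ • γ) (fun γ hγ => hi γ hγ.1) _
    (finite_Sep _ _)
  have key : ∀ γ ∈ {γ ∈ Sep cs 1 (g ^ n) | ¬ Ess g γ}, ∀ δ ∈ Sep cs 1 (g ^ n), ∀ j : ℕ,
      δ = g ^ j • γ → γ = δ := by
    rintro γ ⟨h1, h2⟩ δ h3 j rfl
    by_contra hne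
    rcases (sim_smul (pow_mem hg j) γ).total h1.1 h3.1 h1.2 h3.2 with h4 | h4
    · have h5 : Ess (g⁻¹ ^ j) γ := by
        rw [inv_pow, ess_inv]; exact lt_of_le_of_ne h4 hne
      have h6 := ess_inv.1 (h5.of_pow (inv_mem hg))
      exact h1.2 (by simpa using le_pow_of_le h6.le n 1 h1.1)
    · exact h2 (Ess.of_pow hg (n := j) (lt_of_le_of_ne h4 (Ne.symm hne)))
  intro γ hγ δ hδ e
  simp only at e
  rcases le_total (i γ) (i δ) with h | h
  · obtain ⟨j, hj⟩ := Nat.exists_eq_add_of_le h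
    rw [hj, pow_add, mul_smul] at e
    exact (key δ hδ γ hγ.1 j (MulAction.injective _ e)).symm
  · obtain ⟨j, hj⟩ := Nat.exists_eq_add_of_le h
    rw [hj, pow_add, mul_smul] at e
    exact key γ hγ δ hδ.1 j (MulAction.injective _ e).symm

theorem length_pow_le {g : W} (hg : g ∈ W5 cs) (h : ∀ γ : Rt cs, ¬ Ess g γ) (n : ℕ) :
    cs.length (g ^ n) ≤ (Sep cs 1 g).ncard := by
  refine (length_le_Sep _).trans (le_trans (le_of_eq ?_) (ncard_noness_le hg n))
  congr 1
  ext γ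
  simp [h γ]

end Pool.Agent.Lib.MP_c2c03e_al
end

-- part Pool.Agent.Lib.MP_c2c03e_al.Aff
section

/-! The affine case. -/

set_option linter.unusedSectionVars false

namespace Pool.Agent.Lib.MP_c2c03e_al

open CoxeterSystem Filter

theorem avg {G : Type*} [Group G] (A : Subgroup G) [A.Normal] [A.FiniteIndex]
    (hc : ∀ a ∈ A, ∀ b ∈ A, Commute a b) (σ : G → ℝ) (σ0 : ∀ g, 0 ≤ σ g) (σ1 : σ 1 = 0)
    (σmul : ∀ a b, Commute a b → σ (a * b) ≤ σ a + σ b)
    (σpow : ∀ a (k : ℕ), 0 < k → σ (a ^ k) = k * σ a)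
    (σc : ∀ a f, Commute a (f * a * f⁻¹) → σ (a * (f * a * f⁻¹)⁻¹) = 0)
    (hz : ∀ a ∈ A, (∀ f, Commute f a) → a = 1) {a : G} (ha : a ∈ A) : σ a = 0 := by
  let _ : CommGroup A :=
    { (inferInstance : Group A) with mul_comm := fun x y => Subtype.ext (hc x x.2 y y.2).eq }
  have := Fintype.ofFinite (G ⧸ A)
  let a' : A := ⟨a, ha⟩
  let c : G ⧸ A → A := fun q => MulAut.conjNormal q.out a'
  have hcq : ∀ (f : G) (q : G ⧸ A), c (f • q) = MulAut.conjNormal f (c q) := by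
    intro f q
    obtain ⟨h, hh⟩ := QuotientGroup.mk_out_eq_mul A (f * q.out)
    have e : f • q = ((f * q.out : G) : G ⧸ A) := by
      conv_lhs => rw [← q.out_eq]
      rfl
    apply Subtype.ext
    simp only [c, e, hh, MulAut.conjNormal_apply, a']
    have := (hc h h.2 a ha).eq
    calc f * q.out * h * a * (f * q.out * h)⁻¹ = f * q.out * (h * a) * (f * q.out * h)⁻¹ := by group
      _ = _ := by rw [this]; group
  have hN : ∏ q, c q = 1 := by
    apply Subtype.ext
    apply hz _ (∏ q, c q).2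
    intro f
    have e : MulAut.conjNormal f (∏ q, c q) = ∏ q, c q := by
      rw [map_prod]
      simp only [← hcq]
      exact Fintype.prod_equiv (MulAction.toPerm f) _ _ fun q => rfl
    have := congrArg Subtype.val e
    rw [MulAut.conjNormal_apply, mul_inv_eq_iff_eq_mul] at this
    exact this
  have e : a' ^ Fintype.card (G ⧸ A) = ∏ q, (a' * (c q)⁻¹) := by
    rw [Finset.prod_mul_distrib, Finset.prod_inv_distrib, hN]; simp
  have h1 : σ (∏ q, (a' * (c q)⁻¹) : A) = 0 := by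
    apply Finset.prod_induction (fun q => a' * (c q)⁻¹) (fun x : A => σ x = 0)
    · intro x y hx hy
      apply le_antisymm _ (σ0 _)
      have := σmul x y (hc x x.2 y y.2)
      rw [hx, hy, add_zero] at this
      exact this
    · exact σ1
    · intro q _
      exact σc a q.out (hc a ha _ (c q).2)
  rw [← e] at h1
  have h2 := σpow a _ (Fintype.card_pos (α := G ⧸ A))
  have h3 : (0 : ℝ) < Fintype.card (G ⧸ A) := by exact_mod_cast Fintype.card_pos
  have h4 : σ (a ^ Fintype.card (G ⧸ A)) = 0 := h1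
  rw [h4] at h2
  exact (mul_eq_zero.1 h2.symm).resolve_left h3.ne'

variable {B W : Type*} [Group W] [Fintype B] [DecidableEq B] {M : CoxeterMatrix B}
  {cs : CoxeterSystem M W}

theorem rad {z : B → ℝ} (hz0 : 0 ≤ z) (hI : ∀ s, z s ≠ 0 → bf M z (al s) = 0) {v : B → ℝ}
    (hv : Good cs v) (hs : ∀ t, z t = 0 → v t = 0) : ∀ s, z s ≠ 0 → bf M v (al s) = 0 := by
  obtain ⟨w, -, hw⟩ := hv
  obtain ⟨g, hg, hg2⟩ := exists_dom_rel cs hw (WJ cs {s | z s ≠ 0})
  have h1 : bf M (rho cs g v) z = 0 := by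
    conv_lhs => rw [← (mem_Stab cs).1 (WJ_le_Stab cs hI hg)]
    rw [bf_rho, bf_symm, bf_right_sum]
    refine Finset.sum_eq_zero fun t _ => ?_
    by_cases ht : z t = 0
    · rw [hs t ht, zero_mul]
    · rw [hI t ht, mul_zero]
  rw [bf_right_sum, Finset.sum_eq_zero_iff_of_nonpos] at h1
  · have h2 : ∀ s, z s ≠ 0 → bf M (rho cs g v) (al s) = 0 := fun s hs =>
      (mul_eq_zero.1 (h1 s (Finset.mem_univ s))).resolve_left hs
    have h3 := (mem_Stab cs).1 (WJ_le_Stab cs h2 (inv_mem hg))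
    rw [rho_inv_self] at h3
    rwa [← h3] at h2
  · intro t _
    by_cases ht : z t = 0
    · rw [ht, zero_mul]
    · exact mul_nonpos_of_nonneg_of_nonpos (hz0 t) (hg2 t (simple_mem_WJ cs ht))

theorem transl {z : B → ℝ} (hz0 : 0 ≤ z) (hI : ∀ s, z s ≠ 0 → bf M z (al s) = 0) {t : W}
    (ht : t ∈ WJ cs {s | z s ≠ 0}) (ht5 : t ∈ W5 cs) {s : B} (hs : z s ≠ 0) :
    ∀ r, z r ≠ 0 → bf M (rho cs t (al s) - al s) (al r) = 0 := by
  have c1 : ∀ r, z r = 0 → al s r = (0 : ℝ) := fun r hr => al_ne fun h => hs (h ▸ hr)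
  have c2 : ∀ r, z r = 0 → rho cs t (al s) r = 0 := fun r hr => by
    rw [WJ_coord cs ht _ (by simpa using hr), c1 r hr]
  have ra := isRoot_al cs s
  rcases W5_spec ht5 ra with h | h
  · rcases good_sub ra (ra.rho t) h with h1 | h1
    · intro r hr
      have := rad hz0 hI h1 (fun r hr => by simp [c1 r hr, c2 r hr]) r hr
      rw [← neg_sub, map_neg, LinearMap.neg_apply, this, neg_zero]
    · exact rad hz0 hI h1 (fun r hr => by simp [c1 r hr, c2 r hr])
  · exfalso
    rcases good_sub ra (ra.rho t).neg (by rw [map_neg]; linarith) with h1 | h1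
    · have := rad hz0 hI h1 (fun r hr => by simp [c1 r hr, c2 r hr]) s hs
      simp only [map_sub, map_neg, LinearMap.sub_apply, LinearMap.neg_apply, bf_al_self] at this
      rw [bf_symm] at h; linarith
    · have := rad hz0 hI h1 (fun r hr => by simp [c1 r hr, c2 r hr]) s hs
      simp only [map_sub, map_neg, LinearMap.sub_apply, LinearMap.neg_apply, bf_al_self] at this
      rw [bf_symm] at h; linarith

theorem srl_affine {z : B → ℝ} (hz0 : 0 ≤ z) (hI : ∀ s, z s ≠ 0 → bf M z (al s) = 0) {t : W}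
    (ht : t ∈ WJ cs {s | z s ≠ 0}) (ht5 : t ∈ W5 cs) : srl cs t = 0 := by
  have := W5_normal (cs := cs)
  have := W5_finiteIndex (cs := cs)
  refine avg (G := WJ cs {s | z s ≠ 0}) ((W5 cs).subgroupOf _) ?_ (fun g => srl cs g)
    (fun g => srl_nonneg cs g) (srl_one cs) (fun a b h => srl_mul_le cs (congrArg Subtype.val h))
    (fun a k hk => srl_pow cs a hk) (fun a f h => srl_comm_conj cs (congrArg Subtype.val h)) ?_
    (a := ⟨t, ht⟩) ht5
  · intro a ha b hb
    apply Subtype.ext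
    have : ((b : W) * a)⁻¹ * (a * b) = 1 := by
      apply WJ_eq_one cs (mul_mem (inv_mem (mul_mem b.2 a.2)) (mul_mem a.2 b.2))
      intro s hs
      have h1 := (mem_Stab cs).1 (WJ_le_Stab cs (transl hz0 hI a.2 ha hs) b.2)
      have h2 := (mem_Stab cs).1 (WJ_le_Stab cs (transl hz0 hI b.2 hb hs) a.2)
      rw [map_sub] at h1 h2
      have h3 : rho cs ((a : W) * b) (al s) = rho cs ((b : W) * a) (al s) := by
        rw [rho_mul, rho_mul, sub_eq_iff_eq_add.1 h1, sub_eq_iff_eq_add.1 h2]; abel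
      rw [rho_mul, h3, rho_inv_self]
      exact al_nonneg s
    exact (inv_mul_eq_one.1 this).symm
  · intro a ha h
    apply Subtype.ext
    apply WJ_eq_one cs a.2
    intro s hs
    have h1 : cs.simple s * a = a * cs.simple s :=
      congrArg Subtype.val (h ⟨_, simple_mem_WJ cs hs⟩).eq
    have h2 := transl hz0 hI a.2 ha hs s hs
    have h3 := congrArg (fun w => rho cs w (al s)) h1
    simp only [rho_mul, rho_simple_self, map_neg] at h3
    rw [map_sub, LinearMap.sub_apply, bf_al_self, sub_eq_zero, bf_symm] at h2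
    rw [rho_simple, h2] at h3
    have : rho cs (a : W) (al s) = al s := by
      have h4 : (2 : ℝ) • rho cs (a : W) (al s) = (2 : ℝ) • al s := by
        rw [mul_one] at h3
        rw [two_smul]
        nth_rw 1 [sub_eq_iff_eq_add.1 h3]
        abel
      exact smul_right_injective _ two_ne_zero h4
    rw [this]; exact al_nonneg s

theorem WJ_union {I I' : Set B} (hc : ∀ a ∈ WJ cs I, ∀ b ∈ WJ cs I', Commute a b) {h : W}
    (hh : h ∈ WJ cs (I ∪ I')) : ∃ a ∈ WJ cs I, ∃ b ∈ WJ cs I', h = a * b := by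
  induction hh using Subgroup.closure_induction with
  | mem x hx =>
    obtain ⟨s, hs | hs, rfl⟩ := hx
    · exact ⟨_, simple_mem_WJ cs hs, 1, one_mem _, by simp⟩
    · exact ⟨1, one_mem _, _, simple_mem_WJ cs hs, by simp⟩
  | one => exact ⟨1, one_mem _, 1, one_mem _, by simp⟩
  | mul x y _ _ hx hy =>
    obtain ⟨a, ha, b, hb, rfl⟩ := hx
    obtain ⟨a', ha', b', hb', rfl⟩ := hy
    refine ⟨a * a', mul_mem ha ha', b * b', mul_mem hb hb', ?_⟩
    rw [mul_assoc, ← mul_assoc b, ← (hc a' ha' b hb).eq]; group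
  | inv x _ hx =>
    obtain ⟨a, ha, b, hb, rfl⟩ := hx
    exact ⟨a⁻¹, inv_mem ha, b⁻¹, inv_mem hb, by rw [(hc a ha b hb).eq, mul_inv_rev]⟩

/-- Reduction of `g ^ n` to an element without essential roots in the class of `α`. -/
def Red (g : W) (α : Rt cs) (n : ℕ) : Prop :=
  ∃ t g', g' ∈ W5 cs ∧ Commute t g' ∧ g ^ n = t * g' ∧ srl cs t = 0 ∧
    ∀ γ, Ess g' γ → Ess g γ ∧ ¬ Sim α γ

theorem Red.of_conj {g : W} {α : Rt cs} {n : ℕ} (w : W) (h : Red (w * g * w⁻¹) (w • α) n) :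
    Red g α n := by
  obtain ⟨t, g', h1, h2, h3, h4, h5⟩ := h
  refine ⟨w⁻¹ * t * w⁻¹⁻¹, w⁻¹ * g' * w⁻¹⁻¹, W5_normal.conj_mem _ h1 _, h2.conj w⁻¹, ?_,
    by rw [srl_conj, h4], fun γ hγ => ?_⟩
  · rw [conj_pow] at h3
    calc g ^ n = w⁻¹ * (w * g ^ n * w⁻¹) * w := by group
      _ = _ := by rw [h3]; group
  · have h6 := h5 (w • γ) (by
      have := (ess_conj w).2 hγ
      simpa [mul_assoc] using this)
    rwa [ess_conj, sim_smul_iff] at h6

theorem red_affine {g : W} (hg : g ∈ W5 cs) {α : Rt cs} {z : B → ℝ} (hz0 : 0 ≤ z) (hz : Dom M z)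
    (hI : ∀ s, z s ≠ 0 → bf M z (al s) = 0) {m : ℕ} (hm : g ^ m ∈ Stab cs z)
    (hs : ∀ γ δ : Rt cs, Ess g γ → Ess g δ → Sim α γ → Sim α δ → δ ≤ γ →
      ∀ t, z t = 0 → (γ.1 - δ.1) t = 0) :
    Red g α (m * (W5 cs).index) := by
  have := W5_normal (cs := cs)
  set I : Set B := {s | z s ≠ 0} with hI'
  set I' : Set B := {s | bf M z (al s) = 0 ∧ z s = 0} with hI''
  have hfix : ∀ b ∈ WJ cs I', ∀ s ∈ I, rho cs b (al s) = al s := by
    intro b hb s hs
    refine (mem_Stab cs).1 (WJ_le_Stab cs (fun t ht => ?_) hb)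
    have h1 := ht.1
    rw [bf_symm, bf_right_sum, Finset.sum_eq_zero_iff_of_nonpos] at h1
    · rw [bf_symm]
      exact (mul_eq_zero.1 (h1 s (Finset.mem_univ s))).resolve_left hs
    · intro r _
      by_cases hr : r = t
      · rw [hr, ht.2, zero_mul]
      · rw [bf_al_al]
        exact mul_nonpos_of_nonneg_of_nonpos (hz0 r) (cm_nonpos (Ne.symm hr))
  have hfix' : ∀ a ∈ WJ cs I, ∀ t ∈ I', rho cs a (al t) = al t := by
    intro a ha t ht
    refine (mem_Stab cs).1 (WJ_le_Stab cs (fun s hs => ?_) ha)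
    rw [bf_symm, ← simple_mem_Stab cs]
    exact hfix _ (simple_mem_WJ cs ht) s hs
  have hc : ∀ a ∈ WJ cs I, ∀ b ∈ WJ cs I', Commute a b := fun a ha b hb =>
    (commute_WJ cs (hfix b hb) ha).symm
  have hJ := mem_WJ_of_dom cs hz (w := g ^ m) (by rwa [(mem_Stab cs).1 hm])
  have e : {s | bf M z (al s) = 0} = I ∪ I' := by
    ext s
    simp only [hI', hI'', Set.mem_union, Set.mem_ofPred_eq]
    have := hI s
    tauto
  rw [e] at hJ
  obtain ⟨a, ha, b, hb, hab⟩ := WJ_union hc hJ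
  set N := (W5 cs).index
  have e2 : g ^ (m * N) = a ^ N * b ^ N := by rw [pow_mul, hab, (hc a ha b hb).mul_pow]
  refine ⟨a ^ N, b ^ N, (W5 cs).pow_index_mem b, (hc a ha b hb).pow_pow N N, e2,
    srl_affine hz0 hI (pow_mem ha N) ((W5 cs).pow_index_mem a), fun γ hγ => ?_⟩
  have h1 : g ^ (m * N) • γ = b ^ N • γ := by
    rw [e2, ((hc a ha b hb).pow_pow N N).eq, mul_smul]
    congr 1
    exact Rt.ext (fix_of_supp cs (hfix' _ (pow_mem ha N)) fun t ht => hγ.supp (pow_mem hb N) ht)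
  have h2 : Ess g γ := Ess.of_pow hg (n := m * N) (by rw [Ess, h1]; exact hγ)
  refine ⟨h2, fun h3 => ?_⟩
  have h4 := hs γ _ h2 (h2.comm (Commute.self_pow g (m * N)))
    h3 (h3.trans (sim_smul (pow_mem hg _) γ)) (h2.pow_le _)
  rw [h1] at h4
  apply (ne_of_lt hγ)
  apply Rt.ext
  ext t
  by_cases ht : z t = 0
  · have := h4 t ht
    rw [Pi.sub_apply, sub_eq_zero] at this
    exact this.symm
  · exact WJ_coord cs (pow_mem hb N) _ fun h => ht h.2

end Pool.Agent.Lib.MP_c2c03e_al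
end

-- part Pool.Agent.Lib.MP_c2c03e_al.QM
section

/-! Counting quasimorphisms. -/

set_option linter.unusedSectionVars false

namespace Pool.Agent.Lib.MP_c2c03e_al

open CoxeterSystem Filter

variable {B W : Type*} [Group W] [Fintype B] [DecidableEq B] {M : CoxeterMatrix B}
  {cs : CoxeterSystem M W}

/-- Admissible families of translates of the pair `(a, b)` inside `A`. -/
def Adm (a b : Rt cs) (A : Set (Rt cs)) (T : Finset (Rt cs × Rt cs)) : Prop :=
  (∀ p ∈ T, (∃ w : W, p = (w • a, w • b)) ∧ p.1 ∈ A ∧ p.2 ∈ A) ∧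
    ∀ p ∈ T, ∀ q ∈ T, p ≠ q → Sim p.1 q.1 → q.1 ≤ p.2 ∨ p.1 ≤ q.2

/-- Maximal size of an admissible family. -/
noncomputable def cc (a b : Rt cs) (A : Set (Rt cs)) : ℕ :=
  sSup {n | ∃ T, Adm a b A T ∧ T.card = n}

variable {a b : Rt cs}

theorem bdd_adm {A : Set (Rt cs)} (hA : A.Finite) :
    BddAbove {n | ∃ T, Adm a b A T ∧ T.card = n} := by
  refine ⟨(hA.toFinset ×ˢ hA.toFinset).card, ?_⟩
  rintro _ ⟨T, hT, rfl⟩
  apply Finset.card_le_card
  intro p hp
  simpa using (hT.1 p hp).2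

theorem card_le_cc {A : Set (Rt cs)} (hA : A.Finite) {T} (hT : Adm a b A T) :
    T.card ≤ cc a b A := le_csSup (bdd_adm hA) ⟨T, hT, rfl⟩

theorem exists_cc {A : Set (Rt cs)} (hA : A.Finite) : ∃ T, Adm a b A T ∧ T.card = cc a b A :=
  Nat.sSup_mem (s := {n | ∃ T, Adm a b A T ∧ T.card = n}) ⟨0, ∅, ⟨by simp, by simp⟩, rfl⟩
    (bdd_adm hA)

theorem cc_Sep_le (x y w : W) : cc a b (Sep cs x y) ≤ cc a b (Sep cs (x * w) (y * w)) := by
  classical
  obtain ⟨T, hT, e⟩ := exists_cc (a := a) (b := b) (finite_Sep (cs := cs) x y)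
  have inj : Function.Injective fun p : Rt cs × Rt cs => (w⁻¹ • p.1, w⁻¹ • p.2) := by
    intro p q h
    simp only [Prod.mk.injEq] at h
    exact Prod.ext (MulAction.injective _ h.1) (MulAction.injective _ h.2)
  rw [← e, ← Finset.card_image_of_injective T inj]
  apply card_le_cc (finite_Sep _ _)
  constructor
  · intro p hp
    obtain ⟨q, hq, rfl⟩ := Finset.mem_image.1 hp
    obtain ⟨⟨u, rfl⟩, h1, h2⟩ := hT.1 q hq
    refine ⟨⟨w⁻¹ * u, by simp [mul_smul]⟩, ?_, ?_⟩
    · simpa [Sep, mul_smul] using h1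
    · simpa [Sep, mul_smul] using h2
  · intro p hp q hq hne hs
    obtain ⟨p', hp', rfl⟩ := Finset.mem_image.1 hp
    obtain ⟨q', hq', rfl⟩ := Finset.mem_image.1 hq
    simp only [smul_le_iff]
    exact hT.2 p' hp' q' hq' (fun h => hne (h ▸ rfl)) ((sim_smul_iff _).1 hs)

theorem cc_Sep_mul (x y w : W) : cc a b (Sep cs (x * w) (y * w)) = cc a b (Sep cs x y) := by
  apply le_antisymm _ (cc_Sep_le x y w)
  simpa using cc_Sep_le (a := a) (b := b) (x * w) (y * w) w⁻¹

theorem Adm.lt (hab : b < a) {A : Set (Rt cs)} {T} (hT : Adm a b A T) {p} (hp : p ∈ T) :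
    p.2 < p.1 := by
  obtain ⟨⟨w, rfl⟩, -⟩ := hT.1 p hp
  exact (smul_lt_iff w).2 hab

theorem Adm.sim (hs : Sim a b) {A : Set (Rt cs)} {T} (hT : Adm a b A T) {p} (hp : p ∈ T) :
    Sim p.1 p.2 := by
  obtain ⟨⟨w, rfl⟩, -⟩ := hT.1 p hp
  exact hs.smul w

theorem Adm.filter {A A' : Set (Rt cs)} {T} (hT : Adm a b A T) (P : Rt cs × Rt cs → Prop)
    [DecidablePred P] (h : ∀ p ∈ T, P p → p.1 ∈ A' ∧ p.2 ∈ A') : Adm a b A' (T.filter P) := by
  constructor
  · intro p hp
    rw [Finset.mem_filter] at hp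
    exact ⟨(hT.1 p hp.1).1, h p hp.1 hp.2⟩
  · intro p hp q hq
    exact hT.2 p (Finset.mem_filter.1 hp).1 q (Finset.mem_filter.1 hq).1

theorem cc_split_le (hab : b < a) (x y z : W) :
    cc a b (Sep cs x y) ≤ cc a b (Sep cs x y ∩ Sep cs x z) + cc a b (Sep cs x y ∩ Sep cs z y) +
      Nat.card (Quotient (simS cs)) := by
  classical
  obtain ⟨T, hT, e⟩ := exists_cc (a := a) (b := b) (finite_Sep (cs := cs) x y)
  have h1 := card_le_cc ((finite_Sep x y).inter_of_left (Sep cs x z))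
    (hT.filter (fun p => ¬ Pos (z • p.1)) fun p hp h =>
      ⟨⟨(hT.1 p hp).2.1, (hT.1 p hp).2.1.1, h⟩, (hT.1 p hp).2.2, (hT.1 p hp).2.2.1,
        fun h' => h ((hT.lt hab hp).le z h')⟩)
  have h2 := card_le_cc ((finite_Sep x y).inter_of_left (Sep cs z y))
    (hT.filter (fun p => Pos (z • p.2)) fun p hp h =>
      ⟨⟨(hT.1 p hp).2.1, (hT.lt hab hp).le z h, (hT.1 p hp).2.1.2⟩, (hT.1 p hp).2.2, h,
        (hT.1 p hp).2.2.2⟩)
  have h3 : (T.filter fun p => Pos (z • p.1) ∧ ¬ Pos (z • p.2)).card ≤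
      Nat.card (Quotient (simS cs)) := by
    have := Fintype.ofFinite (Quotient (simS cs))
    rw [Nat.card_eq_fintype_card, ← Finset.card_univ]
    apply Finset.card_le_card_of_injOn (fun p => Quotient.mk (simS cs) p.1) (by simp)
    intro p hp q hq h
    simp only [Finset.coe_filter, Set.mem_ofPred_eq] at hp hq
    by_contra hne
    rcases hT.2 p hp.1 q hq.1 hne (Quotient.exact h) with h4 | h4
    · exact hp.2.2 (h4 z hq.2.1)
    · exact hq.2.2 (h4 z hp.2.1)
  have h4 : T ⊆ (T.filter fun p => ¬ Pos (z • p.1)) ∪ (T.filter fun p => Pos (z • p.2)) ∪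
      (T.filter fun p => Pos (z • p.1) ∧ ¬ Pos (z • p.2)) := by
    intro p hp
    simp only [Finset.mem_union, Finset.mem_filter]
    tauto
  have h5 := (Finset.card_le_card h4).trans ((Finset.card_union_le _ _).trans
    (Nat.add_le_add_right (Finset.card_union_le _ _) _))
  omega

theorem le_cc_split (hs : Sim a b) (x y z : W) :
    cc a b (Sep cs x y ∩ Sep cs x z) + cc a b (Sep cs x y ∩ Sep cs z y) ≤ cc a b (Sep cs x y) := by
  classical
  obtain ⟨T, hT, e⟩ := exists_cc (a := a) (b := b) ((finite_Sep x y).inter_of_left (Sep cs x z))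
  obtain ⟨T', hT', e'⟩ := exists_cc (a := a) (b := b) ((finite_Sep x y).inter_of_left (Sep cs z y))
  have key : ∀ p ∈ T, ∀ q ∈ T', Sim p.1 q.1 → p.1 ≤ q.2 := by
    intro p hp q hq h
    have p1 := (hT.1 p hp).2.1
    have q2 := (hT'.1 q hq).2.2
    refine ((h.trans (hT'.sim hs hq)).total p1.1.1 q2.1.1 p1.1.2 q2.1.2).resolve_right fun hc => ?_
    exact p1.2.2 (hc z q2.2.1)
  rw [← e, ← e', ← Finset.card_union_of_disjoint]
  · apply card_le_cc (finite_Sep _ _)
    constructor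
    · intro p hp
      rcases Finset.mem_union.1 hp with h | h
      · exact ⟨(hT.1 p h).1, (hT.1 p h).2.1.1, (hT.1 p h).2.2.1⟩
      · exact ⟨(hT'.1 p h).1, (hT'.1 p h).2.1.1, (hT'.1 p h).2.2.1⟩
    · intro p hp q hq hne h
      rcases Finset.mem_union.1 hp with h1 | h1 <;> rcases Finset.mem_union.1 hq with h2 | h2
      · exact hT.2 p h1 q h2 hne h
      · exact Or.inr (key p h1 q h2 h)
      · exact Or.inl (key q h2 p h1 h.symm)
      · exact hT'.2 p h1 q h2 hne h
  · rw [Finset.disjoint_left]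
    intro p h1 h2
    exact (hT.1 p h1).2.1.2.2 (hT'.1 p h2).2.1.2.1

variable (a b) in
/-- The antisymmetrised count. -/
noncomputable def FF (x y : W) : ℤ := (cc a b (Sep cs x y) : ℤ) - cc a b (Sep cs y x)

theorem FF_swap (x y : W) : FF a b x y = - FF a b y x := by simp [FF]

theorem FF_mul (x y w : W) : FF a b (x * w) (y * w) = FF a b x y := by
  simp only [FF, cc_Sep_mul]

theorem FF_tri (hab : b < a) (hs : Sim a b) (x y z : W) :
    FF a b x y + FF a b y z + FF a b z x ≤ 3 * (Nat.card (Quotient (simS cs)) : ℤ) := by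
  have h1 := cc_split_le hab x y z
  have h2 := cc_split_le hab y z x
  have h3 := cc_split_le hab z x y
  have h4 := le_cc_split hs y x z
  have h5 := le_cc_split hs z y x
  have h6 := le_cc_split hs x z y
  rw [Set.inter_comm (Sep cs y x) (Sep cs y z), Set.inter_comm (Sep cs y x)] at h4
  rw [Set.inter_comm (Sep cs z y) (Sep cs z x), Set.inter_comm (Sep cs z y)] at h5
  rw [Set.inter_comm (Sep cs x z) (Sep cs x y), Set.inter_comm (Sep cs x z)] at h6
  simp only [FF]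
  omega

theorem FF_le_rl (hab : b < a) (hs : Sim a b) (w : W) :
    FF a b 1 w ≤ 3 * (Nat.card (Quotient (simS cs)) : ℤ) * rl cs w := by
  obtain ⟨l, h1, h2, rfl⟩ := exists_list_rl cs w
  rw [← h1]
  clear h1
  induction l with
  | nil => simp [FF]
  | cons r l ih =>
    have ih := ih fun r hr => h2 r (List.mem_cons_of_mem _ hr)
    have hr := (h2 r List.mem_cons_self).mul_self
    have e1 : FF a b 1 r = 0 := by
      have := FF_mul (a := a) (b := b) 1 r r
      rw [hr, one_mul, FF_swap] at this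
      omega
    have e2 := FF_mul (a := a) (b := b) 1 r l.prod
    have e3 := FF_tri hab hs 1 (r * l.prod) l.prod
    rw [one_mul, e1] at e2
    rw [FF_swap (r * l.prod), FF_swap l.prod 1, e2] at e3
    rw [List.prod_cons, List.length_cons]
    push_cast
    linarith

theorem Ess.smono {g : W} {γ : Rt cs} (h : Ess g γ) : StrictMono fun n : ℕ => g⁻¹ ^ n • γ := by
  intro m n hmn
  have := (ess_inv_neg.2 h).anti hmn
  simpa only [smul_neg', neg_lt_iff] using this

theorem cc_lower {g : W} {α : Rt cs} (h : Ess g α) {K : ℕ} (hK : 0 < K) (n : ℕ) :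
    (n - 1) / K ≤ cc α (g ^ K • α) (Sep cs 1 (g ^ n)) := by
  classical
  obtain ⟨u, hu, h1, h2⟩ : ∃ u, Commute g u ∧ Pos (u • α) ∧ ¬ Pos (g • u • α) := by
    by_contra hc
    push Not at hc
    obtain ⟨m, hm⟩ := (h.ev_pos 1).exists
    rw [one_smul] at hm
    have c1 : Commute g (g⁻¹ ^ m) := (Commute.refl g).inv_right.pow_right m
    have : ∀ i : ℕ, Pos (g ^ i • g⁻¹ ^ m • α) := by
      intro i
      induction i with
      | zero => simpa using hm
      | succ i ih =>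
        have := hc (g ^ i * g⁻¹ ^ m) ((Commute.self_pow g i).mul_right c1) (by rwa [mul_smul])
        rwa [pow_succ', mul_smul, ← mul_smul (g ^ i)]
    obtain ⟨i, hi⟩ := ((h.comm c1).ev_neg 1).exists
    exact hi (by simpa using this i)
  have hδ := h.comm hu
  set δ := u • α with hδ'
  have mem : ∀ i, i + 1 ≤ n → g⁻¹ ^ i • δ ∈ Sep cs 1 (g ^ n) := by
    intro i hi
    constructor
    · have := hδ.smono.monotone (Nat.zero_le i)
      simp only [pow_zero, one_smul] at this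
      exact this 1 (by simpa using h1)
    · obtain ⟨j, rfl⟩ := Nat.exists_eq_add_of_le hi
      have e : g ^ (i + 1 + j) • g⁻¹ ^ i • δ = g ^ j • g • δ := by
        rw [smul_smul, smul_smul (g ^ j)]; congr 1; group
      rw [e]
      intro hc
      have := (hδ.comm (Commute.refl g)).pow_le j 1 (by simpa using hc)
      exact h2 (by simpa using this)
  let f : ℕ → Rt cs × Rt cs := fun j => (g⁻¹ ^ ((j + 1) * K) • δ, g⁻¹ ^ (j * K) • δ)
  have inj : Function.Injective f := by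
    intro i j hij
    have := hδ.smono.injective (congrArg Prod.snd hij)
    exact Nat.eq_of_mul_eq_mul_right hK this
  rw [← Finset.card_range ((n - 1) / K), ← Finset.card_image_of_injective _ inj]
  apply card_le_cc (finite_Sep _ _)
  constructor
  · intro p hp
    obtain ⟨j, hj, rfl⟩ := Finset.mem_image.1 hp
    rw [Finset.mem_range] at hj
    have h3 : (j + 1) * K ≤ n - 1 := (Nat.le_div_iff_mul_le hK).1 hj
    have h4 : 0 < (j + 1) * K := by positivity
    refine ⟨⟨g⁻¹ ^ ((j + 1) * K) * u, ?_⟩, mem _ (by omega), mem _ ?_⟩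
    · simp only [f, hδ', ← mul_smul]
      congr 2
      rw [mul_assoc, ← (hu.pow_left K).eq]; group
    · have : j * K ≤ (j + 1) * K := Nat.mul_le_mul_right K (Nat.le_succ j)
      omega
  · intro p hp q hq hne _
    obtain ⟨i, -, rfl⟩ := Finset.mem_image.1 hp
    obtain ⟨j, -, rfl⟩ := Finset.mem_image.1 hq
    rcases lt_trichotomy i j with h3 | h3 | h3
    · exact Or.inr (hδ.smono.monotone (Nat.mul_le_mul_right K h3))
    · exact absurd (h3 ▸ rfl) hne
    · exact Or.inl (hδ.smono.monotone (Nat.mul_le_mul_right K h3))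

theorem cc_upper {g : W} (hg : g ∈ W5 cs) (hab : b < a) (hs : Sim a b)
    (hno : ∀ u : W, Ess g (-(u • a)) → ¬ Ess g (-(u • b))) (n : ℕ) :
    cc a b (Sep cs (g ^ n) 1) ≤ 2 * (Sep cs 1 g).ncard := by
  classical
  obtain ⟨T, hT, e⟩ := exists_cc (a := a) (b := b) (finite_Sep (cs := cs) (g ^ n) 1)
  have hfin : {γ ∈ Sep cs 1 (g ^ n) | ¬ Ess g γ}.Finite := (finite_Sep _ _).subset fun _ h => h.1
  have neg : ∀ γ ∈ Sep cs (g ^ n) 1, -γ ∈ Sep cs 1 (g ^ n) := by
    intro γ hγ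
    simp only [Sep, Set.mem_ofPred_eq, smul_neg', pos_neg, not_not] at hγ ⊢
    exact hγ.symm
  have h1 : (T.filter fun p => ¬ Ess g (-p.1)).card ≤ (Sep cs 1 g).ncard := by
    refine le_trans ?_ (ncard_noness_le hg n)
    rw [← Set.ncard_coe_finset]
    apply Set.ncard_le_ncard_of_injOn (fun p => -p.1) _ _ hfin
    · intro p hp
      simp only [Finset.coe_filter, Set.mem_ofPred_eq] at hp
      exact ⟨neg _ (hT.1 p hp.1).2.1, hp.2⟩
    · intro p hp q hq h
      simp only [Finset.coe_filter, Set.mem_ofPred_eq] at hp hq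
      have h := neg_injective h
      by_contra hne
      rcases hT.2 p hp.1 q hq.1 hne (h ▸ Sim.refl _) with h4 | h4
      · exact absurd (h ▸ h4) (not_le_of_gt (hT.lt hab hp.1))
      · exact absurd (h ▸ h4) (not_le_of_gt (hT.lt hab hq.1))
  have h2 : (T.filter fun p => ¬ Ess g (-p.2)).card ≤ (Sep cs 1 g).ncard := by
    refine le_trans ?_ (ncard_noness_le hg n)
    rw [← Set.ncard_coe_finset]
    apply Set.ncard_le_ncard_of_injOn (fun p => -p.2) _ _ hfin
    · intro p hp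
      simp only [Finset.coe_filter, Set.mem_ofPred_eq] at hp
      exact ⟨neg _ (hT.1 p hp.1).2.2, hp.2⟩
    · intro p hp q hq h
      simp only [Finset.coe_filter, Set.mem_ofPred_eq] at hp hq
      have h := neg_injective h
      by_contra hne
      rcases hT.2 p hp.1 q hq.1 hne ((hT.sim hs hp.1).trans (h ▸ (hT.sim hs hq.1).symm))
        with h4 | h4
      · exact absurd (h ▸ h4) (not_le_of_gt (hT.lt hab hq.1))
      · exact absurd (h ▸ h4) (not_le_of_gt (hT.lt hab hp.1))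
  have h4 : T ⊆ (T.filter fun p => ¬ Ess g (-p.1)) ∪ (T.filter fun p => ¬ Ess g (-p.2)) := by
    intro p hp
    simp only [Finset.mem_union, Finset.mem_filter]
    obtain ⟨⟨u, rfl⟩, -⟩ := hT.1 p hp
    have := hno u
    tauto
  have h5 := (Finset.card_le_card h4).trans (Finset.card_union_le _ _)
  omega

theorem srl_lower {g : W} (hg : g ∈ W5 cs) {α : Rt cs} (h : Ess g α) {K : ℕ} (hK : 0 < K)
    (hno : ∀ u : W, Ess g (-(u • α)) → ¬ Ess g (-(u • g ^ K • α))) :
    1 / ((K : ℝ) * (3 * Nat.card (Quotient (simS cs)) + 1)) ≤ srl cs g := by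
  apply le_srl_of_lin cs (C := 1 + 2 * (Sep cs 1 g).ncard)
  intro n
  have hab : g ^ K • α < α := h.pow hK
  have hs : Sim α (g ^ K • α) := sim_smul (pow_mem hg K) α
  have h1 := cc_lower h hK n
  have h2 := cc_upper hg hab hs hno n
  have h3 := FF_le_rl hab hs (g ^ n)
  generalize Nat.card (Quotient (simS cs)) = N at *
  generalize (Sep cs 1 g).ncard = L at *
  have h4 : n ≤ ((n - 1) / K + 1) * K := by
    have := Nat.lt_div_mul_add (a := n - 1) hK
    rw [add_mul, one_mul]; omega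
  have h5 : (((n - 1) / K : ℕ) : ℤ) - 2 * L ≤ 3 * N * rl cs (g ^ n) := by
    simp only [FF] at h3; omega
  have h6 : (((n - 1) / K : ℕ) : ℝ) - 2 * L ≤ 3 * N * rl cs (g ^ n) := by exact_mod_cast h5
  have h7 : (n : ℝ) ≤ (((n - 1) / K : ℕ) + 1) * K := by exact_mod_cast h4
  generalize (((n - 1) / K : ℕ) : ℝ) = J at *
  have hK' : (0 : ℝ) < K := by exact_mod_cast hK
  have hN : (0 : ℝ) ≤ N := Nat.cast_nonneg _
  have hL : (0 : ℝ) ≤ L := Nat.cast_nonneg _
  have hr : (0 : ℝ) ≤ rl cs (g ^ n) := Nat.cast_nonneg _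
  rw [sub_le_iff_le_add, one_div, inv_mul_le_iff₀ (by positivity)]
  calc (n : ℝ) ≤ (J + 1) * K := h7
    _ ≤ ((3 * N + 1) * (rl cs (g ^ n) + (1 + 2 * L))) * K := by
      gcongr
      nlinarith [mul_nonneg hN hL]
    _ = _ := by ring

end Pool.Agent.Lib.MP_c2c03e_al
end
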