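import Pool.Agent.Lib.MP_c2c03e_al.QM

-- part Pool.Agent.Lib.MP_c2c03e_al.Cnt
section

/-! Counting along chains; the long overlap lemma. -/

set_option linter.unusedSectionVars false

namespace Pool.Agent.Lib.MP_c2c03e_al

open CoxeterSystem Filter

variable {B W : Type*} [Group W] [Fintype B] [DecidableEq B] {M : CoxeterMatrix B}
  {cs : CoxeterSystem M W}

/-- Half-open interval within a class. -/
def Itv (γ δ : Rt cs) : Set (Rt cs) := {ε | Sim γ ε ∧ δ < ε ∧ ε ≤ γ}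

theorem finite_Itv (γ δ : Rt cs) : (Itv γ δ).Finite :=
  (finite_Icc δ γ).subset fun _ h => ⟨h.2.1.le, h.2.2⟩

/-- Number of roots of the class in the half-open interval. -/
noncomputable def cnt (γ δ : Rt cs) : ℕ := (Itv γ δ).ncard

theorem cnt_add {γ δ η : Rt cs} (h : Sim γ δ) (h1 : δ ≤ γ) (h2 : η ≤ δ) :
    cnt γ η = cnt γ δ + cnt δ η := by
  rw [cnt, cnt, cnt, ← Set.ncard_union_eq _ (finite_Itv _ _) (finite_Itv _ _)]
  · congr 1
    ext ε
    simp only [Itv, Set.mem_ofPred_eq, Set.mem_union]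
    constructor
    · rintro ⟨a, b, c⟩
      rcases (h.symm.trans a).total' h2 b.le h1 c with h3 | h3
      · rcases h3.lt_or_eq with h4 | h4
        · exact Or.inl ⟨a, h4, c⟩
        · exact Or.inr ⟨h.symm.trans a, b, h4.ge⟩
      · exact Or.inr ⟨h.symm.trans a, b, h3⟩
    · rintro (⟨a, b, c⟩ | ⟨a, b, c⟩)
      · exact ⟨a, h2.trans_lt b, c⟩
      · exact ⟨h.trans a, b, c.trans h1⟩
  · rw [Set.disjoint_left]
    intro ε a b
    exact absurd b.2.2 (not_le_of_gt a.2.1)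

theorem cnt_eq_zero {γ δ : Rt cs} (h : γ ≤ δ) : cnt γ δ = 0 := by
  have : Itv γ δ = ∅ := by
    ext ε
    simp only [Itv, Set.mem_ofPred_eq, Set.mem_empty_iff_false, iff_false]
    rintro ⟨-, b, c⟩
    exact absurd (c.trans h) (not_le_of_gt b)
  rw [cnt, this, Set.ncard_empty]

theorem cnt_pos {γ δ : Rt cs} (h : δ < γ) : 0 < cnt γ δ :=
  (Set.ncard_pos (finite_Itv _ _)).2 ⟨γ, Sim.refl _, h, le_rfl⟩

theorem cnt_smul (w : W) (γ δ : Rt cs) : cnt (w • γ) (w • δ) = cnt γ δ := by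
  rw [cnt, cnt, ← Set.ncard_image_of_injective (Itv γ δ) (MulAction.injective w)]
  congr 1
  ext ε
  constructor
  · rintro ⟨a, b, c⟩
    refine ⟨w⁻¹ • ε, ⟨?_, ?_, ?_⟩, by simp⟩
    · rw [← sim_smul_iff w]; simpa using a
    · rw [← smul_lt_iff w]; simpa using b
    · rw [← smul_le_iff w]; simpa using c
  · rintro ⟨η, ⟨a, b, c⟩, rfl⟩
    exact ⟨a.smul w, (smul_lt_iff w).2 b, (smul_le_iff w).2 c⟩

theorem cnt_neg {γ δ : Rt cs} (h : Sim γ δ) (hlt : δ < γ) : cnt (-δ) (-γ) = cnt γ δ := by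
  rw [cnt, cnt, ← Set.ncard_image_of_injective (Itv (-δ) (-γ)) neg_injective]
  have e : insert γ (Neg.neg '' Itv (-δ) (-γ)) = insert δ (Itv γ δ) := by
    ext ε
    simp only [Set.mem_insert_iff, Set.mem_image, Itv, Set.mem_ofPred_eq]
    constructor
    · rintro (rfl | ⟨η, ⟨a, b, c⟩, rfl⟩)
      · exact Or.inr ⟨Sim.refl _, hlt, le_rfl⟩
      · have c' : δ ≤ -η := by rw [← neg_le_iff]; simpa using c
        have b' : -η < γ := by rw [← neg_lt_iff]; simpa using b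
        rcases c'.lt_or_eq with h1 | h1
        · exact Or.inr ⟨(h.neg_right.trans a).neg_right, h1, b'.le⟩
        · exact Or.inl h1.symm
    · rintro (rfl | ⟨a, b, c⟩)
      · exact Or.inr ⟨-ε, ⟨Sim.refl _, neg_lt_iff.2 hlt, le_rfl⟩, neg_neg _⟩
      · rcases c.lt_or_eq with h1 | h1
        · exact Or.inr ⟨-ε, ⟨(h.symm.trans a).neg_left.neg_right, neg_lt_iff.2 h1,
            neg_le_iff.2 b.le⟩, neg_neg _⟩
        · exact Or.inl h1
  have h1 := congrArg Set.ncard e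
  rw [Set.ncard_insert_of_notMem _ ((finite_Itv _ _).image _),
    Set.ncard_insert_of_notMem _ (finite_Itv _ _)] at h1
  · omega
  · exact fun hc => lt_irrefl _ hc.2.1
  · rintro ⟨η, ⟨-, b, -⟩, rfl⟩
    simp at b

/-- Signed distance. -/
noncomputable def dd (γ δ : Rt cs) : ℤ := (cnt γ δ : ℤ) - cnt δ γ

theorem dd_smul (w : W) (γ δ : Rt cs) : dd (w • γ) (w • δ) = dd γ δ := by
  simp only [dd, cnt_smul]

theorem dd_of_le {γ δ : Rt cs} (h : δ ≤ γ) : dd γ δ = cnt γ δ := by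
  simp [dd, cnt_eq_zero h]

theorem dd_swap (γ δ : Rt cs) : dd γ δ = - dd δ γ := by simp [dd]

theorem dd_self (γ : Rt cs) : dd γ γ = 0 := by simp [dd]

theorem dd_pos {γ δ : Rt cs} (h : δ < γ) : 0 < dd γ δ := by
  rw [dd_of_le h.le]; exact_mod_cast cnt_pos h

theorem dd_top {t a b : Rt cs} (h1 : Sim t a) (h2 : Sim t b) (ha : a ≤ t) (hb : b ≤ t)
    (hab : a ≤ b ∨ b ≤ a) : dd a b = (cnt t b : ℤ) - cnt t a := by
  rcases hab with h | h
  · rw [dd_swap, dd_of_le h, cnt_add h2 hb h]; push_cast; ring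
  · rw [dd_of_le h, cnt_add h1 ha h]; push_cast; ring

theorem dd_add {g : W} {a b c : Rt cs} (ha : Ess g a) (hb : Ess g b) (hc : Ess g c)
    (hab : Sim a b) (hac : Sim a c) : dd a b + dd b c = dd a c := by
  have t1 := ha.total hb hab
  have t2 := ha.total hc hac
  have t3 := hb.total hc (hab.symm.trans hac)
  obtain ⟨t, s, x, y, z⟩ : ∃ t, Sim t a ∧ a ≤ t ∧ b ≤ t ∧ c ≤ t := by
    rcases t1 with h1 | h1 <;> rcases t2 with h2 | h2 <;> rcases t3 with h3 | h3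
    exacts [⟨c, hac.symm, h2, h3, le_rfl⟩, ⟨b, hab.symm, h1, le_rfl, h3⟩,
      ⟨c, hac.symm, h1.trans h3, h3, le_rfl⟩, ⟨b, hab.symm, h1, le_rfl, h3⟩,
      ⟨c, hac.symm, h2, h3, le_rfl⟩, ⟨a, Sim.refl _, le_rfl, h1, h3.trans h1⟩,
      ⟨a, Sim.refl _, le_rfl, h1, h2⟩, ⟨a, Sim.refl _, le_rfl, h1, h2⟩]
  rw [dd_top s (s.trans hab) x y t1, dd_top (s.trans hab) (s.trans hac) y z t3,
    dd_top s (s.trans hac) x z t2]
  ring

theorem le_of_dd_nonneg {g : W} {a b : Rt cs} (ha : Ess g a) (hb : Ess g b) (hab : Sim a b)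
    (h : 0 ≤ dd a b) : b ≤ a := by
  rcases ha.total hb hab with h1 | h1
  · rcases h1.lt_or_eq with h2 | h2
    · have := dd_pos h2
      rw [dd_swap] at h; omega
    · exact h2.ge
  · exact h1

theorem eq_of_dd {g : W} {β a b : Rt cs} (hβ : Ess g β) (ha : Ess g a) (hb : Ess g b)
    (h1 : Sim β a) (h2 : Sim β b) (h : dd β a = dd β b) : a = b := by
  have e := dd_add hβ ha hb h1 h2
  have s := h1.symm.trans h2
  apply le_antisymm
  · exact le_of_dd_nonneg hb ha s.symm (by rw [dd_swap]; omega)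
  · exact le_of_dd_nonneg ha hb s (by omega)

/-- An element `k` of the congruence subgroup preserving the chain shifts it. -/
theorem dd_step {g k : W} (hk : k ∈ W5 cs) {β ε : Rt cs} (hβ : Ess g β) (_hε : Ess g ε)
    (hβ' : Ess g (k • β)) (hε' : Ess g (k • ε)) (h : Sim β ε) :
    dd β (k • ε) = dd β ε + dd β (k • β) := by
  rw [← dd_add hβ hβ' hε' (sim_smul hk β) (h.trans (sim_smul hk ε)), dd_smul, add_comm]

theorem dd_zpow {g : W} (hg : g ∈ W5 cs) {β ε : Rt cs} (hβ : Ess g β) (hε : Ess g ε)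
    (h : Sim β ε) (m : ℤ) : dd β (g ^ m • ε) = dd β ε + m * dd β (g • β) := by
  have E : ∀ m : ℤ, Ess g (g ^ m • ε) := fun m => hε.comm (Commute.self_zpow g m)
  have S : ∀ m : ℤ, Sim β (g ^ m • ε) := fun m => h.trans (sim_smul (zpow_mem hg m) ε)
  have step : ∀ m : ℤ, dd β (g ^ (m + 1) • ε) = dd β (g ^ m • ε) + dd β (g • β) := by
    intro m
    rw [add_comm m, zpow_add, zpow_one, mul_smul]
    exact dd_step hg hβ (E m) (hβ.comm (Commute.refl g)) ((E m).comm (Commute.refl g)) (S m)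
  induction m using Int.induction_on with
  | zero => simp
  | succ i ih => rw [step, ih]; ring
  | pred i ih =>
    have := step (-(i : ℤ) - 1)
    rw [sub_add_cancel, ih] at this
    linarith

theorem dd_pow {g : W} (hg : g ∈ W5 cs) {β ε : Rt cs} (hβ : Ess g β) (hε : Ess g ε)
    (h : Sim β ε) (m : ℕ) : dd β (g ^ m • ε) = dd β ε + m * dd β (g • β) := by
  simpa using dd_zpow hg hβ hε h m

theorem propagate {a b : W} (ha : a ∈ W5 cs) {β : Rt cs} (hβ : Ess a β)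
    {Y : Submodule ℝ (B → ℝ)} (hY : ∀ v ∈ Y, rho cs a v ∈ Y)
    (hc : ∀ v ∈ Y, rho cs a (rho cs b v) = rho cs b (rho cs a v))
    (h0 : ∀ ε, Ess a ε → Sim β ε → 0 ≤ dd β ε → dd β ε < dd β (a • β) → ε.1 ∈ Y ∧ Ess b ε)
    {ε : Rt cs} (h1 : Ess a ε) (h2 : Sim β ε) : Ess b ε := by
  have hY' : ∀ v ∈ Y, rho cs a⁻¹ v ∈ Y := by
    intro v hv
    have e : Y.map (rho cs a) = Y := by
      apply Submodule.eq_of_le_of_finrank_eq
      · rintro _ ⟨u, hu, rfl⟩; exact hY u hu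
      · exact (LinearEquiv.finrank_eq
          (Submodule.equivMapOfInjective _ (rho_injective cs a) Y)).symm
    rw [← e] at hv
    obtain ⟨u, hu, rfl⟩ := hv
    rwa [rho_inv_self]
  have hp : 0 < dd β (a • β) := dd_pos hβ
  set p := dd β (a • β) with hp'
  set m := dd β ε / p with hm
  set ε₀ := a ^ (-m) • ε with hε₀
  have e0 : dd β ε₀ = dd β ε % p := by
    rw [hε₀, dd_zpow ha hβ h1 h2, ← hp', Int.emod_def, hm]; ring
  have b0 := h0 ε₀ (h1.comm (Commute.self_zpow a _)) (h2.trans (sim_smul (zpow_mem ha _) ε))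
    (by rw [e0]; exact Int.emod_nonneg _ hp.ne') (by rw [e0]; exact Int.emod_lt_of_pos _ hp)
  have key : ∀ i : ℤ, (a ^ i • ε₀).1 ∈ Y ∧ Ess b (a ^ i • ε₀) := by
    intro i
    induction i using Int.induction_on with
    | zero => simpa using b0
    | succ i ih =>
      rw [add_comm, zpow_add, zpow_one, mul_smul]
      refine ⟨hY _ ih.1, ?_⟩
      have : b • a • a ^ (i : ℤ) • ε₀ = a • b • a ^ (i : ℤ) • ε₀ := Rt.ext (hc _ ih.1).symm
      rw [Ess, this, smul_lt_iff]; exact ih.2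
    | pred i ih =>
      rw [sub_eq_add_neg, add_comm, zpow_add, zpow_neg_one, mul_smul]
      have h3 := hY' _ ih.1
      refine ⟨h3, ?_⟩
      have : a • b • a⁻¹ • a ^ (-i : ℤ) • ε₀ = b • a • a⁻¹ • a ^ (-i : ℤ) • ε₀ :=
        Rt.ext (hc _ h3)
      rw [Ess, ← smul_lt_iff a, this, smul_inv_smul]; exact ih.2
  have := (key m).2
  rwa [hε₀, ← mul_smul, ← zpow_add, add_neg_cancel, zpow_zero, one_smul] at this

theorem overlap {g k : W} (hg : g ∈ W5 cs) (hk : k ∈ W5 cs) {β : Rt cs} (hkβ : Ess k β)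
    (hgβ : Ess g β) (hgβ' : Ess g (k ^ (Fintype.card B + 3) • β))
    (hpq : dd β (g • β) ≤ dd β (k • β)) {γ : Rt cs} (hγ : Sim β γ) : Ess g γ ↔ Ess k γ := by
  set K := Fintype.card B + 3 with hK
  set p := dd β (g • β) with hp
  set q := dd β (k • β) with hq
  have hp0 : 0 < p := dd_pos hgβ
  have hkβ' : Ess k (k ^ K • β) := hkβ.comm (Commute.self_pow k K)
  have sK : Sim β (k ^ K • β) := sim_smul (pow_mem hk K) β
  have dK : dd β (k ^ K • β) = K * q := by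
    rw [dd_pow hk hkβ hkβ (Sim.refl _), dd_self, zero_add]
  have seg : ∀ {a b : W}, b ∈ W5 cs → Ess a β → Ess a (k ^ K • β) → Ess b β → Ess b (k ^ K • β) →
      ∀ ε, Ess a ε → Sim β ε → 0 ≤ dd β ε → dd β ε ≤ K * q → Ess b ε := by
    intro a b hb a1 a2 b1 b2 ε h1 h2 h3 h4
    refine Ess.convex hb b1 b2 ?_ (le_of_dd_nonneg a1 h1 h2 h3)
    apply le_of_dd_nonneg h1 a2 (h2.symm.trans sK)
    have := dd_add a1 h1 a2 h2 sK
    omega
  have seg1 := seg hk hgβ hgβ' hkβ hkβ'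
  have seg2 := seg hg hkβ hkβ' hgβ hgβ'
  have sg : ∀ ε, Ess g ε → Sim β ε → dd β (g • ε) = dd β ε + p := fun ε h1 h2 =>
    dd_step hg hgβ h1 (hgβ.comm (Commute.refl g)) (h1.comm (Commute.refl g)) h2
  have sk : ∀ ε, Ess k ε → Sim β ε → dd β (k • ε) = dd β ε + q := fun ε h1 h2 =>
    dd_step hk hkβ h1 (hkβ.comm (Commute.refl k)) (h1.comm (Commute.refl k)) h2
  let T : ℕ → Set (B → ℝ) := fun j =>
    {v | ∃ ε : Rt cs, ε.1 = v ∧ Ess g ε ∧ Ess k ε ∧ Sim β ε ∧ 0 ≤ dd β ε ∧ dd β ε ≤ j * q}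
  let Y : ℕ → Submodule ℝ (B → ℝ) := fun j => Submodule.span ℝ (T j)
  have mono : ∀ j, Y j ≤ Y (j + 1) := by
    intro j
    apply Submodule.span_mono
    rintro v ⟨ε, e, h1, h2, h3, h4, h5⟩
    exact ⟨ε, e, h1, h2, h3, h4, by push_cast; nlinarith⟩
  obtain ⟨j, hj1, hj2, hj⟩ : ∃ j, 1 ≤ j ∧ j + 2 ≤ K ∧ Y j = Y (j + 1) := by
    by_contra hc
    push Not at hc
    have : ∀ i, i + 2 ≤ K → i ≤ Module.finrank ℝ (Y (i + 1)) := by
      intro i
      induction i with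
      | zero => simp
      | succ i ih =>
        intro hi
        have := Submodule.finrank_lt_finrank_of_lt
          (lt_of_le_of_ne (mono (i + 1)) (hc (i + 1) (by omega) (by omega)))
        have := ih (by omega)
        omega
    have h1 := this (Fintype.card B + 1) (by omega)
    have h2 := Submodule.finrank_le (Y (Fintype.card B + 1 + 1))
    rw [Module.finrank_fintype_fun_eq_card] at h2
    omega
  have hjK : ((j : ℤ) + 2) * q ≤ K * q := by
    have : (j : ℤ) + 2 ≤ K := by exact_mod_cast hj2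
    nlinarith
  have hj1' : (1 : ℤ) ≤ j := by exact_mod_cast hj1
  have invg : ∀ v ∈ Y j, rho cs g v ∈ Y j := by
    intro v hv
    have : Y j ≤ (Y (j + 1)).comap (rho cs g) := by
      apply Submodule.span_le.2
      rintro _ ⟨ε, rfl, h1, h2, h3, h4, h5⟩
      have e := sg ε h1 h3
      have h6 := h1.comm (Commute.refl g)
      have h7 := h3.trans (sim_smul hg ε)
      exact Submodule.subset_span ⟨g • ε, rfl, h6, seg1 _ h6 h7 (by omega) (by nlinarith), h7,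
        by omega, by push_cast; nlinarith⟩
    rw [hj]; exact this hv
  have invk : ∀ v ∈ Y j, rho cs k v ∈ Y j := by
    intro v hv
    have : Y j ≤ (Y (j + 1)).comap (rho cs k) := by
      apply Submodule.span_le.2
      rintro _ ⟨ε, rfl, h1, h2, h3, h4, h5⟩
      have e := sk ε h2 h3
      have h6 := h2.comm (Commute.refl k)
      have h7 := h3.trans (sim_smul hk ε)
      exact Submodule.subset_span ⟨k • ε, rfl, seg2 _ h6 h7 (by omega) (by nlinarith), h6, h7,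
        by omega, by push_cast; nlinarith⟩
    rw [hj]; exact this hv
  have com : ∀ v ∈ Y j, rho cs g (rho cs k v) = rho cs k (rho cs g v) := by
    intro v hv
    refine LinearMap.eqOn_span (f := (rho cs g).comp (rho cs k)) (g := (rho cs k).comp (rho cs g))
      ?_ hv
    rintro _ ⟨ε, rfl, h1, h2, h3, h4, h5⟩
    have e1 := sg ε h1 h3
    have e2 := sk ε h2 h3
    have s1 := h3.trans (sim_smul hg ε)
    have s2 := h3.trans (sim_smul hk ε)
    have a1 : Ess k (g • ε) := seg1 _ (h1.comm (Commute.refl g)) s1 (by omega) (by nlinarith)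
    have a2 : Ess g (k • ε) := seg2 _ (h2.comm (Commute.refl k)) s2 (by omega) (by nlinarith)
    have e3 := sg _ a2 s2
    have e4 := sk _ a1 s1
    have s3 := s2.trans (sim_smul hg _)
    have s4 := s1.trans (sim_smul hk _)
    have a3 : Ess k (g • k • ε) :=
      seg1 _ (a2.comm (Commute.refl g)) s3 (by omega) (by nlinarith)
    have := eq_of_dd hkβ a3 (a1.comm (Commute.refl k)) s3 s4 (by omega)
    exact congrArg Subtype.val this
  constructor
  · intro h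
    refine propagate hg hgβ invg com (fun ε h1 h2 h3 h4 => ?_) h hγ
    have h5 := seg1 ε h1 h2 h3 (by nlinarith)
    exact ⟨Submodule.subset_span ⟨ε, rfl, h1, h5, h2, h3, by nlinarith⟩, h5⟩
  · intro h
    refine propagate hk hkβ invk (fun v hv => (com v hv).symm) (fun ε h1 h2 h3 h4 => ?_) h hγ
    have h5 := seg2 ε h1 h2 h3 (by nlinarith)
    exact ⟨Submodule.subset_span ⟨ε, rfl, h5, h1, h2, h3, by nlinarith⟩, h5⟩

end Pool.Agent.Lib.MP_c2c03e_al
end

-- part Pool.Agent.Lib.MP_c2c03e_al.Step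
section

/-! The reduction step and the gap. -/

set_option linter.unusedSectionVars false

namespace Pool.Agent.Lib.MP_c2c03e_al

open CoxeterSystem Filter

variable {B W : Type*} [Group W] [Fintype B] [DecidableEq B] {M : CoxeterMatrix B}
  {cs : CoxeterSystem M W}

/-- Differences of essential roots of one class. -/
def Dif (g : W) (α : Rt cs) : Set (B → ℝ) :=
  {v | ∃ γ δ : Rt cs, Ess g γ ∧ Ess g δ ∧ Sim α γ ∧ Sim α δ ∧ δ ≤ γ ∧ v = γ.1 - δ.1}

theorem Dif.good {g : W} {α : Rt cs} {v : B → ℝ} (h : v ∈ Dif g α) : Good cs v := by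
  obtain ⟨γ, δ, -, -, h1, h2, h3, rfl⟩ := h
  exact (h1.symm.trans h2).good h3

theorem Dif.rho {g f : W} (hf : f ∈ W5 cs) (hc : Commute g f) {α : Rt cs} {v : B → ℝ}
    (h : v ∈ Dif g α) : rho cs f v ∈ Dif g α := by
  obtain ⟨γ, δ, h1, h2, h3, h4, h5, rfl⟩ := h
  exact ⟨f • γ, f • δ, h1.comm hc, h2.comm hc, h3.trans (sim_smul hf γ), h4.trans (sim_smul hf δ),
    (smul_le_iff f).2 h5, map_sub _ _ _⟩

theorem normalizes {g f : W} (hf : f ∈ W5 cs) (hc : Commute g f) {α : Rt cs} {z : B → ℝ}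
    (hz : ∀ h, h ∈ Stab cs z ↔ ∀ v ∈ Dif g α, h ∈ Stab cs v) :
    ∀ h ∈ Stab cs z, f * h * f⁻¹ ∈ Stab cs z := by
  intro h hh
  rw [hz] at hh ⊢
  intro v hv
  have := (mem_Stab cs).1 (hh _ (Dif.rho (inv_mem hf) hc.inv_right hv))
  rw [mem_Stab, rho_mul, rho_mul, this, rho_self_inv]

/-- Splitting data. -/
structure Spl (cs : CoxeterSystem M W) (z : B → ℝ) (G h x : W) : Prop where
  good : Good cs z
  hS : h ∈ Stab cs z
  h5 : h ∈ W5 cs
  x5 : x ∈ W5 cs
  eq : G = h * x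
  fix : ∀ γ : Rt cs, bf M z γ.1 = 0 → x • γ = γ
  comm : ∀ f ∈ Stab cs z, Commute x f

theorem exists_spl {g : W} (hg : g ∈ W5 cs) {α : Rt cs} {z : B → ℝ} (hgz : Good cs z)
    (hz : ∀ h, h ∈ Stab cs z ↔ ∀ v ∈ Dif g α, h ∈ Stab cs v) :
    ∃ h x, Spl cs z (g ^ (Fintype.card (Equiv.Perm B) * (W5 cs).index)) h x := by
  have := W5_normal (cs := cs)
  obtain ⟨h, hh, x, e, h1, h2⟩ := split_good hgz (normalizes hg (Commute.refl g) hz)
    (by simpa using normalizes (inv_mem hg) (Commute.refl g).inv_right hz)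
  refine ⟨h ^ (W5 cs).index, x ^ (W5 cs).index, hgz, pow_mem hh _, (W5 cs).pow_index_mem h,
    (W5 cs).pow_index_mem x, by rw [pow_mul, e, (h2 h hh).symm.mul_pow], fun γ hγ => ?_,
    fun f hf => (h2 f hf).pow_left _⟩
  exact MulAction.mem_stabilizer_iff.1 (pow_mem (MulAction.mem_stabilizer_iff.2
    (Rt.ext (h1 _ γ.2 hγ))) _)

theorem Spl.fix_of_ess {z : B → ℝ} {G h x : W} (S : Spl cs z G h x) {y : W} (hy : y = x ∨ y = x⁻¹)
    {γ : Rt cs} (hγ : Ess y γ) {f : W} (hf : f ∈ Stab cs z) (hf5 : f ∈ W5 cs) : f • γ = γ := by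
  have c : Commute y f := by
    rcases hy with rfl | rfl
    · exact S.comm f hf
    · exact (S.comm f hf).inv_left
  have np : bf M z γ.1 ≠ 0 := by
    intro h0
    apply ne_of_lt hγ
    rcases hy with rfl | rfl
    · exact S.fix γ h0
    · rw [inv_smul_eq_iff, S.fix γ h0]
  by_contra hne
  rcases hγ.total (hγ.comm c) (sim_smul hf5 γ) with h1 | h1
  · exact np ((ess_inv.2 (lt_of_le_of_ne h1 (Ne.symm hne))).perp S.good (inv_mem hf))
  · exact np (Ess.perp S.good hf (lt_of_le_of_ne h1 hne))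

theorem Spl.ess_x {z : B → ℝ} {G h x : W} (S : Spl cs z G h x) {γ : Rt cs} (hγ : Ess G γ)
    (h0 : bf M z γ.1 ≠ 0) : Ess x γ := by
  have c := S.comm h S.hS
  have cG : Commute G x := by rw [S.eq]; exact c.symm.mul_left (Commute.refl x)
  rcases hγ.total (hγ.comm cG) (sim_smul S.x5 γ) with h1 | h1
  · exfalso
    rcases h1.lt_or_eq with h2 | h2
    · have h3 := S.fix_of_ess (Or.inr rfl) (ess_inv.2 h2) S.hS S.h5
      rw [Ess, S.eq, ← c.eq, mul_smul, h3] at hγ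
      exact lt_asymm h2 hγ
    · rw [Ess, S.eq, mul_smul, ← h2] at hγ
      exact h0 (Ess.perp S.good S.hS hγ)
  · refine lt_of_le_of_ne h1 fun h2 => ?_
    rw [Ess, S.eq, mul_smul, h2] at hγ
    exact h0 (Ess.perp S.good S.hS hγ)

theorem Spl.dich {z : B → ℝ} {G h x : W} (S : Spl cs z G h x) {γ₀ : Rt cs} (hγ₀ : Ess G γ₀)
    (h0 : bf M z γ₀.1 ≠ 0) {γ : Rt cs} (hγ : Ess G γ) (hs : Sim γ₀ γ) : bf M z γ.1 ≠ 0 := by
  intro hc
  have hG : G ∈ W5 cs := S.eq ▸ mul_mem S.h5 S.x5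
  have h1 := S.fix_of_ess (Or.inl rfl) (S.ess_x hγ₀ h0) S.hS S.h5
  have h2 : G • γ = h • γ := by rw [S.eq, mul_smul, S.fix γ hc]
  have h3 := dd_add hγ₀ hγ (hγ.comm (Commute.refl G)) hs (hs.trans (sim_smul hG γ))
  have h4 := dd_pos hγ
  have h5 := dd_smul h γ₀ γ
  rw [h1, ← h2] at h5
  omega

theorem Spl.fix_dif {z : B → ℝ} {g h x : W} {n : ℕ} (hn : 0 < n) (S : Spl cs z (g ^ n) h x)
    {α γ₀ : Rt cs} (hγ₀ : Ess g γ₀) (hs : Sim α γ₀) (h0 : bf M z γ₀.1 ≠ 0) {f : W}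
    (hf : f ∈ Stab cs z) (hf5 : f ∈ W5 cs) : ∀ v ∈ Dif g α, f ∈ Stab cs v := by
  rintro _ ⟨γ, δ, h1, h2, h3, h4, -, rfl⟩
  have k : ∀ γ : Rt cs, Ess g γ → Sim α γ → f • γ = γ := fun γ h1 h3 =>
    S.fix_of_ess (Or.inl rfl) (S.ess_x (h1.pow hn)
      (S.dich (hγ₀.pow hn) h0 (h1.pow hn) (hs.symm.trans h3))) hf hf5
  rw [mem_Stab, map_sub, ← smul_val, ← smul_val, k γ h1 h3, k δ h2 h4]

theorem exists_not_perp {g : W} {α : Rt cs} {z y : B → ℝ}
    (hy : y ∈ Submodule.span ℝ (Dif g α))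
    (hn : y ∉ Submodule.span ℝ {v | IsRoot cs v ∧ bf M z v = 0}) :
    ∃ γ : Rt cs, Ess g γ ∧ Sim α γ ∧ bf M z γ.1 ≠ 0 := by
  by_contra hc
  push Not at hc
  refine hn (Submodule.span_le.2 ?_ hy)
  rintro _ ⟨γ, δ, h1, h2, h3, h4, -, rfl⟩
  exact sub_mem (Submodule.subset_span ⟨γ.2, hc γ h1 h3⟩) (Submodule.subset_span ⟨δ.2, hc δ h2 h4⟩)

theorem red_rev {g : W} (hg : g ∈ W5 cs) {α : Rt cs} {u : W} {β : Rt cs} (hβ : Sim (u • α) β)
    (hgβ : Ess g β) (hov : ∀ γ, Sim β γ → (Ess g γ ↔ Ess (u * g⁻¹ * u⁻¹) γ))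
    {z : B → ℝ} (hgz : Good cs z) (hsp : z ∈ Submodule.span ℝ (Dif g α))
    (hz : ∀ h, h ∈ Stab cs z ↔ ∀ v ∈ Dif g α, h ∈ Stab cs v)
    {γ₀ : Rt cs} (hγ₀ : Ess g γ₀) (hs₀ : Sim α γ₀) (h0 : bf M z γ₀.1 ≠ 0) :
    Red g α (Fintype.card (Equiv.Perm B) * (W5 cs).index) := by
  have := W5_finiteIndex (cs := cs)
  set n := Fintype.card (Equiv.Perm B) * (W5 cs).index with hn'
  have hn : 0 < n := Nat.mul_pos Fintype.card_pos
    (Nat.pos_of_ne_zero Subgroup.FiniteIndex.index_ne_zero)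
  set k := u * g⁻¹ * u⁻¹ with hk'
  have hk : k ∈ W5 cs := W5_normal.conj_mem _ (inv_mem hg) u
  have tr : ∀ γ : Rt cs, Sim α γ → (Ess g γ ↔ Ess g (-(u • γ))) := by
    intro γ hs
    rw [hov _ (hβ.symm.trans (hs.smul u).neg_right), ← smul_neg', ess_conj, ess_inv_neg]
  have D1 : ∀ v ∈ Dif g α, rho cs u v ∈ Dif g β := by
    rintro _ ⟨γ, δ, h1, h2, h3, h4, h5, rfl⟩
    refine ⟨-(u • δ), -(u • γ), (tr δ h4).1 h2, (tr γ h3).1 h1,
      hβ.symm.trans (h4.smul u).neg_right, hβ.symm.trans (h3.smul u).neg_right,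
      neg_le_iff.2 ((smul_le_iff u).2 h5), ?_⟩
    simp only [neg_val, smul_val, map_sub]; abel
  have D2 : ∀ v ∈ Dif g β, rho cs u⁻¹ v ∈ Dif g α := by
    rintro _ ⟨γ, δ, h1, h2, h3, h4, h5, rfl⟩
    have s : ∀ γ : Rt cs, Sim β γ → Sim α (-(u⁻¹ • γ)) := fun γ h => by
      simpa using ((hβ.trans h).smul u⁻¹).neg_right
    refine ⟨-(u⁻¹ • δ), -(u⁻¹ • γ), (tr _ (s δ h4)).2 (by simpa [smul_neg'] using h2),
      (tr _ (s γ h3)).2 (by simpa [smul_neg'] using h1), s δ h4, s γ h3,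
      neg_le_iff.2 ((smul_le_iff _).2 h5), ?_⟩
    simp only [neg_val, smul_val, map_sub]; abel
  set z' := rho cs u z with hz''
  have hgz' : Good cs z' := hgz.rho u
  have hsp' : z' ∈ Submodule.span ℝ (Dif g β) := by
    have : Submodule.span ℝ (Dif g α) ≤ (Submodule.span ℝ (Dif g β)).comap (rho cs u) :=
      Submodule.span_le.2 fun v hv => Submodule.subset_span (D1 v hv)
    exact this hsp
  have hz' : ∀ h, h ∈ Stab cs z' ↔ ∀ v ∈ Dif g β, h ∈ Stab cs v := by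
    intro h
    rw [hz'', conj_mem_Stab, hz]
    constructor
    · intro h1 v hv
      have := h1 _ (D2 v hv)
      rwa [← conj_mem_Stab, rho_self_inv] at this
    · intro h1 v hv
      rw [← conj_mem_Stab]; exact h1 _ (D1 v hv)
  obtain ⟨h, x, S⟩ := exists_spl hg hgz hz
  obtain ⟨h', y, S'⟩ := exists_spl hg hgz' hz'
  rw [← hn'] at S S'
  have hu : u ∉ Stab cs z := by
    intro hu
    have e : z' = z := hu
    have h2 : bf M z (-(u • γ₀)).1 ≠ 0 := by
      rw [neg_val, map_neg, smul_val, ← e, hz'', bf_rho]; simpa using h0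
    have a1 := S.ess_x (hγ₀.pow hn) h0
    have a2 := S.ess_x (((tr γ₀ hs₀).1 hγ₀).pow hn) h2
    rw [← ess_inv_neg, neg_neg, ess_inv, ← mul_smul, (S.comm u hu).eq, mul_smul,
      smul_lt_iff] at a2
    exact lt_asymm a1 a2
  obtain ⟨γ₁, a1, a2, a3⟩ := exists_not_perp (z := z) hsp' fun hc => hu (mem_Stab_of_span hgz hc)
  obtain ⟨γ₂, b1, b2, b3⟩ := exists_not_perp (z := z') hsp fun hc => hu (by
    have := mem_Stab_of_span hgz' (u := u⁻¹) (by rwa [hz'', rho_inv_self])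
    rw [mem_Stab, hz'', rho_inv_self] at this
    exact this.symm)
  have hh : h ∈ Stab cs z' := (hz' h).2 (S.fix_dif hn a1 a2 a3 S.hS S.h5)
  have hh' : h' ∈ Stab cs z := (hz h').2 (S'.fix_dif hn b1 b2 b3 S'.hS S'.h5)
  set c := h'⁻¹ * h with hc
  have hcy : y = c * x := by
    rw [hc, mul_assoc, ← S.eq, S'.eq]; group
  have hc1 : c ∈ Stab cs z := mul_mem (inv_mem hh') S.hS
  have hc2 : c ∈ Stab cs z' := mul_mem (inv_mem S'.hS) hh
  have hc3 : ∀ j : ℕ, rl cs (c ^ j) ≤ (Sep cs 1 c).ncard := by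
    intro j
    refine (rl_le_length cs _).trans (length_pow_le (mul_mem (inv_mem S'.h5) S.h5) ?_ j)
    intro γ hγ
    have e1 := S.fix γ (hγ.perp hgz hc1)
    have e2 := S'.fix γ (hγ.perp hgz' hc2)
    rw [hcy, mul_smul, e1] at e2
    exact ne_of_lt hγ e2
  have hkβ : Ess k β := (hov β (Sim.refl _)).1 hgβ
  obtain ⟨p, hp⟩ := Int.eq_ofNat_of_zero_le (dd_pos hgβ).le
  obtain ⟨q, hq⟩ := Int.eq_ofNat_of_zero_le (dd_pos hkβ).le
  have hp0 : 0 < p := by have := dd_pos hgβ; omega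
  have shift : ∀ γ : Rt cs, Ess g γ → Sim β γ → g ^ (n * q) • γ = k ^ (n * p) • γ := by
    intro γ h1 h2
    have h3 := (hov γ h2).1 h1
    have s1 := h2.trans (sim_smul (pow_mem hk (n * p)) γ)
    refine eq_of_dd hgβ (h1.comm (Commute.self_pow g _))
      ((hov _ s1).2 (h3.comm (Commute.self_pow k _))) (h2.trans (sim_smul (pow_mem hg _) γ)) s1 ?_
    rw [dd_pow hg hgβ h1 h2, dd_pow hk hkβ h3 h2, hp, hq]; push_cast; ring
  have cx := S.comm h S.hS
  have cy := S'.comm h' S'.hS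
  have hf : u * x ^ p * u⁻¹ * y ^ q = 1 := by
    apply eq_one_of_fix_perp hgz'
    · rw [hz']
      intro v hv
      have e1 : rho cs (y ^ q) v = rho cs (g ^ (n * q)) v := by
        rw [pow_mul, S'.eq, ← cy.eq, cy.mul_pow, rho_mul,
          (mem_Stab cs).1 ((hz' _).1 (pow_mem S'.hS q) v hv)]
      have e2 : rho cs (g ^ (n * q)) v = rho cs (k ^ (n * p)) v := by
        obtain ⟨γ, δ, h1, h2, h3, h4, -, rfl⟩ := hv
        rw [map_sub, map_sub, ← smul_val, ← smul_val, shift γ h1 h3, shift δ h2 h4]; rfl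
      have e3 : u * x ^ p * u⁻¹ * k ^ (n * p) = u * (h ^ p)⁻¹ * u⁻¹ := by
        rw [hk', conj_pow, inv_pow, pow_mul, S.eq, cx.symm.mul_pow]; group
      have e4 : u * (h ^ p)⁻¹ * u⁻¹ ∈ Stab cs z' := by
        rw [hz'', conj_mem_Stab]
        simpa [mul_assoc] using pow_mem S.hS p
      rw [mem_Stab, rho_mul, e1, e2, ← rho_mul, e3]
      exact (hz' _).1 e4 v hv
    · intro v hv h1
      obtain ⟨γ, rfl⟩ : ∃ γ : Rt cs, γ.1 = v := ⟨⟨v, hv⟩, rfl⟩
      have e1 : y ^ q • γ = γ :=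
        MulAction.mem_stabilizer_iff.1 (pow_mem (MulAction.mem_stabilizer_iff.2 (S'.fix _ h1)) _)
      have e2 : x ^ p • u⁻¹ • γ = u⁻¹ • γ :=
        MulAction.mem_stabilizer_iff.1 (pow_mem (MulAction.mem_stabilizer_iff.2 (S.fix _
          (by rw [smul_val, ← bf_rho_left]; exact h1))) _)
      have e3 : (u * x ^ p * u⁻¹ * y ^ q) • γ = γ := by
        rw [mul_smul, e1, mul_smul, mul_smul, e2, smul_inv_smul]
      exact congrArg Subtype.val e3
  have hx0 : srl cs x = 0 := by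
    have cc := S.comm c hc1
    have h1 : srl cs (x ^ (p + q)) = 0 := by
      apply srl_eq_zero_of_bdd cs (C := (Sep cs 1 c).ncard + (rl cs u + rl cs u))
      intro j
      have e1 : y ^ (q * j) = u * (x ^ (p * j))⁻¹ * u⁻¹ := by
        rw [pow_mul, eq_inv_of_mul_eq_one_right hf, inv_pow, conj_pow, ← pow_mul]; group
      have e2 : y ^ (q * j) = c ^ (q * j) * x ^ (q * j) := by rw [hcy, cc.symm.mul_pow]
      have e3 : (x ^ (p + q)) ^ j =
          (c ^ (q * j))⁻¹ * ((x ^ (p * j) * u * (x ^ (p * j))⁻¹) * u⁻¹) := by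
        have e4 : x ^ (q * j) = (c ^ (q * j))⁻¹ * (u * (x ^ (p * j))⁻¹ * u⁻¹) := by
          rw [← e1, e2]; group
        rw [← pow_mul, add_mul, pow_add, e4, ← mul_assoc, (cc.pow_pow _ _).inv_right.eq]
        group
      rw [e3]
      refine (rl_mul_le cs _ _).trans (add_le_add ?_ ((rl_mul_le cs _ _).trans ?_))
      · rw [rl_inv]; exact hc3 _
      · rw [rl_conj, rl_inv]
    rw [srl_pow cs x (by omega)] at h1
    exact (mul_eq_zero.1 h1).resolve_left (by positivity)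
  refine ⟨x, h, S.h5, cx, by rw [S.eq, cx.eq], hx0, fun γ hγ => ?_⟩
  have h1 := hγ.perp hgz S.hS
  have h2 : Ess (g ^ n) γ := by rw [Ess, S.eq, mul_smul, S.fix γ h1]; exact hγ
  exact ⟨h2.of_pow hg, fun h3 => S.dich (hγ₀.pow hn) h0 h2 (hs₀.symm.trans h3) h1⟩

theorem red_aff {g : W} (hg : g ∈ W5 cs) {α : Rt cs}
    {z : B → ℝ} (hgz : Good cs z) (hsp : z ∈ Submodule.span ℝ (Dif g α))
    (hz : ∀ h, h ∈ Stab cs z ↔ ∀ v ∈ Dif g α, h ∈ Stab cs v)
    (hsu : ∀ v ∈ Dif g α, ∀ w t, rho cs w z t = 0 → rho cs w v t = 0)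
    (h0 : ∀ γ : Rt cs, Ess g γ → Sim α γ → bf M z γ.1 = 0) :
    Red g α (Fintype.card (Equiv.Perm B) * (W5 cs).index * (W5 cs).index) := by
  have hsp' : z ∈ Submodule.span ℝ {v | IsRoot cs v ∧ bf M z v = 0} := by
    by_contra hc
    obtain ⟨γ, h1, h2, h3⟩ := exists_not_perp hsp hc
    exact h3 (h0 γ h1 h2)
  obtain ⟨h, x, S⟩ := exists_spl hg hgz hz
  have hx : x ∈ Stab cs z :=
    LinearMap.eqOn_span (f := rho cs x) (g := LinearMap.id)
      (fun v hv => congrArg Subtype.val (S.fix ⟨v, hv.1⟩ hv.2)) hsp'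
  have hG := mul_mem S.hS hx
  rw [← S.eq] at hG
  obtain ⟨w, hw0, hw⟩ := id hgz
  apply Red.of_conj w
  apply red_affine (W5_normal.conj_mem _ hg w) hw0 hw
  · intro s hs
    by_contra hc
    exact hs (LinearMap.eqOn_span (f := (LinearMap.proj s).comp (rho cs w)) (g := 0)
      (fun x hx => hw.root_coord_eq_zero (hx.1.rho w) ((bf_rho cs w z x).trans hx.2) hc) hsp')
  · rw [conj_pow, conj_mem_Stab]
    simpa [mul_assoc] using hG
  · intro γ δ h1 h2 h3 h4 h5 t ht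
    have e : ∀ γ : Rt cs, Ess (w * g * w⁻¹) γ → Ess g (w⁻¹ • γ) := fun γ h => by
      rw [← ess_conj w]; simpa using h
    have e' : ∀ γ : Rt cs, Sim (w • α) γ → Sim α (w⁻¹ • γ) := fun γ h => by
      simpa using h.smul w⁻¹
    have := hsu _ ⟨w⁻¹ • γ, w⁻¹ • δ, e γ h1, e δ h2, e' γ h3, e' δ h4, (smul_le_iff _).2 h5, rfl⟩
      w t ht
    simpa [smul_val] using this

theorem Red.mul {g : W} {α : Rt cs} {n : ℕ} (h : Red g α n) {m : ℕ} (hm : 0 < m) :
    Red g α (n * m) := by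
  obtain ⟨t, g', h1, h2, h3, h4, h5⟩ := h
  exact ⟨t ^ m, g' ^ m, pow_mem h1 m, h2.pow_pow m m, by rw [pow_mul, h3, h2.mul_pow],
    by rw [srl_pow cs t hm, h4, mul_zero], fun γ hγ => h5 γ (hγ.of_pow h1)⟩

theorem step {g : W} (hg : g ∈ W5 cs) (hne : ∃ γ : Rt cs, Ess g γ) :
    1 / (((Fintype.card B + 3 : ℕ) : ℝ) * (3 * Nat.card (Quotient (simS cs)) + 1)) ≤ srl cs g ∨
      ∃ α : Rt cs, Ess g α ∧
        Red g α (Fintype.card (Equiv.Perm B) * (W5 cs).index * (W5 cs).index) := by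
  classical
  have := W5_finiteIndex (cs := cs)
  obtain ⟨α, hα, hmax⟩ : ∃ α : Rt cs, Ess g α ∧
      ∀ γ : Rt cs, Ess g γ → dd γ (g • γ) ≤ dd α (g • α) := by
    have hfin : ((fun γ : Rt cs => dd γ (g • γ)) '' {γ | Ess g γ}).Finite := by
      refine (Set.finite_range fun c : Quotient (simS cs) =>
        if h : ∃ γ, Ess g γ ∧ Quotient.mk (simS cs) γ = c then dd h.choose (g • h.choose)
        else 0).subset ?_
      rintro _ ⟨γ, hγ, rfl⟩
      refine ⟨Quotient.mk _ γ, ?_⟩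
      have h : ∃ δ, Ess g δ ∧ Quotient.mk (simS cs) δ = Quotient.mk (simS cs) γ := ⟨γ, hγ, rfl⟩
      simp only [dif_pos h]
      have h1 := h.choose_spec.1
      have h2 : Sim h.choose γ := Quotient.exact h.choose_spec.2
      have h3 := dd_step hg h1 hγ (h1.comm (Commute.refl g)) (hγ.comm (Commute.refl g)) h2
      have h4 := dd_add h1 hγ (hγ.comm (Commute.refl g)) h2 (h2.trans (sim_smul hg γ))
      omega
    obtain ⟨_, ⟨α, hα, rfl⟩, hm⟩ := Set.exists_max_image _ id hfin (Set.Nonempty.image _ hne)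
    exact ⟨α, hα, fun γ hγ => hm _ ⟨γ, hγ, rfl⟩⟩
  by_cases hno : ∀ u : W, Ess g (-(u • α)) → ¬ Ess g (-(u • g ^ (Fintype.card B + 3) • α))
  · exact Or.inl (srl_lower hg hα (by omega) hno)
  right
  push Not at hno
  obtain ⟨u, hu1, hu2⟩ := hno
  refine ⟨α, hα, ?_⟩
  obtain ⟨z, hgz, hsp, hz, hsu⟩ := good_set (cs := cs) (Dif g α) fun v hv => Dif.good hv
  by_cases h0 : ∀ γ : Rt cs, Ess g γ → Sim α γ → bf M z γ.1 = 0
  · exact red_aff hg hgz hsp hz hsu h0
  push Not at h0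
  obtain ⟨γ₀, h1, h2, h3⟩ := h0
  refine Red.mul ?_ (Nat.pos_of_ne_zero Subgroup.FiniteIndex.index_ne_zero)
  set K := Fintype.card B + 3 with hK
  have sK : Sim α (g ^ K • α) := sim_smul (pow_mem hg K) α
  have eK : Ess g (g ^ K • α) := hα.comm (Commute.self_pow g K)
  refine red_rev hg (u := u) (β := -(u • g ^ K • α)) (sK.smul u).neg_right hu2 (fun γ hγ => ?_)
    hgz hsp hz h1 h2 h3
  refine overlap hg (W5_normal.conj_mem _ (inv_mem hg) u) ?_ hu2 ?_ ?_ hγ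
  · rwa [← smul_neg', ess_conj, ess_inv_neg]
  · rw [← hK, conj_pow, smul_neg', mul_smul, mul_smul, inv_smul_smul, inv_pow, inv_smul_smul]
    exact hu1
  · refine (hmax _ hu2).trans (le_of_eq ?_)
    rw [← smul_neg', mul_smul, mul_smul, inv_smul_smul, dd_smul, ← dd_smul g (-(g ^ K • α)),
      smul_inv_smul, smul_neg', dd_of_le (neg_le_iff.2 eK.le), cnt_neg (sim_smul hg _) eK,
      ← dd_of_le eK.le, ← mul_smul, (Commute.self_pow g K).eq, mul_smul, dd_smul]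

theorem gap_aux (n : ℕ) : ∃ c : ℝ, 0 < c ∧ ∀ g ∈ W5 cs,
    (Quotient.mk (simS cs) '' {γ | Ess g γ}).ncard ≤ n → srl cs g = 0 ∨ c ≤ srl cs g := by
  have := W5_finiteIndex (cs := cs)
  have base : ∀ g ∈ W5 cs, (¬ ∃ γ : Rt cs, Ess g γ) → srl cs g = 0 := by
    intro g hg h
    push Not at h
    exact srl_eq_zero_of_bdd cs fun j => (rl_le_length cs _).trans (length_pow_le hg h j)
  induction n with
  | zero =>
    refine ⟨1, one_pos, fun g hg h => Or.inl (base g hg ?_)⟩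
    rintro ⟨γ, hγ⟩
    have := (Set.ncard_pos (Set.toFinite _)).2
      (⟨_, γ, hγ, rfl⟩ : (Quotient.mk (simS cs) '' {γ | Ess g γ}).Nonempty)
    omega
  | succ n ih =>
    obtain ⟨c, hc, ih⟩ := ih
    set m := Fintype.card (Equiv.Perm B) * (W5 cs).index * (W5 cs).index with hm
    have hi := Nat.pos_of_ne_zero (Subgroup.FiniteIndex.index_ne_zero (H := W5 cs))
    have hm0 : 0 < m := Nat.mul_pos (Nat.mul_pos Fintype.card_pos hi) hi
    have hm1 : (0 : ℝ) < m := by exact_mod_cast hm0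
    refine ⟨min (1 / (((Fintype.card B + 3 : ℕ) : ℝ) * (3 * Nat.card (Quotient (simS cs)) + 1)))
      (c / m), lt_min (by positivity) (by positivity), fun g hg h => ?_⟩
    by_cases hne : ∃ γ : Rt cs, Ess g γ
    swap
    · exact Or.inl (base g hg hne)
    rcases step hg hne with h1 | ⟨α, hα, t, g', h1, h2, h3, h4, h5⟩
    · exact Or.inr ((min_le_left _ _).trans h1)
    have e : m * srl cs g = srl cs g' := by
      rw [← srl_pow cs g hm0, h3, srl_mul_of_zero cs h2 h4]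
    have hlt : (Quotient.mk (simS cs) '' {γ | Ess g' γ}).ncard <
        (Quotient.mk (simS cs) '' {γ | Ess g γ}).ncard := by
      apply Set.ncard_lt_ncard _ (Set.toFinite _)
      refine ⟨Set.image_mono fun γ hγ => (h5 γ hγ).1, fun hc => ?_⟩
      obtain ⟨γ, hγ, e⟩ := hc ⟨α, hα, rfl⟩
      exact (h5 γ hγ).2 (Sim.symm (Quotient.exact e))
    rcases ih g' h1 (by omega) with h6 | h6
    · left
      rw [h6] at e
      exact (mul_eq_zero.1 e).resolve_left hm1.ne'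
    · right
      refine (min_le_right _ _).trans ?_
      rw [div_le_iff₀ hm1]; linarith

theorem gap (cs : CoxeterSystem M W) :
    ∃ C : ℝ, 0 < C ∧ ∀ w : W, srl cs w = 0 ∨ C < srl cs w := by
  have := W5_finiteIndex (cs := cs)
  have := W5_normal (cs := cs)
  obtain ⟨c, hc, h⟩ := gap_aux (cs := cs) (Nat.card (Quotient (simS cs)))
  have hi := Nat.pos_of_ne_zero (Subgroup.FiniteIndex.index_ne_zero (H := W5 cs))
  have hi' : (0 : ℝ) < (W5 cs).index := by exact_mod_cast hi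
  refine ⟨c / (2 * (W5 cs).index), by positivity, fun w => ?_⟩
  rcases h _ ((W5 cs).pow_index_mem w) (Set.ncard_le_card _) with h1 | h1
  · left
    rw [srl_pow cs w hi] at h1
    exact (mul_eq_zero.1 h1).resolve_left hi'.ne'
  · right
    rw [srl_pow cs w hi] at h1
    rw [div_lt_iff₀ (by positivity)]
    nlinarith

end Pool.Agent.Lib.MP_c2c03e_al
end
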